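import Pool.Agent.Helper13.Om.Sieve
import Pool.Agent.Helper11.ER.SieveLower

set_option autoImplicit false

/-!
# DB-1: the fundamental lemma (Brun-Hooley), both sides, any dimension `t`

As in `Helper13.Om.sieve_upper` (with `D = ∅`) with the blocks `S j` (`j ≤ E`), `c = b + j`, `G = 4 t`,
`I_j = ∏_(q ∈ S j) (1 - 1_(m % q ∈ Z q))`, `U_j = Atr (2 c)`, `T_j = Atr (2 c) - Atr (2 c + 1)`: `0 ≤ I_j ≤ U_j`, `U_j - I_j ≤ T_j`
(`Atr_bonf`), so by `tele` `0 ≤ ∏ U_j - ∏ I_j ≤ ∑_j T_j ∏_(i ≠ j) U_i` for every `m`. All products are `Nice`; the mean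
values: `V_j ≥ exp(-4t(t+1))`, `V_j ≤ U_j ≤ V_j + τ_j`, `T_j ≤ (1 + G) τ_j`, `τ_j = G^(2c+1)/(2c+1)! ≤ exp(2G) 4^(-c)`.
-/

namespace Pool.Agent.Helper40.DB

open Finset Helper13.Om

/-- The mean values. -/
private lemma mean_bound (J : ℕ) (V U T τ : ℕ → ℝ) (v g θ : ℝ) (hv : 0 ≤ v) (hg : 0 ≤ g)
    (hτ : ∀ j ∈ range J, 0 ≤ τ j)
    (hV : ∀ j ∈ range J, 0 < V j ∧ 1 ≤ V j * v) (hU0 : ∀ j ∈ range J, 0 ≤ U j)
    (hU : ∀ j ∈ range J, U j ≤ V j + τ j) (hT0 : ∀ j ∈ range J, 0 ≤ T j)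
    (hT : ∀ j ∈ range J, T j ≤ g * τ j) (hθ : ∑ j ∈ range J, τ j ≤ θ) :
    ∏ j ∈ range J, U j ≤ Real.exp (v * θ) * ∏ j ∈ range J, V j ∧
    ∑ j ∈ range J, ∏ i ∈ range J, (if i = j then T j else U i) ≤
      g * (v * θ) * Real.exp (v * θ) * ∏ j ∈ range J, V j := by
  have hθ0 : 0 ≤ θ := (sum_nonneg hτ).trans hθ
  have hVp : 0 ≤ ∏ j ∈ range J, V j := prod_nonneg fun j hj => (hV j hj).1.le
  have hUV : ∀ j ∈ range J, U j ≤ V j * Real.exp (v * τ j) := by
    intro j hj
    obtain ⟨h1, h2⟩ := hV j hj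
    have h3 := Real.add_one_le_exp (v * τ j)
    have h4 : V j + τ j ≤ V j * (v * τ j + 1) := by nlinarith [mul_le_mul_of_nonneg_right h2 (hτ j hj)]
    exact (hU j hj).trans (h4.trans (mul_le_mul_of_nonneg_left h3 h1.le))
  have hexp : Real.exp (v * ∑ j ∈ range J, τ j) ≤ Real.exp (v * θ) :=
    Real.exp_le_exp.2 (mul_le_mul_of_nonneg_left hθ hv)
  have hprodexp : ∏ j ∈ range J, (V j * Real.exp (v * τ j)) =
      (∏ j ∈ range J, V j) * Real.exp (v * ∑ j ∈ range J, τ j) := by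
    rw [prod_mul_distrib, ← Real.exp_sum, mul_sum]
  constructor
  · calc ∏ j ∈ range J, U j ≤ ∏ j ∈ range J, (V j * Real.exp (v * τ j)) :=
          prod_le_prod hU0 hUV
      _ = (∏ j ∈ range J, V j) * Real.exp (v * ∑ j ∈ range J, τ j) := hprodexp
      _ ≤ (∏ j ∈ range J, V j) * Real.exp (v * θ) := mul_le_mul_of_nonneg_left hexp hVp
      _ = _ := mul_comm _ _
  · have hterm : ∀ j ∈ range J, ∏ i ∈ range J, (if i = j then T j else U i) ≤
        (g * v * τ j) * ((∏ j ∈ range J, V j) * Real.exp (v * θ)) := by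
      intro j hj
      have h1 : ∏ i ∈ range J, (if i = j then T j else U i) ≤
          ∏ i ∈ range J, ((if i = j then g * v * τ j else 1) * (V i * Real.exp (v * τ i))) := by
        refine prod_le_prod (fun i hi => ?_) fun i hi => ?_
        · split_ifs
          · exact hT0 j hj
          · exact hU0 i hi
        · by_cases hij : i = j
          · subst hij
            rw [if_pos rfl, if_pos rfl]
            obtain ⟨h2, h3⟩ := hV i hi
            have h4 : 1 ≤ Real.exp (v * τ i) := Real.one_le_exp (mul_nonneg hv (hτ i hi))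
            have h5 : 0 ≤ g * τ i := mul_nonneg hg (hτ i hi)
            calc T i ≤ g * τ i := hT i hi
              _ = g * τ i * 1 := (mul_one _).symm
              _ ≤ g * τ i * (V i * v) := mul_le_mul_of_nonneg_left h3 h5
              _ = g * τ i * (V i * v) * 1 := (mul_one _).symm
              _ ≤ g * τ i * (V i * v) * Real.exp (v * τ i) :=
                  mul_le_mul_of_nonneg_left h4 (mul_nonneg h5 (by linarith))
              _ = g * v * τ i * (V i * Real.exp (v * τ i)) := by ring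
          · rw [if_neg hij, if_neg hij, one_mul]
            exact hUV i hi
      refine h1.trans ?_
      rw [prod_mul_distrib, hprodexp, prod_ite_eq' (range J) j, if_pos hj]
      have h6 : 0 ≤ g * v * τ j := mul_nonneg (mul_nonneg hg hv) (hτ j hj)
      exact mul_le_mul_of_nonneg_left (mul_le_mul_of_nonneg_left hexp hVp) h6
    calc ∑ j ∈ range J, ∏ i ∈ range J, (if i = j then T j else U i) ≤
        ∑ j ∈ range J, (g * v * τ j) * ((∏ j ∈ range J, V j) * Real.exp (v * θ)) :=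
          sum_le_sum hterm
      _ = g * (v * ∑ j ∈ range J, τ j) * ((∏ j ∈ range J, V j) * Real.exp (v * θ)) := by
          rw [← sum_mul, ← mul_sum]
          ring
      _ ≤ g * (v * θ) * ((∏ j ∈ range J, V j) * Real.exp (v * θ)) := by
          have h7 : 0 ≤ (∏ j ∈ range J, V j) * Real.exp (v * θ) :=
            mul_nonneg hVp (Real.exp_pos _).le
          exact mul_le_mul_of_nonneg_right (mul_le_mul_of_nonneg_left
            (mul_le_mul_of_nonneg_left hθ hv) hg) h7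
      _ = _ := by ring

private lemma tau_le (G : ℝ) (hG : 0 ≤ G) (b J : ℕ) :
    ∑ j ∈ range J, G ^ (2 * (b + j) + 1) / ((2 * (b + j) + 1).factorial : ℝ) ≤
      Real.exp (2 * G) * (1 / 4) ^ b := by
  have h1 : ∀ j ∈ range J, G ^ (2 * (b + j) + 1) / ((2 * (b + j) + 1).factorial : ℝ) ≤
      Real.exp (2 * G) * (1 / 4) ^ b * ((1 / 2) * (1 / 4) ^ j) := by
    intro j _
    have h2 := Real.pow_div_factorial_le_exp (2 * G) (by positivity) (2 * (b + j) + 1)
    have h3 : G ^ (2 * (b + j) + 1) / ((2 * (b + j) + 1).factorial : ℝ) =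
        (2 * G) ^ (2 * (b + j) + 1) / ((2 * (b + j) + 1).factorial : ℝ) *
          ((1 / 4) ^ b * ((1 / 2) * (1 / 4) ^ j)) := by
      have h4 : ((1 : ℝ) / 4) ^ b * ((1 / 2) * (1 / 4) ^ j) = (1 / 2) ^ (2 * (b + j) + 1) := by
        rw [show (1 : ℝ) / 4 = (1 / 2) ^ 2 by norm_num, ← pow_mul, ← pow_mul]
        ring
      rw [h4, mul_pow]
      have h5 : (2 : ℝ) ^ (2 * (b + j) + 1) * (1 / 2) ^ (2 * (b + j) + 1) = 1 := by
        rw [← mul_pow]
        norm_num
      calc G ^ (2 * (b + j) + 1) / ((2 * (b + j) + 1).factorial : ℝ) =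
          (2 : ℝ) ^ (2 * (b + j) + 1) * (1 / 2) ^ (2 * (b + j) + 1) *
            (G ^ (2 * (b + j) + 1) / ((2 * (b + j) + 1).factorial : ℝ)) := by rw [h5, one_mul]
        _ = _ := by ring
    rw [h3]
    calc (2 * G) ^ (2 * (b + j) + 1) / ((2 * (b + j) + 1).factorial : ℝ) *
          ((1 / 4) ^ b * ((1 / 2) * (1 / 4) ^ j)) ≤
          Real.exp (2 * G) * ((1 / 4) ^ b * ((1 / 2) * (1 / 4) ^ j)) :=
          mul_le_mul_of_nonneg_right h2 (by positivity)
      _ = _ := by ring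
  refine (sum_le_sum h1).trans ?_
  rw [← mul_sum, ← mul_sum]
  have h6 : ∑ j ∈ range J, ((1 : ℝ) / 4) ^ j ≤ 2 := by
    rw [geom_sum_eq (by norm_num)]
    have h7 : (0 : ℝ) < (1 / 4) ^ J := by positivity
    have : ((1 : ℝ) / 4) ^ J - 1 ≥ -1 := by linarith
    rw [div_le_iff_of_neg (by norm_num)]
    linarith
  have h8 : 0 ≤ Real.exp (2 * G) * (1 / 4) ^ b := by positivity
  calc Real.exp (2 * G) * (1 / 4) ^ b * (1 / 2 * ∑ j ∈ range J, ((1 : ℝ) / 4) ^ j) ≤
      Real.exp (2 * G) * (1 / 4) ^ b * (1 / 2 * 2) :=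
        mul_le_mul_of_nonneg_left (mul_le_mul_of_nonneg_left h6 (by norm_num)) h8
    _ = _ := by ring

private lemma Nice.sub' {S : Finset ℕ} {A A' E E' : ℝ} {f f' : ℕ → ℝ} (h : Nice S A E f)
    (h' : Nice S A' E' f') : Nice S (A + A') (E - E') (fun m => f m - f' m) := by
  classical
  have h1 := nice_lin (univ : Finset Bool) (S := S) (fun i => if i then A else A')
    (fun i => if i then E else E') (fun i => if i then 1 else -1)
    (fun i m => if i then f m else f' m) (by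
      intro i _
      cases i
      · simpa using h'
      · simpa using h)
  have e1 : ∑ i : Bool, |(if i then (1 : ℝ) else -1)| * (if i then A else A') = A + A' := by
    simp
  have e2 : ∑ i : Bool, (if i then (1 : ℝ) else -1) * (if i then E else E') = E - E' := by
    simp
    ring
  rw [e1, e2] at h1
  convert h1 using 2 with m
  simp
  ring

private lemma Ntr_mono (S : Finset ℕ) (z : ℕ → ℝ) (hz : ∀ q ∈ S, 0 ≤ z q) {r r' : ℕ}
    (h : r ≤ r') : Ntr r S z ≤ Ntr r' S z := by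
  unfold Ntr
  refine sum_le_sum fun T hT => ?_
  have h0 : 0 ≤ ∏ q ∈ T, z q := prod_nonneg fun q hq => hz q (mem_powerset.1 hT hq)
  by_cases h1 : T.card ≤ r
  · rw [if_pos h1, if_pos (h1.trans h)]
  · rw [if_neg h1]
    split_ifs
    · exact h0
    · exact le_rfl

/-- the truncation error of a block -/
private lemma top_le' (P : Finset ℕ) (g : ℕ → ℝ) (h0 : ∀ q ∈ P, 0 ≤ g q)
    (h1 : ∀ q ∈ P, g q ≤ 1) (G : ℝ) (hG : ∑ q ∈ P, g q ≤ G) (c : ℕ) :
    0 ≤ Atr (2 * c) P g - Atr (2 * c + 1) P g ∧ Atr (2 * c) P g - Atr (2 * c + 1) P g ≤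
      (1 + G) * (G ^ (2 * c + 1) / ((2 * c + 1).factorial : ℝ)) := by
  have hS0 : 0 ≤ ∑ q ∈ P, g q := sum_nonneg h0
  have hG0 : 0 ≤ G := hS0.trans hG
  have e0 := Atr_even_ge P g h0 h1 c
  have e1 := Atr_even_le P g h0 h1 c
  have e2 := Atr_bonf P g h0 h1 (2 * c + 1)
  rw [pow_succ (-1 : ℝ), pow_mul, neg_one_sq, one_pow, one_mul] at e2
  constructor
  · linarith [e2.1]
  · have h3 : (∑ q ∈ P, g q) ^ (2 * c + 1) / ((2 * c + 1).factorial : ℝ) ≤
        G ^ (2 * c + 1) / ((2 * c + 1).factorial : ℝ) := by gcongr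
    have h4 : (∑ q ∈ P, g q) ^ (2 * c + 1 + 1) / ((2 * c + 1 + 1).factorial : ℝ) ≤
        G * (G ^ (2 * c + 1) / ((2 * c + 1).factorial : ℝ)) := by
      calc (∑ q ∈ P, g q) ^ (2 * c + 1 + 1) / ((2 * c + 1 + 1).factorial : ℝ) ≤
          G ^ (2 * c + 1 + 1) / ((2 * c + 1).factorial : ℝ) := by
            have : ((2 * c + 1).factorial : ℝ) ≤ ((2 * c + 1 + 1).factorial : ℝ) := by
              exact_mod_cast Nat.factorial_le (Nat.le_succ _)
            gcongr
        _ = _ := by rw [pow_succ]; ring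
    linarith [e2.2]

theorem fund (t : ℕ) : ∃ C : ℝ, 0 ≤ C ∧ ∀ (P : Finset ℕ), (∀ q ∈ P, q.Prime ∧ t < q) →
    ∀ E : ℕ, (∀ q ∈ P, Nat.log 2 q ≤ E) → ∀ Z : ℕ → Finset ℕ,
    (∀ q ∈ P, Z q ⊆ range q ∧ (Z q).card ≤ t) → ∀ b : ℕ, 1 ≤ b → ∀ M : ℕ,
    |(((Icc 1 M).filter (fun m => ∀ q ∈ P, m % q ∉ Z q)).card : ℝ) -
      M * ∏ q ∈ P, (1 - ((Z q).card : ℝ) / q)| ≤
      C * (1 / 4) ^ b * (M * ∏ q ∈ P, (1 - ((Z q).card : ℝ) / q)) +
        (2 * E + 3) * 2 ^ (20 * E * (b + 2)) := by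
  classical
  set G : ℝ := 4 * t with hGdef
  have hG0 : 0 ≤ G := by positivity
  set v : ℝ := Real.exp (4 * t * (t + 1)) with hv
  have hv0 : 0 < v := Real.exp_pos _
  set Λ : ℝ := v * Real.exp (2 * G) with hΛ
  have hΛ0 : 0 < Λ := by positivity
  refine ⟨(2 + G) * Λ * Real.exp Λ, by positivity, ?_⟩
  intro P hPt E hE Z hZP b hb M
  have hP : ∀ q ∈ P, q.Prime := fun q hq => (hPt q hq).1
  have ht : ∀ q ∈ P, t < q := fun q hq => (hPt q hq).2
  set blk : ℕ → ℕ := fun q => Nat.log 2 (E / Nat.log 2 q) with hblk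
  set S : ℕ → Finset ℕ := fun j => P.filter (fun q => blk q = j) with hS
  set J := E + 1 with hJ
  have hSP : ∀ j, S j ⊆ P := fun j => Finset.filter_subset _ _
  have hSd : ∀ i j, i ≠ j → Disjoint (S i) (S j) := by
    intro i j hij
    rw [Finset.disjoint_left]
    intro q hq hq'
    rw [hS] at hq hq'
    simp only [Finset.mem_filter] at hq hq'
    exact hij (hq.2.symm.trans hq'.2)
  have hblkJ : ∀ q ∈ P, blk q ∈ Finset.range J := by
    intro q _
    rw [Finset.mem_range, hblk, hJ]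
    have h1 : Nat.log 2 (E / Nat.log 2 q) ≤ E / Nat.log 2 q := Nat.log_le_self _ _
    have h2 : E / Nat.log 2 q ≤ E := Nat.div_le_self _ _
    simp only
    omega
  have hbS : ∀ j, ∀ q ∈ S j, 2 ^ j * Nat.log 2 q ≤ E ∧ E < 2 ^ (j + 1) * Nat.log 2 q := by
    intro j q hq
    rw [hS] at hq
    simp only [Finset.mem_filter] at hq
    obtain ⟨hqP, hqj⟩ := hq
    have he := log2_pos_of_prime (hP q hqP)
    have heE := hE q hqP
    have hdiv : E / Nat.log 2 q ≠ 0 := by
      have := Nat.div_pos heE (by omega)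
      omega
    constructor
    · have h1 := Nat.pow_log_le_self 2 hdiv
      rw [hblk] at hqj
      simp only at hqj
      rw [hqj, Nat.le_div_iff_mul_le (by omega)] at h1
      exact h1
    · have h1 := Nat.lt_pow_succ_log_self one_lt_two (E / Nat.log 2 q)
      rw [hblk] at hqj
      simp only at hqj
      rw [hqj, Nat.div_lt_iff_lt_mul (by omega)] at h1
      exact h1
  -- the functions
  set g : ℕ → ℕ → ℝ := fun m q => if m % q ∈ Z q then 1 else 0 with hg
  set dn : ℕ → ℝ := fun q => ((Z q).card : ℝ) / q with hdn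
  have hniceS : ∀ r j, Nice (S j) (Ntr r (S j) (fun q => ((Z q).card : ℝ)))
      (Atr r (S j) dn) (fun m => Atr r (S j) (g m)) := by
    intro r j
    exact nice_Atr _ _ (fun q hq => hP q (hSP j hq)) Z (fun q hq => (hZP q (hSP j hq)).1)
  have hniceT : ∀ j, Nice (S j) (Ntr (2 * (b + j)) (S j) (fun q => ((Z q).card : ℝ)) +
      Ntr (2 * (b + j) + 1) (S j) (fun q => ((Z q).card : ℝ)))
      (Atr (2 * (b + j)) (S j) dn - Atr (2 * (b + j) + 1) (S j) dn)
      (fun m => Atr (2 * (b + j)) (S j) (g m) - Atr (2 * (b + j) + 1) (S j) (g m)) :=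
    fun j => Nice.sub' (hniceS _ j) (hniceS _ j)
  have hnU := nice_prod_blocks J S hSd (fun j => Ntr (2 * (b + j)) (S j) (fun q => ((Z q).card : ℝ)))
    (fun j => Atr (2 * (b + j)) (S j) dn) (fun j m => Atr (2 * (b + j)) (S j) (g m))
    (fun j _ => hniceS _ j)
  have hnT : ∀ j, Nice ((range J).biUnion S)
      (∏ i ∈ range J, (if i = j then Ntr (2 * (b + j)) (S j) (fun q => ((Z q).card : ℝ)) +
        Ntr (2 * (b + j) + 1) (S j) (fun q => ((Z q).card : ℝ)) else
        Ntr (2 * (b + i)) (S i) (fun q => ((Z q).card : ℝ))))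
      (∏ i ∈ range J, (if i = j then Atr (2 * (b + j)) (S j) dn - Atr (2 * (b + j) + 1) (S j) dn
        else Atr (2 * (b + i)) (S i) dn))
      (fun m => ∏ i ∈ range J, (if i = j then
        Atr (2 * (b + j)) (S j) (g m) - Atr (2 * (b + j) + 1) (S j) (g m)
        else Atr (2 * (b + i)) (S i) (g m))) := by
    intro j
    refine nice_prod_blocks J S hSd _ _ _ fun i _ => ?_
    by_cases hij : i = j
    · subst hij
      simpa using hniceT i
    · simp only [if_neg hij]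
      exact hniceS _ i
  have hsumU := hnU.sum_le M
  have hsumT := fun j => (hnT j).sum_le M
  -- pointwise
  have hg0 : ∀ m, ∀ q, 0 ≤ g m q := by
    intro m q
    rw [hg]
    simp only
    split_ifs <;> norm_num
  have hg1 : ∀ m, ∀ q, g m q ≤ 1 := by
    intro m q
    rw [hg]
    simp only
    split_ifs <;> norm_num
  have hpt : ∀ m, (if ∀ q ∈ P, m % q ∉ Z q then (1 : ℝ) else 0) =
      ∏ j ∈ range J, ∏ q ∈ S j, (1 - g m q) := by
    intro m
    have e1 : ∏ j ∈ range J, ∏ q ∈ S j, (1 - g m q) = ∏ q ∈ P, (1 - g m q) :=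
      Finset.prod_fiberwise_of_maps_to hblkJ _
    rw [e1]
    by_cases h : ∀ q ∈ P, m % q ∉ Z q
    · rw [if_pos h, Finset.prod_eq_one]
      intro q hq
      rw [hg]
      simp only
      rw [if_neg (h q hq), sub_zero]
    · rw [if_neg h]
      push Not at h
      obtain ⟨q, hq, hqZ⟩ := h
      rw [Finset.prod_eq_zero hq]
      rw [hg]
      simp only
      rw [if_pos hqZ, sub_self]
  have hI0 : ∀ m, ∀ j ∈ range J, 0 ≤ ∏ q ∈ S j, (1 - g m q) := fun m j _ =>
    prod_nonneg fun q _ => by linarith [hg1 m q]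
  have hIU : ∀ m, ∀ j ∈ range J, ∏ q ∈ S j, (1 - g m q) ≤ Atr (2 * (b + j)) (S j) (g m) :=
    fun m j _ => Atr_even_ge _ _ (fun q _ => hg0 m q) (fun q _ => hg1 m q) _
  have hUT : ∀ m, ∀ j ∈ range J, Atr (2 * (b + j)) (S j) (g m) - ∏ q ∈ S j, (1 - g m q) ≤
      Atr (2 * (b + j)) (S j) (g m) - Atr (2 * (b + j) + 1) (S j) (g m) := by
    intro m j _
    have e2 := Atr_bonf (S j) (g m) (fun q _ => hg0 m q) (fun q _ => hg1 m q) (2 * (b + j) + 1)
    rw [pow_succ (-1 : ℝ), pow_mul, neg_one_sq, one_pow, one_mul] at e2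
    linarith [e2.1]
  have hup : ∀ m, ∏ j ∈ range J, ∏ q ∈ S j, (1 - g m q) ≤
      ∏ j ∈ range J, Atr (2 * (b + j)) (S j) (g m) := fun m => prod_le_prod (hI0 m) (hIU m)
  have hlow : ∀ m, ∏ j ∈ range J, Atr (2 * (b + j)) (S j) (g m) -
      ∑ j ∈ range J, ∏ i ∈ range J, (if i = j then
        Atr (2 * (b + j)) (S j) (g m) - Atr (2 * (b + j) + 1) (S j) (g m)
        else Atr (2 * (b + i)) (S i) (g m)) ≤ ∏ j ∈ range J, ∏ q ∈ S j, (1 - g m q) := by
    intro m
    refine le_trans ?_ (Pool.Agent.Helper6.ER.SL.tele (range J)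
      (fun j => ∏ q ∈ S j, (1 - g m q)) (fun j => Atr (2 * (b + j)) (S j) (g m))
      (hI0 m) (hIU m))
    apply sub_le_sub_left
    refine sum_le_sum fun j hj => prod_le_prod (fun i hi => ?_) fun i hi => ?_
    · split_ifs
      · exact sub_nonneg.2 (hIU m j hj)
      · exact (hI0 m i hi).trans (hIU m i hi)
    · by_cases hij : i = j
      · subst hij
        rw [if_pos rfl, if_pos rfl]
        exact hUT m i hi
      · rw [if_neg hij, if_neg hij]
  -- mean values
  have hd0 : ∀ j, ∀ q ∈ S j, (0 : ℝ) ≤ dn q := fun j q _ => by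
    rw [hdn]
    positivity
  have hd1 : ∀ q ∈ P, dn q ≤ 1 := by
    intro q hq
    have hq0 : (0 : ℝ) < q := by exact_mod_cast (hP q hq).pos
    rw [hdn]
    simp only
    rw [div_le_one hq0]
    have h1 := (hZP q hq).2
    have h2 := ht q hq
    exact_mod_cast h1.trans h2.le
  have hG : ∀ j, ∑ q ∈ S j, dn q ≤ G := by
    intro j
    have h1 : ∑ q ∈ S j, dn q ≤ ∑ q ∈ S j, (t : ℝ) * (1 / q) := by
      refine Finset.sum_le_sum fun q hq => ?_
      rw [hdn]
      simp only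
      rw [div_eq_mul_one_div]
      apply mul_le_mul_of_nonneg_right _ (by positivity)
      exact_mod_cast (hZP q (hSP j hq)).2
    rw [← Finset.mul_sum] at h1
    have h2 := block_sum (S j) (fun q hq => hP q (hSP j hq)) E j (hbS j)
    have h3 : (t : ℝ) * ∑ q ∈ S j, (1 : ℝ) / q ≤ t * 4 :=
      mul_le_mul_of_nonneg_left h2 (Nat.cast_nonneg t)
    rw [hGdef]
    linarith
  have hV : ∀ j, Real.exp (-(4 * t * (t + 1))) ≤ ∏ q ∈ S j, (1 - dn q) := by
    intro j
    refine le_trans ?_ (one_sub_prod_ge (S j) t (fun q hq => ht q (hSP j hq))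
      (fun q => (Z q).card) (fun q hq => (hZP q (hSP j hq)).2))
    rw [Real.exp_le_exp]
    have h1 := hG j
    rw [hdn, hGdef] at h1
    have h2 : (0 : ℝ) ≤ t := Nat.cast_nonneg t
    nlinarith
  have hV' : ∀ j ∈ range J, 0 < ∏ q ∈ S j, (1 - dn q) ∧ 1 ≤ (∏ q ∈ S j, (1 - dn q)) * v := by
    intro j _
    have h1 := hV j
    rw [Real.exp_neg, ← hv] at h1
    refine ⟨lt_of_lt_of_le (by positivity) h1, ?_⟩
    have := mul_le_mul_of_nonneg_right h1 hv0.le
    rwa [inv_mul_cancel₀ hv0.ne'] at this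
  set τ : ℕ → ℝ := fun j => G ^ (2 * (b + j) + 1) / ((2 * (b + j) + 1).factorial : ℝ) with hτ
  have hτ0 : ∀ j ∈ range J, 0 ≤ τ j := fun j _ => by
    rw [hτ]
    positivity
  have hUle : ∀ j ∈ range J, Atr (2 * (b + j)) (S j) dn ≤ ∏ q ∈ S j, (1 - dn q) + τ j := by
    intro j _
    exact (Atr_even_le (S j) dn (hd0 j) (fun q hq => hd1 q (hSP j hq)) (b + j)).trans
      (add_le_add le_rfl (div_le_div_of_nonneg_right
        (pow_le_pow_left₀ (sum_nonneg (hd0 j)) (hG j) _) (Nat.cast_nonneg _)))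
  have hU0 : ∀ j ∈ range J, 0 ≤ Atr (2 * (b + j)) (S j) dn := by
    intro j hj
    refine (hV' j hj).1.le.trans ?_
    exact Atr_even_ge (S j) _ (hd0 j) (fun q hq => hd1 q (hSP j hq)) (b + j)
  have hTT := fun j => top_le' (S j) dn (hd0 j) (fun q hq => hd1 q (hSP j hq)) G (hG j) (b + j)
  obtain ⟨m1, m2⟩ := mean_bound J (fun j => ∏ q ∈ S j, (1 - dn q))
    (fun j => Atr (2 * (b + j)) (S j) dn)
    (fun j => Atr (2 * (b + j)) (S j) dn - Atr (2 * (b + j) + 1) (S j) dn) τ v (1 + G)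
    (Real.exp (2 * G) * (1 / 4) ^ b) hv0.le (by positivity) hτ0 hV' hU0 hUle
    (fun j _ => (hTT j).1) (fun j _ => (hTT j).2) (tau_le G hG0 b J)
  have eV : ∏ j ∈ range J, ∏ q ∈ S j, (1 - dn q) = ∏ q ∈ P, (1 - dn q) :=
    Finset.prod_fiberwise_of_maps_to hblkJ _
  have m0 : ∏ j ∈ range J, ∏ q ∈ S j, (1 - dn q) ≤
      ∏ j ∈ range J, Atr (2 * (b + j)) (S j) dn :=
    prod_le_prod (fun j hj => (hV' j hj).1.le) fun j _ =>
      Atr_even_ge (S j) _ (hd0 j) (fun q hq => hd1 q (hSP j hq)) (b + j)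
  rw [eV] at m0 m1 m2
  -- the number of classes
  have hK : ∀ j, ∀ q ∈ S j, Nat.log 2 q ≤ E / 2 ^ j := by
    intro j q hq
    rw [Nat.le_div_iff_mul_le (by positivity), mul_comm]
    exact (hbS j q hq).1
  have hNtr : ∀ c j, Ntr (2 * c) (S j) (fun q => ((Z q).card : ℝ)) ≤
      2 ^ (10 * (E / 2 ^ j) * c) := by
    intro c j
    exact Ntr_block_le (S j) (fun q hq => hP q (hSP j hq)) t (fun q hq => ht q (hSP j hq))
      (E / 2 ^ j) (hK j) (fun q => (Z q).card) (fun q hq => (hZP q (hSP j hq)).2) c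
  have hN0 : ∀ r j, 0 ≤ Ntr r (S j) (fun q => ((Z q).card : ℝ)) := fun r j =>
    Ntr_nonneg _ _ _ fun q _ => Nat.cast_nonneg _
  have hX : (1 : ℝ) ≤ 2 ^ (20 * E * (b + 2)) := one_le_pow₀ (by norm_num)
  have hNU : ∏ j ∈ range J, Ntr (2 * (b + j)) (S j) (fun q => ((Z q).card : ℝ)) ≤
      2 ^ (20 * E * (b + 2)) := by
    refine (Finset.prod_le_prod (fun j _ => hN0 _ j) fun j _ => hNtr (b + j) j).trans ?_
    rw [Finset.prod_pow_eq_pow_sum]
    refine pow_le_pow_right₀ (by norm_num) ((exponent_sum_nat E b J).trans ?_)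
    exact Nat.mul_le_mul_left _ (by omega)
  have hNT : ∀ j ∈ range J, ∏ i ∈ range J, (if i = j then
      Ntr (2 * (b + j)) (S j) (fun q => ((Z q).card : ℝ)) +
        Ntr (2 * (b + j) + 1) (S j) (fun q => ((Z q).card : ℝ)) else
        Ntr (2 * (b + i)) (S i) (fun q => ((Z q).card : ℝ))) ≤ 2 * 2 ^ (20 * E * (b + 2)) := by
    intro j hj
    have h1 : ∏ i ∈ range J, (if i = j then
        Ntr (2 * (b + j)) (S j) (fun q => ((Z q).card : ℝ)) +
          Ntr (2 * (b + j) + 1) (S j) (fun q => ((Z q).card : ℝ)) else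
          Ntr (2 * (b + i)) (S i) (fun q => ((Z q).card : ℝ))) ≤
        ∏ i ∈ range J, ((if i = j then 2 else 1) * 2 ^ (10 * (E / 2 ^ i) * (b + 1 + i))) := by
      refine prod_le_prod (fun i _ => ?_) fun i _ => ?_
      · split_ifs
        · exact add_nonneg (hN0 _ _) (hN0 _ _)
        · exact hN0 _ _
      · have h2 : ∀ r, r ≤ 2 * (b + 1 + i) → Ntr r (S i) (fun q => ((Z q).card : ℝ)) ≤
            2 ^ (10 * (E / 2 ^ i) * (b + 1 + i)) := fun r hr =>
          (Ntr_mono _ _ (fun q _ => Nat.cast_nonneg _) hr).trans (hNtr (b + 1 + i) i)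
        by_cases hij : i = j
        · subst hij
          rw [if_pos rfl, if_pos rfl]
          have h3 := h2 (2 * (b + i)) (by omega)
          have h4 := h2 (2 * (b + i) + 1) (by omega)
          linarith
        · rw [if_neg hij, if_neg hij, one_mul]
          exact h2 _ (by omega)
    refine h1.trans ?_
    rw [prod_mul_distrib, prod_ite_eq' (range J) j, if_pos hj, Finset.prod_pow_eq_pow_sum]
    have h5 := exponent_sum_nat E (b + 1) J
    have h6 : (2 : ℝ) ^ (∑ i ∈ range J, 10 * (E / 2 ^ i) * (b + 1 + i)) ≤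
        2 ^ (20 * E * (b + 2)) := pow_le_pow_right₀ (by norm_num) h5
    linarith
  -- conclusion
  have hcard : (((Icc 1 M).filter (fun m => ∀ q ∈ P, m % q ∉ Z q)).card : ℝ) =
      ∑ m ∈ Icc 1 M, ∏ j ∈ range J, ∏ q ∈ S j, (1 - g m q) := by
    rw [Finset.card_filter]
    push_cast
    exact Finset.sum_congr rfl fun m _ => hpt m
  have hM : (0 : ℝ) ≤ M := Nat.cast_nonneg M
  set W : ℝ := ∏ q ∈ P, (1 - dn q) with hW
  have hW0 : 0 ≤ W := prod_nonneg fun q hq => by linarith [hd1 q hq]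
  set x : ℝ := v * (Real.exp (2 * G) * (1 / 4) ^ b) with hx
  have hx1 : x = Λ * (1 / 4) ^ b := by rw [hx, hΛ]; ring
  have hx0 : 0 ≤ x := by rw [hx1]; positivity
  have hxΛ : x ≤ Λ := by
    rw [hx1]
    exact mul_le_of_le_one_right hΛ0.le (pow_le_one₀ (by norm_num) (by norm_num))
  have hexpx : Real.exp x ≤ Real.exp Λ := Real.exp_le_exp.2 hxΛ
  have hexp1 : Real.exp x - 1 ≤ x * Real.exp Λ := by
    have h1 : Real.exp x - 1 ≤ x * Real.exp x := by
      have h2 := Real.add_one_le_exp (-x)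
      have h3 := mul_le_mul_of_nonneg_right h2 (Real.exp_pos x).le
      rw [← Real.exp_add, neg_add_cancel, Real.exp_zero] at h3
      nlinarith
    exact h1.trans (mul_le_mul_of_nonneg_left hexpx hx0)
  have hCx : (2 + G) * Λ * Real.exp Λ * (1 / 4) ^ b = (2 + G) * (x * Real.exp Λ) := by
    rw [hx1]; ring
  -- the sums
  have s1 : ∑ m ∈ Icc 1 M, ∏ j ∈ range J, ∏ q ∈ S j, (1 - g m q) ≤
      ∑ m ∈ Icc 1 M, ∏ j ∈ range J, Atr (2 * (b + j)) (S j) (g m) :=
    sum_le_sum fun m _ => hup m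
  have s2 : ∑ m ∈ Icc 1 M, ∏ j ∈ range J, Atr (2 * (b + j)) (S j) (g m) -
      ∑ j ∈ range J, ∑ m ∈ Icc 1 M, ∏ i ∈ range J, (if i = j then
        Atr (2 * (b + j)) (S j) (g m) - Atr (2 * (b + j) + 1) (S j) (g m)
        else Atr (2 * (b + i)) (S i) (g m)) ≤
      ∑ m ∈ Icc 1 M, ∏ j ∈ range J, ∏ q ∈ S j, (1 - g m q) := by
    rw [sum_comm, ← sum_sub_distrib]
    exact sum_le_sum fun m _ => hlow m
  have s3 : ∑ j ∈ range J, ∑ m ∈ Icc 1 M, ∏ i ∈ range J, (if i = j then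
        Atr (2 * (b + j)) (S j) (g m) - Atr (2 * (b + j) + 1) (S j) (g m)
        else Atr (2 * (b + i)) (S i) (g m)) ≤
      M * ((1 + G) * x * Real.exp x * W) + J * (2 * 2 ^ (20 * E * (b + 2))) := by
    have h1 : ∀ j ∈ range J, ∑ m ∈ Icc 1 M, ∏ i ∈ range J, (if i = j then
        Atr (2 * (b + j)) (S j) (g m) - Atr (2 * (b + j) + 1) (S j) (g m)
        else Atr (2 * (b + i)) (S i) (g m)) ≤
        M * (∏ i ∈ range J, (if i = j then
          Atr (2 * (b + j)) (S j) dn - Atr (2 * (b + j) + 1) (S j) dn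
          else Atr (2 * (b + i)) (S i) dn)) + 2 * 2 ^ (20 * E * (b + 2)) := by
      intro j hj
      have h2 := (abs_le.1 (hsumT j)).2
      have h3 := hNT j hj
      linarith
    refine (sum_le_sum h1).trans ?_
    rw [sum_add_distrib, ← mul_sum, sum_const, card_range, nsmul_eq_mul]
    have h4 := mul_le_mul_of_nonneg_left m2 hM
    linarith
  have s4 := abs_le.1 hsumU
  have hJR : (J : ℝ) = E + 1 := by rw [hJ]; push_cast; ring
  have hMW : 0 ≤ M * W := mul_nonneg hM hW0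
  rw [hcard, abs_le]
  constructor
  · -- lower bound
    have h1 : (1 + G) * x * Real.exp x ≤ (1 + G) * (x * Real.exp Λ) := by
      rw [mul_assoc]
      exact mul_le_mul_of_nonneg_left (mul_le_mul_of_nonneg_left hexpx hx0) (by positivity)
    have h2 : M * ((1 + G) * x * Real.exp x * W) ≤ (1 + G) * (x * Real.exp Λ) * (M * W) := by
      have := mul_le_mul_of_nonneg_right h1 hMW
      linarith
    have h3 : 0 ≤ x * Real.exp Λ * (M * W) := by positivity
    have h4 := mul_le_mul_of_nonneg_left m0 hM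
    rw [hCx]
    rw [hJR] at s3
    nlinarith [s4.1, s2, s3, hNU]
  · have h1 : M * ∏ j ∈ range J, Atr (2 * (b + j)) (S j) dn ≤ M * W + x * Real.exp Λ * (M * W) := by
      have h2 := mul_le_mul_of_nonneg_left m1 hM
      have h3 := mul_le_mul_of_nonneg_right hexp1 hMW
      linarith
    have h3 : 0 ≤ x * Real.exp Λ * (M * W) := by positivity
    have h4 : 0 ≤ G * (x * Real.exp Λ * (M * W)) := by positivity
    have hE0 : (0 : ℝ) ≤ E := Nat.cast_nonneg E
    have h5 : (0 : ℝ) ≤ E * 2 ^ (20 * E * (b + 2)) := by positivity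
    rw [hCx]
    nlinarith [s4.2, s1, hNU]

end Pool.Agent.Helper40.DB
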