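import Pool.Agent.Helper40.DB.Defs
import Pool.Agent.Helper13.Om.Cheb
import Pool.Agent.Helper83.PM.Mert

set_option autoImplicit false

/-!
# DB-5: Mertens type bounds

* `prod_le_pow`: `∑_(p ∈ PP N z) 1/p ≤ ∑_(e = 1)^E 4/e ≤ 4 (1 + log E)` (`Helper13.Om.shell_sum` with `w = 1`, `E = Nat.log 2 z`), so
  `∏ (1 + C/p) ≤ exp(C ∑ 1/p) ≤ exp(4C) E^(4C)`; in the form below: `≤ exp(4C) (E + 1)^(4C)` with a real power.
* `VV_inv_le`: `(1 - 1/p)^(-1) ≤ 1 + 2/p`.
* `VV_mul_totient`: with `q = N !` (`N ≤ z`): `VV N z * (φ(q)/q) = ∏_(p ≤ z) (1 - 1/p) ≤ 1/log z`: the product of the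
  `(1 - 1/p)^(-1)` is the sum of `1/n` over all `z`-smooth `n`, which is `≥ ∑_(n ≤ z) 1/n ≥ log (z + 1)` (Mathlib:
  `EulerProduct`/`Nat.smoothNumbers`; `log_add_one_le_harmonic`), `Nat.totient_eq_mul_prod_factors`.
-/

namespace Pool.Agent.Helper40.DB

open Finset

private theorem prime_of_mem {N z p : ℕ} (h : p ∈ PP N z) : p.Prime := (mem_filter.1 h).2

private theorem two_le_of_mem {N z p : ℕ} (h : p ∈ PP N z) : (2 : ℝ) ≤ p := by
  exact_mod_cast (prime_of_mem h).two_le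

private theorem sum_inv_le (N z : ℕ) :
    ∑ p ∈ PP N z, (1 : ℝ) / p ≤ 4 * (1 + Real.log ((Nat.log 2 z : ℝ) + 1)) := by
  have h := Helper13.Om.shell_sum (PP N z) (fun q hq => prime_of_mem hq)
    (Icc 1 (Nat.log 2 z)) (fun q hq => by
      rw [mem_Icc]
      refine ⟨Nat.log_pos one_lt_two (prime_of_mem hq).two_le, Nat.log_mono_right ?_⟩
      exact (mem_Ioc.1 (mem_filter.1 hq).1).2) (fun _ => 1) (fun _ => zero_le_one)
  refine h.trans ?_
  have h1 : ∑ e ∈ Icc 1 (Nat.log 2 z), (1 : ℝ) * (4 / (e : ℝ)) =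
      4 * ∑ e ∈ Icc 1 (Nat.log 2 z), ((e : ℝ))⁻¹ := by
    rw [Finset.mul_sum]
    refine Finset.sum_congr rfl fun e _ => ?_
    rw [one_mul, div_eq_mul_inv]
  rw [h1]
  have h2 := Pool.Agent.Helper83.PM.harm_le_log (Nat.log 2 z)
  have h3 : Real.log (Nat.log 2 z : ℝ) ≤ Real.log ((Nat.log 2 z : ℝ) + 1) := by
    rcases Nat.eq_zero_or_pos (Nat.log 2 z) with h | h
    · rw [h]
      simp
    · apply Real.log_le_log (by exact_mod_cast h)
      linarith
  linarith

theorem prod_le_pow (C : ℝ) (hC : 0 ≤ C) (N z : ℕ) :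
    ∏ p ∈ PP N z, (1 + C / (p : ℝ)) ≤ Real.exp (4 * C) * ((Nat.log 2 z : ℝ) + 1) ^ (4 * C) := by
  have h1 : ∏ p ∈ PP N z, (1 + C / (p : ℝ)) ≤ Real.exp (∑ p ∈ PP N z, C / (p : ℝ)) := by
    rw [Real.exp_sum]
    refine Finset.prod_le_prod (fun p _ => by positivity) fun p _ => ?_
    rw [add_comm]
    exact Real.add_one_le_exp _
  refine h1.trans ?_
  have h2 : ∑ p ∈ PP N z, C / (p : ℝ) = C * ∑ p ∈ PP N z, (1 : ℝ) / p := by
    rw [Finset.mul_sum]
    refine Finset.sum_congr rfl fun p _ => ?_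
    rw [mul_one_div]
  have h3 : (0 : ℝ) < (Nat.log 2 z : ℝ) + 1 := by positivity
  rw [Real.rpow_def_of_pos h3, ← Real.exp_add]
  apply Real.exp_le_exp.2
  rw [h2]
  have h4 := mul_le_mul_of_nonneg_left (sum_inv_le N z) hC
  linarith

theorem VV_pos (N z : ℕ) : 0 < VV N z := by
  unfold VV
  refine Finset.prod_pos fun p hp => ?_
  have h := two_le_of_mem hp
  have h1 : 1 / (p : ℝ) < 1 := by
    rw [div_lt_one (by linarith)]
    linarith
  linarith

theorem VV_inv_le (N z : ℕ) :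
    (VV N z)⁻¹ ≤ Real.exp 8 * ((Nat.log 2 z : ℝ) + 1) ^ (8 : ℝ) := by
  have h := prod_le_pow 2 (by norm_num) N z
  have h8 : (4 : ℝ) * 2 = 8 := by norm_num
  rw [h8] at h
  refine le_trans ?_ h
  unfold VV
  rw [← Finset.prod_inv_distrib]
  refine Finset.prod_le_prod (fun p hp => ?_) fun p hp => ?_
  · have h := two_le_of_mem hp
    have h1 : 1 / (p : ℝ) < 1 := by
      rw [div_lt_one (by linarith)]
      linarith
    exact inv_nonneg.2 (by linarith)
  · have h := two_le_of_mem hp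
    have hp0 : (0 : ℝ) < p := by linarith
    have h1 : (0 : ℝ) < 1 - 1 / (p : ℝ) := by
      have : 1 / (p : ℝ) < 1 := by
        rw [div_lt_one (by linarith)]
        linarith
      linarith
    rw [inv_le_comm₀ h1 (by positivity)]
    have h2 : (1 + 2 / (p : ℝ))⁻¹ = p / (p + 2) := by
      field_simp
    rw [h2, div_le_iff₀ (by linarith)]
    have h3 : (1 - 1 / (p : ℝ)) * (p + 2) = p + 1 - 2 / p := by
      field_simp
      ring
    rw [h3]
    have h4 : 2 / (p : ℝ) ≤ 1 := by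
      rw [div_le_one hp0]
      exact h
    linarith

private theorem primeFactors_fact (N : ℕ) :
    (Nat.factorial N).primeFactors = (Icc 1 N).filter Nat.Prime := by
  ext p
  rw [Nat.mem_primeFactors, mem_filter, mem_Icc]
  constructor
  · rintro ⟨hp, hd, -⟩
    exact ⟨⟨hp.one_le, (hp.dvd_factorial).1 hd⟩, hp⟩
  · rintro ⟨⟨-, h⟩, hp⟩
    exact ⟨hp, (hp.dvd_factorial).2 h, Nat.factorial_ne_zero N⟩

theorem VV_mul_totient (N z : ℕ) (hN : 1 ≤ N) (hz : N ≤ z) (hz2 : 2 ≤ z) :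
    VV N z * ((Nat.totient (Nat.factorial N) : ℝ) / (Nat.factorial N : ℝ)) * Real.log z ≤ 1 := by
  have h1 : (Nat.totient (Nat.factorial N) : ℝ) / (Nat.factorial N : ℝ) =
      ∏ p ∈ (Icc 1 N).filter Nat.Prime, (1 - 1 / (p : ℝ)) := by
    have h2 := Nat.totient_eq_mul_prod_factors (Nat.factorial N)
    have h3 : (Nat.totient (Nat.factorial N) : ℝ) = (Nat.factorial N : ℝ) *
        ∏ p ∈ (Nat.factorial N).primeFactors, (1 - (p : ℝ)⁻¹) := by
      have h2' := congrArg (fun q : ℚ => (q : ℝ)) h2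
      push_cast at h2'
      exact h2'
    have h4 : (Nat.factorial N : ℝ) ≠ 0 := by exact_mod_cast Nat.factorial_ne_zero N
    rw [h3, mul_div_cancel_left₀ _ h4, primeFactors_fact]
    refine Finset.prod_congr rfl fun p _ => ?_
    rw [one_div]
  have h5 : VV N z * ((Nat.totient (Nat.factorial N) : ℝ) / (Nat.factorial N : ℝ)) =
      ∏ p ∈ (z + 1).primesBelow, (1 - (p : ℝ)⁻¹) := by
    rw [h1, mul_comm]
    unfold VV
    rw [← Finset.prod_union]
    · apply Finset.prod_congr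
      · ext p
        simp only [PP, mem_union, mem_filter, mem_Icc, mem_Ioc, Nat.mem_primesBelow]
        constructor
        · rintro (⟨⟨-, h⟩, hp⟩ | ⟨⟨-, h⟩, hp⟩)
          · exact ⟨by omega, hp⟩
          · exact ⟨by omega, hp⟩
        · rintro ⟨h, hp⟩
          have := hp.one_le
          by_cases h' : p ≤ N
          · exact Or.inl ⟨⟨this, h'⟩, hp⟩
          · exact Or.inr ⟨⟨by omega, by omega⟩, hp⟩
      · intro p _
        rw [one_div]
    · rw [Finset.disjoint_left]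
      intro p hp hp'
      have h6 := (mem_Icc.1 (mem_filter.1 hp).1).2
      have h7 := (mem_Ioc.1 (mem_filter.1 hp').1).1
      omega
  rw [h5]
  have h8 : Real.log z ≤ ∏ p ∈ (z + 1).primesBelow, (1 - (p : ℝ)⁻¹)⁻¹ := by
    refine le_trans ?_ (le_trans (Pool.Agent.Helper83.PM.log_le_harm z)
      (Pool.Agent.Helper83.PM.harm_le_prod z))
    exact Real.log_le_log (by positivity) (by linarith)
  rw [Finset.prod_inv_distrib] at h8
  have h9 : 0 < ∏ p ∈ (z + 1).primesBelow, (1 - (p : ℝ)⁻¹) := by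
    refine Finset.prod_pos fun p hp => ?_
    have h := (Nat.mem_primesBelow.1 hp).2.one_lt
    have h' : (1 : ℝ) < p := by exact_mod_cast h
    have := inv_lt_one_of_one_lt₀ h'
    linarith
  calc (∏ p ∈ (z + 1).primesBelow, (1 - (p : ℝ)⁻¹)) * Real.log z
      ≤ (∏ p ∈ (z + 1).primesBelow, (1 - (p : ℝ)⁻¹)) *
        (∏ p ∈ (z + 1).primesBelow, (1 - (p : ℝ)⁻¹))⁻¹ :=
        mul_le_mul_of_nonneg_left h8 h9.le
    _ = 1 := mul_inv_cancel₀ h9.ne'

end Pool.Agent.Helper40.DB
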