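import Pool.Agent.Helper6.DG.Defs
import Pool.Agent.Helper40.DB.Mert

set_option autoImplicit false

/-!
# DGB-3: the primes are majorised by `ν`

PROOF. `exists_z`: `z = Nat.findGreatest (fun z => z ^ s ≤ M) M` (or `⌊M^(1/s)⌋₊`).
`inj`: a prime `p' ∈ PW D q Y` is `1 + q m`, `m = (p' - 1) / q`, `m ≥ (Y - 1) / q = tt q Y`, and
`m ≤ (Y - 1 + Y / D) / q ≤ tt q Y + Y / (D q) + 1`, so `j = m - tt q Y < MM D q Y`; `z < Y ≤ p'` gives `ν = V^(-1)` at `m`
(a prime `≤ z` does not divide the prime `p' > z`).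
So for `F ≥ 0`: `∑_(p') F p' ≤ V ∑_j ν(t + j) F(1 + q (t + j))`.
Constant: `V · M / |PW| ≤ V · (4 Y / q) φ(q) log Y / (c Y) ≤ (4/c) log Y / log z` (`VV_mul_totient`; `M ≤ Y/q + 3 ≤ 4 Y / q` for `Y ≥ q`; `z ≤ M ≤ Y/2 + 3 < Y` as `q = N! ≥ 2`; `N ≤ z` for large
`Y`), and `log z ≥ log Y / (4 s)`: `(z + 1)^s > M ≥ Y / (D q) ≥ √Y` for `Y ≥ (D q)²`... (`M = Y / (D q) + 3 ≥ Y / (D q)` as reals), and
`z + 1 ≤ z²`. So `K = 16 s / c`.
-/

namespace DG

open Finset Filter

theorem exists_z (s M : ℕ) (hs : 1 ≤ s) (hM : 1 ≤ M) : ∃ z : ℕ, 1 ≤ z ∧ z ^ s ≤ M ∧ M < (z + 1) ^ s := by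
  have h1 : (1 : ℕ) ^ s ≤ M := by rw [one_pow]; exact hM
  refine ⟨Nat.findGreatest (fun z => z ^ s ≤ M) M, ?_, ?_, ?_⟩
  · exact Nat.le_findGreatest hM h1
  · exact Nat.findGreatest_spec (P := fun z => z ^ s ≤ M) hM h1
  · by_contra hcon
    rw [not_lt] at hcon
    rcases Nat.lt_or_ge M (Nat.findGreatest (fun z => z ^ s ≤ M) M + 1) with h | h
    · have h2 : Nat.findGreatest (fun z => z ^ s ≤ M) M + 1 ≤
          (Nat.findGreatest (fun z => z ^ s ≤ M) M + 1) ^ s := Nat.le_self_pow (by omega) _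
      omega
    · exact Nat.findGreatest_is_greatest (P := fun z => z ^ s ≤ M) (Nat.lt_succ_self _) h hcon

private theorem mem_PW {D q Y p : ℕ} (h : p ∈ PW D q Y) :
    Y ≤ p ∧ p ≤ Y + Y / D ∧ p.Prime ∧ q ∣ p - 1 := by
  unfold PW at h
  rw [mem_filter, mem_Icc] at h
  exact ⟨h.1.1, h.1.2, h.2.1, h.2.2⟩

private theorem eq_of_mem {D q Y p : ℕ} (h : p ∈ PW D q Y) : 1 + q * ((p - 1) / q) = p := by
  obtain ⟨-, -, hp, hd⟩ := mem_PW h
  rw [Nat.mul_div_cancel' hd]
  have := hp.one_le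
  omega

private theorem tt_add {D q Y p : ℕ} (h : p ∈ PW D q Y) :
    tt q Y + ((p - 1) / q - tt q Y) = (p - 1) / q := by
  obtain ⟨h1, -, -, -⟩ := mem_PW h
  have h2 : tt q Y ≤ (p - 1) / q := by
    unfold tt
    exact Nat.div_le_div_right (by omega)
  omega

private theorem lt_MM {D q Y p : ℕ} (h : p ∈ PW D q Y) : (p - 1) / q - tt q Y < MM D q Y := by
  obtain ⟨h1, h2, hp, -⟩ := mem_PW h
  have h3 : (p - 1) / q ≤ ((Y - 1) + Y / D) / q := by
    refine Nat.div_le_div_right ?_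
    have := hp.two_le
    omega
  rcases Nat.eq_zero_or_pos q with hq | hq
  · subst hq
    simp [MM]
  have h4 : ((Y - 1) + Y / D) / q ≤ (Y - 1) / q + (Y / D) / q + 1 := by
    rw [Nat.div_le_iff_le_mul_add_pred hq]
    have e1 := Nat.div_add_mod (Y - 1) q
    have e2 := Nat.div_add_mod (Y / D) q
    have l1 := Nat.mod_lt (Y - 1) hq
    have l2 := Nat.mod_lt (Y / D) hq
    have e3 : q * ((Y - 1) / q + (Y / D) / q + 1) = q * ((Y - 1) / q) + q * ((Y / D) / q) + q := by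
      ring
    rw [e3]
    omega
  have h5 : (Y / D) / q = Y / (D * q) := Nat.div_div_eq_div_mul Y D q
  unfold MM tt
  rw [h5] at h4
  have h6 := Nat.zero_le (Y / (D * q))
  generalize Y / (D * q) = a at *
  generalize ((Y - 1) + Y / D) / q = b at *
  omega

private theorem nu_eq {D q Y N z p : ℕ} (h : p ∈ PW D q Y) (hz : z < Y) :
    Pool.Agent.Helper40.DB.nu q N z (((p - 1) / q : ℕ) : ℤ) =
      (Pool.Agent.Helper40.DB.VV N z)⁻¹ := by
  unfold Pool.Agent.Helper40.DB.nu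
  rw [if_pos]
  intro r hr hd
  obtain ⟨h1, -, hp, -⟩ := mem_PW h
  unfold Pool.Agent.Helper40.DB.PP at hr
  rw [mem_filter, mem_Ioc] at hr
  have h2 : (1 : ℤ) + (q : ℤ) * (((p - 1) / q : ℕ) : ℤ) = (p : ℤ) := by
    exact_mod_cast eq_of_mem h
  rw [h2] at hd
  have h3 : r ∣ p := by exact_mod_cast hd
  rcases (Nat.dvd_prime hp).1 h3 with h4 | h4
  · exact hr.2.one_lt.ne' h4
  · omega

theorem sum_PW_le (D q Y N z : ℕ) (hD : 1 ≤ D) (hq : 1 ≤ q) (hY : 2 ≤ Y) (hz : z < Y)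
    (F : ℤ → ℝ) (hF : ∀ m, 0 ≤ F m) :
    ∑ p ∈ PW D q Y, F p ≤ Pool.Agent.Helper40.DB.VV N z * ∑ j ∈ range (MM D q Y),
      Pool.Agent.Helper40.DB.nu q N z ((tt q Y : ℤ) + j) * F (1 + (q : ℤ) * ((tt q Y : ℤ) + j)) := by
  have hV := Pool.Agent.Helper40.DB.VV_pos N z
  have hnu : ∀ m, 0 ≤ Pool.Agent.Helper40.DB.nu q N z m := by
    intro m
    unfold Pool.Agent.Helper40.DB.nu
    split_ifs
    · exact (inv_pos.2 hV).le
    · exact le_rfl
  rw [Finset.mul_sum]
  set g : ℕ → ℝ := fun j => Pool.Agent.Helper40.DB.VV N z *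
    (Pool.Agent.Helper40.DB.nu q N z ((tt q Y : ℤ) + j) *
      F (1 + (q : ℤ) * ((tt q Y : ℤ) + j))) with hg
  have hg0 : ∀ j, 0 ≤ g j := fun j => mul_nonneg hV.le (mul_nonneg (hnu _) (hF _))
  have h1 : ∀ p ∈ PW D q Y, F p = g ((p - 1) / q - tt q Y) := by
    intro p hp
    have e1 : (tt q Y : ℤ) + (((p - 1) / q - tt q Y : ℕ) : ℤ) = (((p - 1) / q : ℕ) : ℤ) := by
      exact_mod_cast tt_add hp
    have e2 : (1 : ℤ) + (q : ℤ) * (((p - 1) / q : ℕ) : ℤ) = (p : ℤ) := by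
      exact_mod_cast eq_of_mem hp
    simp only [hg]
    rw [e1, e2, nu_eq hp hz, ← mul_assoc, mul_inv_cancel₀ hV.ne', one_mul]
  rw [Finset.sum_congr rfl h1]
  rw [← Finset.sum_image (s := PW D q Y) (g := fun p => (p - 1) / q - tt q Y) (f := g)]
  · refine Finset.sum_le_sum_of_subset_of_nonneg ?_ fun j _ _ => hg0 j
    intro j hj
    obtain ⟨p, hp, rfl⟩ := mem_image.1 hj
    exact mem_range.2 (lt_MM hp)
  · intro p hp p' hp' he
    have hp := Finset.mem_coe.1 hp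
    have hp' := Finset.mem_coe.1 hp'
    simp only at he
    have e1 := tt_add hp
    have e2 := tt_add hp'
    have e3 : (p - 1) / q = (p' - 1) / q := by rw [← e1, ← e2, he]
    rw [← eq_of_mem hp, ← eq_of_mem hp', e3]

/-- The primes are majorised. -/
theorem major (hPR : PR) (D : ℕ) (hD : 1 ≤ D) : ∃ c : ℝ, 0 < c ∧ ∀ s : ℕ, 1 ≤ s → ∀ N : ℕ, 2 ≤ N →
    ∀ᶠ Y : ℕ in atTop, (PW D N.factorial Y).Nonempty ∧ ∀ z : ℕ, z ^ s ≤ MM D N.factorial Y →
      MM D N.factorial Y < (z + 1) ^ s → ∀ F : ℤ → ℝ, (∀ m, 0 ≤ F m) →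
      (1 / ((PW D N.factorial Y).card : ℝ)) * ∑ p ∈ PW D N.factorial Y, F p ≤
        (16 * s / c) * ((1 / ((MM D N.factorial Y : ℕ) : ℝ)) * ∑ j ∈ range (MM D N.factorial Y),
          Pool.Agent.Helper40.DB.nu N.factorial N z ((tt N.factorial Y : ℤ) + j) *
            F (1 + (N.factorial : ℤ) * ((tt N.factorial Y : ℤ) + j))) := by
  obtain ⟨c, hc, hPR⟩ := hPR D hD
  refine ⟨c, hc, fun s hs N hN => ?_⟩
  set q := N.factorial with hqdef
  have hq0 : 1 ≤ q := Nat.factorial_pos N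
  have hq2 : 2 ≤ q := le_trans hN (Nat.self_le_factorial N)
  filter_upwards [hPR q hq0, eventually_ge_atTop 7, eventually_ge_atTop q,
    eventually_ge_atTop ((D * q) ^ 2), eventually_ge_atTop (D * q * N ^ s)] with
    Y hcard hY7 hYq hYsq hYN
  have hYr : (7 : ℝ) ≤ Y := by exact_mod_cast hY7
  have hlogY : 0 < Real.log Y := Real.log_pos (by linarith)
  have hphi : (0 : ℝ) < (q.totient : ℝ) := by exact_mod_cast Nat.totient_pos.2 hq0
  have hqr : (0 : ℝ) < q := by exact_mod_cast hq0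
  have hlow : 0 < c * Y / (q.totient * Real.log Y) := by positivity
  have hcard0 : (0 : ℝ) < ((PW D q Y).card : ℝ) := lt_of_lt_of_le hlow hcard
  refine ⟨Finset.card_pos.1 (by exact_mod_cast hcard0), fun z hz1 hz2 F hF => ?_⟩
  have hDq : 0 < D * q := Nat.mul_pos hD hq0
  have hMN : N ^ s ≤ MM D q Y := by
    unfold MM
    have : N ^ s ≤ Y / (D * q) := by
      rw [Nat.le_div_iff_mul_le hDq]
      rw [mul_comm]
      exact hYN
    omega
  have hNz : N ≤ z := by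
    by_contra hcon
    have h1 : (z + 1) ^ s ≤ N ^ s := Nat.pow_le_pow_left (by omega) s
    omega
  have hz2' : 2 ≤ z := le_trans hN hNz
  have hzY : z < Y := by
    have h1 : z ≤ z ^ s := Nat.le_self_pow (by omega) z
    have h2 : MM D q Y ≤ Y / 2 + 3 := by
      unfold MM
      have : Y / (D * q) ≤ Y / 2 := by
        refine Nat.div_le_div_left ?_ (by norm_num)
        calc 2 ≤ q := hq2
          _ = 1 * q := (one_mul q).symm
          _ ≤ D * q := Nat.mul_le_mul_right q hD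
      omega
    omega
  have hsum := sum_PW_le D q Y N z hD hq0 (by omega) hzY F hF
  have hV := Pool.Agent.Helper40.DB.VV_pos N z
  have hVt := Pool.Agent.Helper40.DB.VV_mul_totient N z (by omega) hNz hz2'
  set V := Pool.Agent.Helper40.DB.VV N z with hVdef
  have hzr : (2 : ℝ) ≤ z := by exact_mod_cast hz2'
  have hlogz : 0 < Real.log z := Real.log_pos (by linarith)
  -- the size of `M`
  have hMr : (0 : ℝ) < ((MM D q Y : ℕ) : ℝ) := by
    have : 0 < MM D q Y := Nat.succ_pos _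
    exact_mod_cast this
  have hM4 : ((MM D q Y : ℕ) : ℝ) ≤ 4 * Y / q := by
    unfold MM
    push_cast
    have h1 : ((Y / (D * q) : ℕ) : ℝ) ≤ (Y : ℝ) / q := by
      refine le_trans Nat.cast_div_le ?_
      push_cast
      apply div_le_div_of_nonneg_left (by linarith) hqr
      have : (1 : ℝ) ≤ D := by exact_mod_cast hD
      nlinarith
    have h2 : (3 : ℝ) ≤ 3 * Y / q := by
      rw [le_div_iff₀ hqr]
      have : (q : ℝ) ≤ Y := by exact_mod_cast hYq
      linarith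
    have h3 : 4 * (Y : ℝ) / q = Y / q + 3 * Y / q := by ring
    linarith
  -- `log z`
  have hzlog : Real.log Y ≤ 4 * s * Real.log z := by
    have hDqr : (0 : ℝ) < (D * q : ℕ) := by exact_mod_cast hDq
    have h1 : (Y : ℝ) / (D * q : ℕ) ≤ ((MM D q Y : ℕ) : ℝ) := by
      rw [div_le_iff₀ hDqr]
      have h2 : Y < (Y / (D * q) + 1) * (D * q) := by
        have := Nat.lt_div_mul_add hDq (a := Y)
        nlinarith
      have h3 : Y ≤ MM D q Y * (D * q) := by
        unfold MM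
        nlinarith
      exact_mod_cast h3
    have h2 : Real.sqrt Y ≤ (Y : ℝ) / (D * q : ℕ) := by
      rw [le_div_iff₀ hDqr]
      have h3 : ((D * q : ℕ) : ℝ) ≤ Real.sqrt Y := by
        apply Real.le_sqrt_of_sq_le
        exact_mod_cast hYsq
      calc Real.sqrt Y * (D * q : ℕ) ≤ Real.sqrt Y * Real.sqrt Y :=
            mul_le_mul_of_nonneg_left h3 (Real.sqrt_nonneg _)
        _ = Y := Real.mul_self_sqrt (by linarith)
    have h3 : Real.sqrt Y ≤ ((z : ℝ) + 1) ^ s := by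
      refine le_trans (h2.trans h1) ?_
      have : MM D q Y ≤ (z + 1) ^ s := hz2.le
      exact_mod_cast this
    have h4 : Real.sqrt Y ≤ ((z : ℝ) ^ 2) ^ s := by
      refine h3.trans ?_
      apply pow_le_pow_left₀ (by positivity)
      nlinarith
    have h5 := Real.log_le_log (Real.sqrt_pos.2 (by linarith)) h4
    rw [Real.log_sqrt (by linarith), Real.log_pow, Real.log_pow] at h5
    push_cast at h5
    linarith
  -- the constant
  have hconst : V * ((MM D q Y : ℕ) : ℝ) / ((PW D q Y).card : ℝ) ≤ 16 * s / c := by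
    rw [div_le_div_iff₀ hcard0 hc]
    have h1 : c * Y ≤ ((PW D q Y).card : ℝ) * (q.totient * Real.log Y) := by
      rwa [div_le_iff₀ (by positivity)] at hcard
    have h2 : V * ((q.totient : ℝ) / q) * Real.log Y ≤ 4 * s := by
      calc V * ((q.totient : ℝ) / q) * Real.log Y
          ≤ V * ((q.totient : ℝ) / q) * (4 * s * Real.log z) :=
            mul_le_mul_of_nonneg_left hzlog (by positivity)
        _ = 4 * s * (V * ((q.totient : ℝ) / q) * Real.log z) := by ring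
        _ ≤ 4 * s * 1 := mul_le_mul_of_nonneg_left hVt (by positivity)
        _ = 4 * s := mul_one _
    have hYpos : (0 : ℝ) < Y := by linarith
    have h3 : V * ((MM D q Y : ℕ) : ℝ) * c * Y ≤ 16 * s * ((PW D q Y).card : ℝ) * Y := by
      calc V * ((MM D q Y : ℕ) : ℝ) * c * Y = V * ((MM D q Y : ℕ) : ℝ) * (c * Y) := by ring
        _ ≤ V * (4 * Y / q) * (((PW D q Y).card : ℝ) * (q.totient * Real.log Y)) := by
            apply mul_le_mul (mul_le_mul_of_nonneg_left hM4 hV.le) h1 (by positivity)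
            positivity
        _ = 4 * ((PW D q Y).card : ℝ) * Y * (V * ((q.totient : ℝ) / q) * Real.log Y) := by
            field_simp
        _ ≤ 4 * ((PW D q Y).card : ℝ) * Y * (4 * s) :=
            mul_le_mul_of_nonneg_left h2 (by positivity)
        _ = 16 * s * ((PW D q Y).card : ℝ) * Y := by ring
    exact le_of_mul_le_mul_right h3 hYpos
  have hS : 0 ≤ (1 / ((MM D q Y : ℕ) : ℝ)) * ∑ j ∈ range (MM D q Y),
      Pool.Agent.Helper40.DB.nu q N z ((tt q Y : ℤ) + j) *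
        F (1 + (q : ℤ) * ((tt q Y : ℤ) + j)) := by
    refine mul_nonneg (by positivity) (Finset.sum_nonneg fun j _ => mul_nonneg ?_ (hF _))
    unfold Pool.Agent.Helper40.DB.nu
    split_ifs
    · exact (inv_pos.2 hV).le
    · exact le_rfl
  calc (1 / ((PW D q Y).card : ℝ)) * ∑ p ∈ PW D q Y, F p
      ≤ (1 / ((PW D q Y).card : ℝ)) * (V * ∑ j ∈ range (MM D q Y),
        Pool.Agent.Helper40.DB.nu q N z ((tt q Y : ℤ) + j) *
          F (1 + (q : ℤ) * ((tt q Y : ℤ) + j))) :=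
        mul_le_mul_of_nonneg_left hsum (by positivity)
    _ = (V * ((MM D q Y : ℕ) : ℝ) / ((PW D q Y).card : ℝ)) * ((1 / ((MM D q Y : ℕ) : ℝ)) *
        ∑ j ∈ range (MM D q Y), Pool.Agent.Helper40.DB.nu q N z ((tt q Y : ℤ) + j) *
          F (1 + (q : ℤ) * ((tt q Y : ℤ) + j))) := by
        field_simp
    _ ≤ _ := mul_le_mul_of_nonneg_right hconst hS

end DG
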