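import Pool.Agent.Helper40.DB.Defs
import Pool.Agent.Helper13.Om.Sieve

set_option autoImplicit false

/-!
# DB-4: average over the cube of the local factors

PROOF. Let `i ∈ w \ w'` or `i ∈ w' \ w`. Fix the other coordinates; as a function of `x = h i + H ∈ [1, 2H - 1]` the form is
`± x + c`. For `p` prime, `f_p(x) = 1 + (C/p) 1_(p ∣ ± x + c)` is `Nice {p} (1 + C/p) (1 + C/p^2)` (`Helper13.Om.Nice`: `nice_one`, `nice_class`,
`nice_lin`), so `∏_(p ∈ PP) f_p` is `Nice (PP N z) (∏ (1 + C/p)) (∏ (1 + C/p^2))` (`nice_prod`), and `Nice.sum_le` gives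
`∑_x ∏_(p ∣ form) (1 + C/p) ≤ (2H - 1) ∏ (1 + C/p^2) + ∏_(p ∈ PP) (1 + C/p)`. Subtract `2H - 1` and sum over the other
coordinates (`(2H - 1)^(d-1)` of them; e.g. `Fintype.piFinset` and `Function.update`, or `Fin.insertNthEquiv`).
`∏ (1 + C/p^2) ≤ exp(C ∑_(n > N) 1/n^2) ≤ exp(C/N)`.
-/

namespace Pool.Agent.Helper40.DB

open Finset

open Helper13.Om in
private lemma av_nice (C : ℝ) (hC : 0 ≤ C) (p : ℕ) (hp : p.Prime) (a : ℕ) :
    Nice {p} (1 + C / (p : ℝ)) (1 + C / (p : ℝ) * (1 / (p : ℝ)))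
      (fun m => if m ≡ a [MOD p] then 1 + C / (p : ℝ) else 1) := by
  have h := nice_lin (J := Bool) univ (S := {p}) (fun _ => 1)
    (fun b => if b then 1 else 1 / (p : ℝ)) (fun b => if b then 1 else C / (p : ℝ))
    (fun b m => if b then 1 else (if m ≡ a [MOD p] then 1 else 0)) (by
      intro b _
      cases b
      · simp only [Bool.false_eq_true, if_false]
        refine nice_class a p hp.pos fun q hq hqp => ?_
        rw [mem_singleton]
        exact (Nat.prime_dvd_prime_iff_eq hq hp).mp hqp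
      · simp only [if_true]
        exact nice_one.mono (empty_subset _) le_rfl)
  have e1 : ∑ b : Bool, |(if b then (1 : ℝ) else C / (p : ℝ))| * 1 = 1 + C / (p : ℝ) := by
    rw [Fintype.sum_bool]
    have h0 : 0 ≤ C / (p : ℝ) := by positivity
    simp [abs_of_nonneg h0]
  have e2 : ∑ b : Bool, (if b then (1 : ℝ) else C / (p : ℝ)) * (if b then 1 else 1 / (p : ℝ)) =
      1 + C / (p : ℝ) * (1 / (p : ℝ)) := by
    rw [Fintype.sum_bool]
    simp
  have e3 : (fun m : ℕ => ∑ b : Bool, (if b then (1 : ℝ) else C / (p : ℝ)) *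
      (if b then 1 else (if m ≡ a [MOD p] then 1 else 0))) =
      (fun m => if m ≡ a [MOD p] then 1 + C / (p : ℝ) else 1) := by
    funext m
    rw [Fintype.sum_bool]
    by_cases h1 : m ≡ a [MOD p] <;> simp [h1]
  rw [e1, e2, e3] at h
  exact h

/-- the mean value -/
private lemma av_exp (C : ℝ) (hC : 0 ≤ C) (N z : ℕ) (hN : 1 ≤ N) :
    ∏ p ∈ PP N z, (1 + C / (p : ℝ) * (1 / (p : ℝ))) ≤ Real.exp (C / N) := by
  have h1 : ∏ p ∈ PP N z, (1 + C / (p : ℝ) * (1 / (p : ℝ))) ≤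
      ∏ p ∈ PP N z, Real.exp (C * ((p : ℝ) ^ 2)⁻¹) := by
    refine prod_le_prod (fun p _ => by positivity) fun p _ => ?_
    have h2 := Real.add_one_le_exp (C * ((p : ℝ) ^ 2)⁻¹)
    have h3 : C / (p : ℝ) * (1 / (p : ℝ)) = C * ((p : ℝ) ^ 2)⁻¹ := by
      rw [sq, mul_inv, div_eq_mul_inv, one_div, mul_assoc]
    rw [h3]
    linarith
  refine h1.trans ?_
  rw [← Real.exp_sum, ← mul_sum, Real.exp_le_exp, div_eq_mul_inv]
  refine mul_le_mul_of_nonneg_left ?_ hC
  have h4 : ∑ p ∈ PP N z, ((p : ℝ) ^ 2)⁻¹ ≤ ∑ p ∈ Ioc N z, ((p : ℝ) ^ 2)⁻¹ :=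
    sum_le_sum_of_subset_of_nonneg (filter_subset _ _) fun p _ _ => by positivity
  refine h4.trans ?_
  rcases le_total N z with h | h
  · have h5 := sum_Ioc_inv_sq_le_sub (α := ℝ) (by omega : N ≠ 0) h
    have h6 : (0 : ℝ) ≤ (z : ℝ)⁻¹ := by positivity
    linarith
  · rw [Ioc_eq_empty_of_le h, sum_empty]
    positivity

private lemma av_class (s c : ℤ) (hs : s = 1 ∨ s = -1) (H p m : ℕ) (hp : p.Prime) :
    ((p : ℤ) ∣ s * ((m : ℤ) - H) + c) ↔ m ≡ (((H : ℤ) - s * c) % p).toNat [MOD p] := by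
  have hp0 : (p : ℤ) ≠ 0 := by exact_mod_cast hp.ne_zero
  have h1 : ((((H : ℤ) - s * c) % p).toNat : ℤ) = ((H : ℤ) - s * c) % p :=
    Int.toNat_of_nonneg (Int.emod_nonneg _ hp0)
  rw [← Int.natCast_modEq_iff, h1]
  have h2 : ((m : ℤ) ≡ ((H : ℤ) - s * c) % p [ZMOD p]) ↔ (m : ℤ) ≡ (H : ℤ) - s * c [ZMOD p] :=
    ⟨fun h => h.trans (Int.mod_modEq _ _), fun h => h.trans (Int.mod_modEq _ _).symm⟩
  rw [h2, Int.modEq_iff_dvd]
  rcases hs with rfl | rfl
  · rw [← dvd_neg]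
    have e : -(1 * ((m : ℤ) - H) + c) = (H : ℤ) - 1 * c - m := by ring
    rw [e]
  · have e : (-1 * ((m : ℤ) - H) + c) = (H : ℤ) - -1 * c - m := by ring
    rw [e]

open Helper13.Om in
private lemma av_one (C : ℝ) (hC : 0 ≤ C) (N z H : ℕ) (hN : 1 ≤ N) (hH : 1 ≤ H) (s c : ℤ)
    (hs : s = 1 ∨ s = -1) :
    ∑ x ∈ Ioo (-(H : ℤ)) H, (∏ p ∈ DD N z (s * x + c), (1 + C / (p : ℝ)) - 1) ≤
      2 * H * (Real.exp (C / N) - 1) + ∏ p ∈ PP N z, (1 + C / (p : ℝ)) := by
  classical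
  have hn := nice_prod (PP N z) (fun p => 1 + C / (p : ℝ))
    (fun p => 1 + C / (p : ℝ) * (1 / (p : ℝ)))
    (fun p m => if m ≡ (((H : ℤ) - s * c) % p).toNat [MOD p] then 1 + C / (p : ℝ) else 1)
    (fun p hp => av_nice C hC p (mem_filter.1 hp).2 _)
  have h1 := (abs_le.1 (hn.sum_le (2 * H - 1))).2
  have h2 : ∑ x ∈ Ioo (-(H : ℤ)) H, (∏ p ∈ DD N z (s * x + c), (1 + C / (p : ℝ)) - 1) =
      ∑ m ∈ Icc 1 (2 * H - 1), ((∏ p ∈ PP N z,
        if m ≡ (((H : ℤ) - s * c) % p).toNat [MOD p] then 1 + C / (p : ℝ) else 1) - 1) := by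
    symm
    refine sum_nbij' (fun m : ℕ => (m : ℤ) - H) (fun x : ℤ => (x + H).toNat) ?_ ?_ ?_ ?_ ?_
    · intro m hm
      rw [mem_Icc] at hm
      rw [mem_Ioo]
      omega
    · intro x hx
      rw [mem_Ioo] at hx
      rw [mem_Icc]
      omega
    · intro m _
      simp
    · intro x hx
      rw [mem_Ioo] at hx
      have h4 : ((x + H).toNat : ℤ) = x + H := Int.toNat_of_nonneg (by omega)
      change ((x + H).toNat : ℤ) - H = x
      rw [h4]
      ring
    · intro m _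
      congr 1
      unfold DD
      rw [prod_filter]
      refine prod_congr rfl fun p hp => ?_
      have h3 := av_class s c hs H p m (mem_filter.1 hp).2
      by_cases h4 : (p : ℤ) ∣ s * ((m : ℤ) - H) + c
      · rw [if_pos (h3.1 h4), if_pos h4]
      · rw [if_neg (fun h => h4 (h3.2 h)), if_neg h4]
  rw [h2, sum_sub_distrib, sum_const, Nat.card_Icc, nsmul_eq_mul, mul_one]
  have h3 : ((2 * H - 1 + 1 - 1 : ℕ) : ℝ) = ((2 * H - 1 : ℕ) : ℝ) := by congr 1
  rw [h3]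
  have hE1 := av_exp C hC N z hN
  have hcast : ((2 * H - 1 : ℕ) : ℝ) ≤ 2 * H := by
    have : 2 * H - 1 ≤ 2 * H := Nat.sub_le _ _
    exact_mod_cast this
  have hexp : 0 ≤ Real.exp (C / N) - 1 := by
    have : 0 ≤ C / (N : ℝ) := by positivity
    linarith [Real.one_le_exp this]
  have h5 : ((2 * H - 1 : ℕ) : ℝ) * ∏ p ∈ PP N z, (1 + C / (p : ℝ) * (1 / (p : ℝ))) ≤
      ((2 * H - 1 : ℕ) : ℝ) * Real.exp (C / N) :=
    mul_le_mul_of_nonneg_left hE1 (Nat.cast_nonneg _)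
  have h6 : ((2 * H - 1 : ℕ) : ℝ) * (Real.exp (C / N) - 1) ≤ 2 * H * (Real.exp (C / N) - 1) :=
    mul_le_mul_of_nonneg_right hcast hexp
  linarith

private lemma av_dot {n : ℕ} (i : Fin (n + 1)) (x : ℤ) (g : Fin n → ℤ)
    (w : Finset (Fin (n + 1))) :
    dot (i.insertNth (α := fun _ => ℤ) x g) w =
      (if i ∈ w then x else 0) + dot (i.insertNth (α := fun _ => ℤ) 0 g) w := by
  unfold dot
  have h : ∀ j, i.insertNth (α := fun _ => ℤ) x g j =
      (if j = i then x else 0) + i.insertNth (α := fun _ => ℤ) 0 g j := by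
    intro j
    rcases Fin.eq_self_or_eq_succAbove i j with rfl | ⟨k, rfl⟩
    · simp
    · simp [Fin.succAbove_ne]
  rw [sum_congr rfl fun j _ => h j, sum_add_distrib, sum_ite_eq']

private lemma av_split {n H : ℕ} (i : Fin (n + 1)) (F : (Fin (n + 1) → ℤ) → ℝ) :
    ∑ h ∈ box (n + 1) H, F h = ∑ g ∈ box n H, ∑ x ∈ Ioo (-(H : ℤ)) H,
      F (i.insertNth (α := fun _ => ℤ) x g) := by
  rw [← sum_product']
  refine sum_nbij' (fun h => (fun j => h (i.succAbove j), h i))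
    (fun u => i.insertNth (α := fun _ => ℤ) u.2 u.1) ?_ ?_ ?_ ?_ ?_
  · intro h hh
    unfold box at hh ⊢
    rw [Fintype.mem_piFinset] at hh
    rw [mem_product, Fintype.mem_piFinset]
    exact ⟨fun j => hh _, hh i⟩
  · intro u hu
    unfold box at hu ⊢
    rw [mem_product, Fintype.mem_piFinset] at hu
    rw [Fintype.mem_piFinset]
    intro j
    rcases Fin.eq_self_or_eq_succAbove i j with rfl | ⟨k, rfl⟩
    · rw [Fin.insertNth_apply_same]
      exact hu.2
    · rw [Fin.insertNth_apply_succAbove]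
      exact hu.1 k
  · intro h _
    exact Fin.insertNth_self_removeNth i h
  · intro u _
    simp
  · intro h _
    congr 1
    exact (Fin.insertNth_self_removeNth i h).symm

theorem avg_form (d : ℕ) (C : ℝ) (hC : 0 ≤ C) (N z H : ℕ) (hN : 1 ≤ N) (hH : 1 ≤ H)
    (w w' : Finset (Fin d)) (hw : w ≠ w') :
    ∑ h ∈ box d H, (∏ p ∈ DD N z (dot h w - dot h w'),
        (1 + C / (p : ℝ)) - 1) ≤
      (2 * H : ℝ) ^ d * (Real.exp (C / N) - 1) +
        (2 * H : ℝ) ^ (d - 1) * ∏ p ∈ PP N z, (1 + C / (p : ℝ)) := by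
  obtain ⟨i, hi⟩ : ∃ i, ¬(i ∈ w ↔ i ∈ w') := by
    by_contra h
    push Not at h
    exact hw (Finset.ext h)
  cases d with
  | zero => exact i.elim0
  | succ n =>
    obtain ⟨s, hs, hform⟩ : ∃ s : ℤ, (s = 1 ∨ s = -1) ∧ ∀ (x : ℤ) (g : Fin n → ℤ),
        dot (i.insertNth (α := fun _ => ℤ) x g) w - dot (i.insertNth (α := fun _ => ℤ) x g) w' =
          s * x + (dot (i.insertNth (α := fun _ => ℤ) 0 g) w -
            dot (i.insertNth (α := fun _ => ℤ) 0 g) w') := by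
      by_cases h1 : i ∈ w
      · have h2 : i ∉ w' := fun h => hi ⟨fun _ => h, fun _ => h1⟩
        refine ⟨1, Or.inl rfl, fun x g => ?_⟩
        rw [av_dot i x g w, av_dot i x g w', if_pos h1, if_neg h2]
        ring
      · have h2 : i ∈ w' := by
          by_contra h
          exact hi ⟨fun h' => absurd h' h1, fun h' => absurd h' h⟩
        refine ⟨-1, Or.inr rfl, fun x g => ?_⟩
        rw [av_dot i x g w, av_dot i x g w', if_neg h1, if_pos h2]
        ring
    rw [av_split i]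
    have hB0 : 0 ≤ 2 * (H : ℝ) * (Real.exp (C / N) - 1) +
        ∏ p ∈ PP N z, (1 + C / (p : ℝ)) := by
      have h3 : 0 ≤ C / (N : ℝ) := by positivity
      have h4 := Real.one_le_exp h3
      have h5 : 0 ≤ ∏ p ∈ PP N z, (1 + C / (p : ℝ)) := prod_nonneg fun p _ => by positivity
      have h6 : 0 ≤ 2 * (H : ℝ) * (Real.exp (C / N) - 1) :=
        mul_nonneg (by positivity) (by linarith)
      linarith
    have h1 : ∑ g ∈ box n H, ∑ x ∈ Ioo (-(H : ℤ)) H,
        (∏ p ∈ DD N z (dot (i.insertNth (α := fun _ => ℤ) x g) w -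
          dot (i.insertNth (α := fun _ => ℤ) x g) w'), (1 + C / (p : ℝ)) - 1) ≤
        ∑ _g ∈ box n H, (2 * (H : ℝ) * (Real.exp (C / N) - 1) +
          ∏ p ∈ PP N z, (1 + C / (p : ℝ))) := by
      refine sum_le_sum fun g _ => ?_
      refine le_trans (le_of_eq ?_) (av_one C hC N z H hN hH s
        (dot (i.insertNth (α := fun _ => ℤ) 0 g) w -
          dot (i.insertNth (α := fun _ => ℤ) 0 g) w') hs)
      refine sum_congr rfl fun x _ => ?_
      rw [hform x g]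
    refine h1.trans ?_
    rw [sum_const, nsmul_eq_mul]
    have hcard : ((box n H).card : ℝ) ≤ (2 * (H : ℝ)) ^ n := by
      unfold box
      rw [Fintype.card_piFinset, prod_const, card_univ, Fintype.card_fin, Int.card_Ioo,
        Nat.cast_pow]
      refine pow_le_pow_left₀ (Nat.cast_nonneg _) ?_ n
      have h2 : ((H : ℤ) - -(H : ℤ) - 1).toNat ≤ 2 * H := by omega
      exact_mod_cast h2
    refine (mul_le_mul_of_nonneg_right hcard hB0).trans (le_of_eq ?_)
    rw [Nat.add_sub_cancel]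
    ring

end Pool.Agent.Helper40.DB
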