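import Pool.Agent.Helper40.DB.Defs
import Pool.Agent.Helper40.DB.Fund

set_option autoImplicit false

/-!
# DB-2: correlations of `ν` for a fixed cube

PROOF. `C` is the constant of `fund (2 ^ d)`; `P = PP N z`, `t = 2 ^ d < q` for `q ∈ P`. With `m = a - 1 + x`, `x ∈ [1, L]`:
`∏_(w ∈ A) ν(m + w·h) = V^(-|A|)` if no `p ∈ P` divides one of the `1 + q (a - 1 + x + w·h)`, and `0` otherwise.
Let `Z p = {x < p | ∃ w ∈ A, p ∣ 1 + q (a - 1 + x + w·h)}`; the condition on `x` depends on `x % p` only, and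
`(Z p).card = rho h A p` since `x ↦ - q⁻¹ - (a - 1) - x` in `ZMod p` is a bijection (`q` is invertible mod `p`) which maps `Z p` to the
set of the classes of the `w·h`. `rho ≤ A.card ≤ 2 ^ d`. Multiply `fund` by `V^(-|A|) ≤ V^(-2^d)` (`0 < V ≤ 1`);
`V^(-|A|) ∏ (1 - rho/p) = SS N z h A`.
-/

namespace Pool.Agent.Helper40.DB

open Finset

/-- The forbidden residue classes. -/
noncomputable def forb {d : ℕ} (q : ℕ) (a : ℤ) (h : Fin d → ℤ) (A : Finset (Finset (Fin d)))
    (p : ℕ) : Finset ℕ :=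
  open Classical in ((A.image fun w => ((dot h w : ℤ) : ZMod p)).image
    fun c => (-(q : ZMod p)⁻¹ - ((a - 1 : ℤ) : ZMod p) - c).val)

lemma forb_sub {d : ℕ} (q : ℕ) (a : ℤ) (h : Fin d → ℤ) (A : Finset (Finset (Fin d)))
    {p : ℕ} (hp : p.Prime) : forb q a h A p ⊆ range p := by
  classical
  have : Fact p.Prime := ⟨hp⟩
  intro x hx
  unfold forb at hx
  rw [mem_image] at hx
  obtain ⟨c, -, rfl⟩ := hx
  exact mem_range.2 (ZMod.val_lt _)

lemma forb_card {d : ℕ} (q : ℕ) (a : ℤ) (h : Fin d → ℤ) (A : Finset (Finset (Fin d)))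
    {p : ℕ} (hp : p.Prime) : (forb q a h A p).card = rho h A p := by
  classical
  have : Fact p.Prime := ⟨hp⟩
  unfold forb rho
  rw [card_image_of_injective]
  intro c c' hcc
  have := ZMod.val_injective p hcc
  exact sub_right_injective this

lemma mem_forb {d : ℕ} {q : ℕ} (a : ℤ) (h : Fin d → ℤ) (A : Finset (Finset (Fin d)))
    {p : ℕ} (hp : p.Prime) (hpq : ¬ p ∣ q) (x : ℕ) : x % p ∈ forb q a h A p ↔
      ∃ w ∈ A, (p : ℤ) ∣ 1 + q * (a - 1 + x + dot h w) := by
  classical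
  have : Fact p.Prime := ⟨hp⟩
  have hq : (q : ZMod p) ≠ 0 := by
    rwa [Ne, ZMod.natCast_eq_zero_iff]
  unfold forb
  rw [mem_image]
  constructor
  · rintro ⟨c, hc, hx⟩
    rw [mem_image] at hc
    obtain ⟨w, hw, rfl⟩ := hc
    refine ⟨w, hw, ?_⟩
    rw [← ZMod.val_natCast] at hx
    have h1 := ZMod.val_injective p hx
    rw [← ZMod.intCast_zmod_eq_zero_iff_dvd]
    push_cast at h1 ⊢
    rw [← h1]
    field_simp
    ring
  · rintro ⟨w, hw, hd⟩
    refine ⟨_, mem_image.2 ⟨w, hw, rfl⟩, ?_⟩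
    rw [← ZMod.val_natCast]
    congr 1
    rw [← ZMod.intCast_zmod_eq_zero_iff_dvd] at hd
    push_cast at hd ⊢
    have h2 : (q : ZMod p) * ((a : ZMod p) - 1 + x + ((dot h w : ℤ) : ZMod p)) = -1 := by
      linear_combination hd
    have h3 : (a : ZMod p) - 1 + x + ((dot h w : ℤ) : ZMod p) = -(q : ZMod p)⁻¹ := by
      field_simp
      linear_combination h2
    linear_combination -h3

lemma rho_le {d : ℕ} (h : Fin d → ℤ) (A : Finset (Finset (Fin d))) (p : ℕ) :
    rho h A p ≤ 2 ^ d := by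
  classical
  unfold rho
  refine card_image_le.trans ?_
  refine (card_le_univ A).trans ?_
  rw [Fintype.card_finset, Fintype.card_fin]

lemma VV_pos (N z : ℕ) : 0 < VV N z := by
  unfold VV
  apply prod_pos
  intro p hp
  have h1 : p.Prime := (mem_filter.1 hp).2
  have h2 : (2 : ℝ) ≤ p := by exact_mod_cast h1.two_le
  have h3 : 1 / (p : ℝ) ≤ 1 / 2 := one_div_le_one_div_of_le (by norm_num) h2
  linarith

lemma VV_le_one (N z : ℕ) : VV N z ≤ 1 := by
  unfold VV
  apply prod_le_one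
  · intro p hp
    have h1 : p.Prime := (mem_filter.1 hp).2
    have h2 : (2 : ℝ) ≤ p := by exact_mod_cast h1.two_le
    have h3 : 1 / (p : ℝ) ≤ 1 / 2 := one_div_le_one_div_of_le (by norm_num) h2
    linarith
  · intro p _
    have : 0 ≤ 1 / (p : ℝ) := by positivity
    linarith

theorem corr (d : ℕ) : ∃ C : ℝ, 0 ≤ C ∧ ∀ (N z q : ℕ), 2 ^ d ≤ N → (∀ p ∈ PP N z, ¬ p ∣ q) →
    ∀ E : ℕ, Nat.log 2 z ≤ E → ∀ (h : Fin d → ℤ) (A : Finset (Finset (Fin d))) (b : ℕ), 1 ≤ b →
    ∀ (a : ℤ) (L : ℕ),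
    |∑ m ∈ Ico a (a + L), ∏ w ∈ A, nu q N z (m + dot h w) - L * SS N z h A| ≤
      C * (1 / 4) ^ b * (L * SS N z h A) +
        (VV N z)⁻¹ ^ (2 ^ d) * ((2 * E + 3) * 2 ^ (20 * E * (b + 2))) := by
  classical
  obtain ⟨C, hC0, hC⟩ := fund (2 ^ d)
  refine ⟨C, hC0, ?_⟩
  intro N z q hN hq E hE h A b hb a L
  have hP : ∀ p ∈ PP N z, p.Prime ∧ 2 ^ d < p := by
    intro p hp
    unfold PP at hp
    rw [mem_filter, mem_Ioc] at hp
    exact ⟨hp.2, lt_of_le_of_lt hN hp.1.1⟩
  have hlog : ∀ p ∈ PP N z, Nat.log 2 p ≤ E := by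
    intro p hp
    unfold PP at hp
    rw [mem_filter, mem_Ioc] at hp
    exact (Nat.log_mono_right hp.1.2).trans hE
  have hZ : ∀ p ∈ PP N z, forb q a h A p ⊆ range p ∧ (forb q a h A p).card ≤ 2 ^ d := by
    intro p hp
    refine ⟨forb_sub q a h A (hP p hp).1, ?_⟩
    rw [forb_card q a h A (hP p hp).1]
    exact rho_le h A p
  have hf := hC (PP N z) hP E hlog (forb q a h A) hZ b hb L
  set S : Finset ℕ := (Icc 1 L).filter (fun m => ∀ p ∈ PP N z, m % p ∉ forb q a h A p) with hS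
  have hprod : ∏ p ∈ PP N z, (1 - ((forb q a h A p).card : ℝ) / p) =
      ∏ p ∈ PP N z, (1 - (rho h A p : ℝ) / p) := by
    apply prod_congr rfl
    intro p hp
    rw [forb_card q a h A (hP p hp).1]
  rw [hprod] at hf
  -- the sum
  have hsum : ∑ m ∈ Ico a (a + L), ∏ w ∈ A, nu q N z (m + dot h w) =
      (VV N z)⁻¹ ^ A.card * S.card := by
    have h1 : ∑ m ∈ Ico a (a + L), ∏ w ∈ A, nu q N z (m + dot h w) =
        ∑ x ∈ Icc 1 L, ∏ w ∈ A, nu q N z (a - 1 + (x : ℤ) + dot h w) := by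
      refine sum_nbij' (fun m => (m - a + 1).toNat) (fun x => a - 1 + (x : ℤ)) ?_ ?_ ?_ ?_ ?_
      · intro m hm
        rw [mem_Ico] at hm
        rw [mem_Icc]
        omega
      · intro x hx
        rw [mem_Icc] at hx
        rw [mem_Ico]
        omega
      · intro m hm
        rw [mem_Ico] at hm
        omega
      · intro x hx
        rw [mem_Icc] at hx
        omega
      · intro m hm
        rw [mem_Ico] at hm
        apply prod_congr rfl
        intro w _
        congr 1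
        omega
    rw [h1]
    have h2 : ∀ x ∈ Icc 1 L, ∏ w ∈ A, nu q N z (a - 1 + (x : ℤ) + dot h w) =
        if ∀ p ∈ PP N z, x % p ∉ forb q a h A p then (VV N z)⁻¹ ^ A.card else 0 := by
      intro x _
      split_ifs with hx
      · rw [← prod_const]
        apply prod_congr rfl
        intro w hw
        unfold nu
        rw [if_pos]
        intro p hp hd
        exact hx p hp ((mem_forb a h A (hP p hp).1 (hq p hp) x).2 ⟨w, hw, hd⟩)
      · push Not at hx
        obtain ⟨p, hp, hx⟩ := hx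
        obtain ⟨w, hw, hd⟩ := (mem_forb a h A (hP p hp).1 (hq p hp) x).1 hx
        apply prod_eq_zero hw
        unfold nu
        rw [if_neg]
        intro hall
        exact hall p hp hd
    rw [sum_congr rfl h2, ← sum_filter, sum_const, nsmul_eq_mul, mul_comm]
  have hSS : SS N z h A = (VV N z)⁻¹ ^ A.card * ∏ p ∈ PP N z, (1 - (rho h A p : ℝ) / p) := by
    unfold SS VV
    rw [prod_div_distrib, prod_pow, inv_pow, div_eq_mul_inv, mul_comm]
  have hV := VV_pos N z
  have hV1 : 1 ≤ (VV N z)⁻¹ := (one_le_inv₀ hV).2 (VV_le_one N z)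
  have hA : A.card ≤ 2 ^ d := by
    refine (card_le_univ A).trans ?_
    rw [Fintype.card_finset, Fintype.card_fin]
  rw [hsum, hSS]
  set W : ℝ := (VV N z)⁻¹ ^ A.card with hW
  have hW0 : 0 < W := by positivity
  have hWle : W ≤ (VV N z)⁻¹ ^ (2 ^ d) := pow_le_pow_right₀ hV1 hA
  set R : ℝ := ∏ p ∈ PP N z, (1 - (rho h A p : ℝ) / p) with hR
  have e1 : W * (S.card : ℝ) - L * (W * R) = W * ((S.card : ℝ) - L * R) := by ring
  rw [e1, abs_mul, abs_of_pos hW0]
  calc W * |(S.card : ℝ) - L * R|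
      ≤ W * (C * (1 / 4) ^ b * (L * R) + (2 * E + 3) * 2 ^ (20 * E * (b + 2))) :=
        mul_le_mul_of_nonneg_left hf hW0.le
    _ = C * (1 / 4) ^ b * (L * (W * R)) + W * ((2 * E + 3) * 2 ^ (20 * E * (b + 2))) := by ring
    _ ≤ _ := by
        gcongr

end Pool.Agent.Helper40.DB
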