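import Pool.Agent.Helper40.DB.Defs

set_option autoImplicit false

/-!
# DB-3: the singular series

PROOF. Let `t = A.card ≤ 2 ^ d`. `p > N ≥ 2 ^ (d + 1)` (so `1 - t/p ≥ 1/2 > 0`). Always `rho ≤ t`.
Lower bound: `(1 - rho/p)/(1 - 1/p)^t ≥ (1 - t/p) / (1 - 1/p)^t ≥ 1 - C₁/p^2` (from `(1 - 1/p)^t ≤ 1 - t/p + t^2/p^2`), so
`SS ≥ ∏ (1 - C₁/p^2) ≥ 1 - C₁ ∑_(p > N) 1/p^2 ≥ 1 - C₁/N` (for `C₁ / N^2 ≤ 1`, otherwise trivial as `SS ≥ 0`).
Upper bound: if `p` divides no difference `dot h w - dot h w'` (`w ≠ w'` in `A`) then `rho = t` and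
`(1 - t/p) ≤ (1 - 1/p)^t` (Bernoulli, `one_add_mul_le_pow`): the factor is `≤ 1`. Otherwise `rho ≥ 1` (`A ≠ ∅`), so the factor is
`≤ (1 - 1/p)/(1 - 1/p)^t ≤ (1 - 1/p)^(-t) ≤ 1 + C₀/p` (`(1-1/p)^(-1) ≤ 1 + 2/p ≤ 3`, and `(1 + y)^t ≤ 1 + 3^t y` for `0 ≤ y ≤ 1`...).
So `SS ≤ ∏_(w ≠ w') X_(w,w')`, `X_(w,w') = ∏_(p ∈ PP, p ∣ dot h w - dot h w') (1 + C₀/p) ≥ 1` (product over all pairs of different subsets; every
bad `p` occurs in at least one factor). With `n` pairs: `∏ X ≤ (1/n) ∑ X^n` (`Real.inner_le_nnorm_mul_nnorm`/`Finset.prod_le_...`: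
use `Real.geom_mean_le_arith_mean` or: `∏ X ≤ (max X)^n ≤ 1 + ∑ (X^n - 1)`), and `X^n - 1 ≤ ∏ (1 + C/p) - 1`, as
`(1 + C₀/p)^n ≤ 1 + ((1 + C₀)^n - 1)/p` (convexity: `(1 + C₀ x)^n ≤ 1 + x ((1 + C₀)^n - 1)` for `0 ≤ x ≤ 1`, induction on `n`).
-/

namespace Pool.Agent.Helper40.DB

open Finset

/-- `∏ (1 - a) ≥ 1 - ∑ a`. -/
private theorem prod_one_sub_ge {ι : Type*} (s : Finset ι) (a : ι → ℝ) (h0 : ∀ i ∈ s, 0 ≤ a i)
    (h1 : ∀ i ∈ s, a i ≤ 1) : 1 - ∑ i ∈ s, a i ≤ ∏ i ∈ s, (1 - a i) := by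
  classical
  induction s using Finset.induction_on with
  | empty => simp
  | insert i s hi ih =>
    rw [Finset.sum_insert hi, Finset.prod_insert hi]
    have ih' := ih (fun j hj => h0 j (Finset.mem_insert_of_mem hj))
      (fun j hj => h1 j (Finset.mem_insert_of_mem hj))
    have hP1 : ∏ j ∈ s, (1 - a j) ≤ 1 := by
      apply Finset.prod_le_one
      · intro j hj
        have := h1 j (Finset.mem_insert_of_mem hj)
        linarith
      · intro j hj
        have := h0 j (Finset.mem_insert_of_mem hj)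
        linarith
    have ha0 := h0 i (Finset.mem_insert_self i s)
    have : a i * ∏ j ∈ s, (1 - a j) ≤ a i * 1 := mul_le_mul_of_nonneg_left hP1 ha0
    nlinarith

/-- `(1 - x)^t ≤ 1 - t x + t^2 x^2`. -/
private theorem pow_one_sub_le (t : ℕ) (x : ℝ) (h0 : 0 ≤ x) (h1 : x ≤ 1) :
    (1 - x) ^ t ≤ 1 - t * x + (t : ℝ) ^ 2 * x ^ 2 := by
  induction t with
  | zero => simp
  | succ t ih =>
    rw [pow_succ]
    have h2 : (1 - x) ^ t * (1 - x) ≤ (1 - t * x + (t : ℝ) ^ 2 * x ^ 2) * (1 - x) :=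
      mul_le_mul_of_nonneg_right ih (by linarith)
    refine h2.trans ?_
    push_cast
    have ht : (0 : ℝ) ≤ t := Nat.cast_nonneg t
    have hx2 : 0 ≤ x ^ 2 := sq_nonneg x
    have hx3 : 0 ≤ (t : ℝ) ^ 2 * x ^ 3 := by positivity
    nlinarith [mul_nonneg ht hx2]

/-- `(1 + c x)^n ≤ 1 + x ((1 + c)^n - 1)`. -/
private theorem pow_one_add_le (n : ℕ) (c x : ℝ) (hc : 0 ≤ c) (h0 : 0 ≤ x) (h1 : x ≤ 1) :
    (1 + c * x) ^ n ≤ 1 + x * ((1 + c) ^ n - 1) := by
  induction n with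
  | zero => simp
  | succ n ih =>
    rw [pow_succ]
    have h2 : (1 + c * x) ^ n * (1 + c * x) ≤ (1 + x * ((1 + c) ^ n - 1)) * (1 + c * x) :=
      mul_le_mul_of_nonneg_right ih (by positivity)
    refine h2.trans ?_
    have hP : 1 ≤ (1 + c) ^ n := one_le_pow₀ (by linarith)
    rw [pow_succ]
    have h3 : 0 ≤ c * x * (1 - x) * ((1 + c) ^ n - 1) := by
      apply mul_nonneg
      · apply mul_nonneg (mul_nonneg hc h0); linarith
      · linarith
    nlinarith

/-- `∑_(N < p ≤ z) 1/p^2 ≤ 1/N`. -/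
private theorem sum_inv_sq_le (N z : ℕ) (hN : 1 ≤ N) :
    ∑ p ∈ Finset.Ioc N z, (1 / (p : ℝ) ^ 2) ≤ 1 / (N : ℝ) := by
  have key : ∀ m : ℕ, N ≤ m → ∑ p ∈ Finset.Ioc N m, (1 / (p : ℝ) ^ 2) ≤ 1 / (N : ℝ) - 1 / (m : ℝ) := by
    intro m hm
    induction m, hm using Nat.le_induction with
    | base => simp
    | succ m hm ih =>
      rw [Finset.sum_Ioc_succ_top (by omega)]
      have hm0 : (0 : ℝ) < m := by exact_mod_cast (by omega : 0 < m)
      have : 1 / ((m + 1 : ℕ) : ℝ) ^ 2 ≤ 1 / m - 1 / ((m + 1 : ℕ) : ℝ) := by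
        push_cast
        rw [div_sub_div _ _ hm0.ne' (by positivity), div_le_div_iff₀ (by positivity) (by positivity)]
        nlinarith
      linarith
  rcases le_or_gt N z with h | h
  · refine (key z h).trans ?_
    have : (0 : ℝ) ≤ 1 / (z : ℝ) := by positivity
    linarith
  · rw [Finset.Ioc_eq_empty (by omega)]
    simp

private theorem rho_le {d : ℕ} (h : Fin d → ℤ) (A : Finset (Finset (Fin d))) (p : ℕ) :
    rho h A p ≤ A.card := by
  classical
  unfold rho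
  convert Finset.card_image_le (s := A) (f := fun w => ((dot h w : ℤ) : ZMod p))

private theorem rho_eq {d : ℕ} (h : Fin d → ℤ) (A : Finset (Finset (Fin d))) (p : ℕ)
    (hp : ∀ w w' : Finset (Fin d), w ≠ w' → ¬ ((p : ℕ) : ℤ) ∣ dot h w - dot h w') :
    rho h A p = A.card := by
  classical
  unfold rho
  apply Finset.card_image_of_injOn
  intro w _ w' _ hw
  by_contra hne
  apply hp w w' hne
  have h1 : ((dot h w : ℤ) : ZMod p) = ((dot h w' : ℤ) : ZMod p) := hw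
  rw [← ZMod.intCast_zmod_eq_zero_iff_dvd]
  push_cast
  rw [h1, sub_self]

theorem SS_sub_one (d : ℕ) : ∃ C : ℝ, 0 ≤ C ∧ ∀ (N z : ℕ), 2 ^ (d + 1) ≤ N →
    ∀ (h : Fin d → ℤ) (A : Finset (Finset (Fin d))),
    0 ≤ SS N z h A ∧
    |SS N z h A - 1| ≤ C / N + ∑ u ∈ (univ : Finset (Finset (Fin d) × Finset (Fin d))).filter
      (fun u => u.1 ≠ u.2), (∏ p ∈ DD N z (dot h u.1 - dot h u.2),
        (1 + C / (p : ℝ)) - 1) := by
  classical
  set U : Finset (Finset (Fin d) × Finset (Fin d)) := univ.filter (fun u => u.1 ≠ u.2) with hU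
  set T : ℝ := 2 ^ d with hT
  have hT0 : 0 < T := by rw [hT]; positivity
  set C0 : ℝ := 2 * T with hC0
  have hC00 : 0 ≤ C0 := by rw [hC0]; positivity
  set C1 : ℝ := (1 + C0) ^ U.card - 1 with hC1
  have hC10 : 0 ≤ C1 := by
    rw [hC1]
    have : (1 : ℝ) ≤ (1 + C0) ^ U.card := one_le_pow₀ (by linarith)
    linarith
  refine ⟨2 * T ^ 2 + C1, by positivity, ?_⟩
  intro N z hN h A
  have hN1 : 1 ≤ N := le_trans (Nat.one_le_two_pow) hN
  have hN0 : (0 : ℝ) < N := by exact_mod_cast hN1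
  have hNT : 2 * T ≤ N := by
    have : ((2 ^ (d + 1) : ℕ) : ℝ) ≤ N := by exact_mod_cast hN
    push_cast at this
    rw [hT]; rw [pow_succ] at this; linarith
  have ht : (A.card : ℝ) ≤ T := by
    have h1 : A.card ≤ 2 ^ d := by
      calc A.card ≤ (univ : Finset (Finset (Fin d))).card := Finset.card_le_univ A
        _ = 2 ^ d := by simp
    rw [hT]
    exact_mod_cast h1
  set t : ℕ := A.card with htdef
  have hPP : ∀ p ∈ PP N z, N < p ∧ p ≤ z ∧ p.Prime := by
    intro p hp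
    unfold PP at hp
    rw [Finset.mem_filter, Finset.mem_Ioc] at hp
    exact ⟨hp.1.1, hp.1.2, hp.2⟩
  -- basic inequalities for one prime
  have hx : ∀ p ∈ PP N z, 0 < (p : ℝ) ∧ (t : ℝ) * (1 / p) ≤ 1 / 2 ∧ 1 / (p : ℝ) ≤ 1 / 2 ∧
      1 / 2 ≤ (1 - 1 / (p : ℝ)) ^ t := by
    intro p hp
    obtain ⟨h1, -, -⟩ := hPP p hp
    have hp1 : (N : ℝ) < p := by exact_mod_cast h1
    have hp0 : (0 : ℝ) < p := by linarith
    have hT1 : 1 ≤ T := by rw [hT]; exact one_le_pow₀ (by norm_num)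
    have h2 : 2 * T ≤ p := by linarith
    have h3 : (t : ℝ) * (1 / p) ≤ 1 / 2 := by
      rw [mul_one_div, div_le_iff₀ hp0]; linarith
    have h4 : 1 / (p : ℝ) ≤ 1 / 2 := by
      rw [div_le_div_iff₀ hp0 (by norm_num)]; linarith
    refine ⟨hp0, h3, h4, ?_⟩
    have h5 := one_add_mul_le_pow (a := -(1 / (p : ℝ))) (by linarith) t
    have h6 : (1 + -(1 / (p : ℝ))) ^ t = (1 - 1 / (p : ℝ)) ^ t := by ring
    rw [h6] at h5
    linarith
  set F : ℕ → ℝ := fun p => (1 - (rho h A p : ℝ) / p) / (1 - 1 / (p : ℝ)) ^ t with hF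
  have hSS : SS N z h A = ∏ p ∈ PP N z, F p := rfl
  have hFlow : ∀ p ∈ PP N z, 1 - 2 * T ^ 2 * (1 / (p : ℝ) ^ 2) ≤ F p := by
    intro p hp
    obtain ⟨hp0, h3, h4, h5⟩ := hx p hp
    have hpos : 0 < (1 - 1 / (p : ℝ)) ^ t := by linarith
    have h6 := pow_one_sub_le t (1 / (p : ℝ)) (by positivity) (by linarith)
    have h7 : (rho h A p : ℝ) ≤ t := by exact_mod_cast rho_le h A p
    have h8 : (rho h A p : ℝ) / p ≤ t * (1 / p) := by
      rw [mul_one_div]; gcongr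
    simp only [hF]
    rw [le_div_iff₀ hpos]
    have h9 : (t : ℝ) ^ 2 * (1 / (p : ℝ)) ^ 2 ≤ T ^ 2 * (1 / (p : ℝ)) ^ 2 := by gcongr
    have h10 : (1 / (p : ℝ)) ^ 2 = 1 / (p : ℝ) ^ 2 := by rw [div_pow, one_pow]
    rw [h10] at h6 h9
    have h11 : 0 ≤ T ^ 2 * (1 / (p : ℝ) ^ 2) := by positivity
    nlinarith [mul_le_mul_of_nonneg_left h5 h11]
  have hle1 : ∀ p ∈ PP N z, 2 * T ^ 2 * (1 / (p : ℝ) ^ 2) ≤ 1 := by
    intro p hp
    obtain ⟨h1, -, -⟩ := hPP p hp
    have hp1 : (N : ℝ) < p := by exact_mod_cast h1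
    have hp0 : (0 : ℝ) < p := by linarith
    rw [mul_one_div, div_le_one (by positivity)]
    nlinarith
  have hF0 : ∀ p ∈ PP N z, 0 ≤ F p := fun p hp => by
    have h1 := hFlow p hp
    have h2 := hle1 p hp
    linarith
  have hFbad : ∀ p ∈ PP N z, F p ≤ 1 + C0 * (1 / p) := by
    intro p hp
    obtain ⟨hp0, h3, h4, h5⟩ := hx p hp
    have hpos : 0 < (1 - 1 / (p : ℝ)) ^ t := by linarith
    simp only [hF]
    rw [div_le_iff₀ hpos]
    have h6 := one_add_mul_le_pow (a := -(1 / (p : ℝ))) (by linarith) t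
    have h7 : (1 + -(1 / (p : ℝ))) ^ t = (1 - 1 / (p : ℝ)) ^ t := by ring
    rw [h7] at h6
    have h8 : 0 ≤ (rho h A p : ℝ) / p := by positivity
    have h9 : (t : ℝ) * (1 / p) ≤ T * (1 / p) := by gcongr
    have h10 : 0 ≤ T * (1 / (p : ℝ)) := by positivity
    have h11 : 0 ≤ C0 * (1 / (p : ℝ)) := by positivity
    have h12 := mul_le_mul_of_nonneg_left h5 h11
    rw [hC0] at h12 ⊢
    nlinarith
  have hFgood : ∀ p ∈ PP N z, (∀ u ∈ U, p ∉ DD N z (dot h u.1 - dot h u.2)) → F p ≤ 1 := by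
    intro p hp hgood
    obtain ⟨hp0, h3, h4, h5⟩ := hx p hp
    have hpos : 0 < (1 - 1 / (p : ℝ)) ^ t := by linarith
    have hr : rho h A p = t := by
      apply rho_eq
      intro w w' hne hdvd
      apply hgood (w, w') (by rw [hU, Finset.mem_filter]; exact ⟨Finset.mem_univ _, hne⟩)
      unfold DD
      rw [Finset.mem_filter]
      exact ⟨hp, hdvd⟩
    simp only [hF]
    rw [div_le_one hpos, hr]
    have h6 := one_add_mul_le_pow (a := -(1 / (p : ℝ))) (by linarith) t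
    have h7 : (1 + -(1 / (p : ℝ))) ^ t = (1 - 1 / (p : ℝ)) ^ t := by ring
    rw [h7] at h6
    rw [mul_neg, mul_one_div] at h6
    linarith
  have hSS0 : 0 ≤ SS N z h A := by
    rw [hSS]; exact Finset.prod_nonneg hF0
  refine ⟨hSS0, ?_⟩
  have hlow : 1 - SS N z h A ≤ 2 * T ^ 2 / N := by
    have h1 := prod_one_sub_ge (PP N z) (fun p => 2 * T ^ 2 * (1 / (p : ℝ) ^ 2))
      (fun p _ => by positivity) hle1
    have h2 : ∏ p ∈ PP N z, (1 - 2 * T ^ 2 * (1 / (p : ℝ) ^ 2)) ≤ ∏ p ∈ PP N z, F p := by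
      apply Finset.prod_le_prod
      · intro p hp
        have := hle1 p hp
        linarith
      · exact hFlow
    have h3 : ∑ p ∈ PP N z, 2 * T ^ 2 * (1 / (p : ℝ) ^ 2) ≤ 2 * T ^ 2 * (1 / N) := by
      rw [← Finset.mul_sum]
      apply mul_le_mul_of_nonneg_left _ (by positivity)
      refine le_trans ?_ (sum_inv_sq_le N z hN1)
      apply Finset.sum_le_sum_of_subset_of_nonneg
      · exact Finset.filter_subset _ _
      · intro _ _ _; positivity
    rw [hSS]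
    rw [mul_one_div] at h3
    linarith
  -- upper bound
  set X : Finset (Fin d) × Finset (Fin d) → ℝ := fun u =>
    ∏ p ∈ DD N z (dot h u.1 - dot h u.2), (1 + C0 * (1 / (p : ℝ))) with hX
  have hX1 : ∀ u, 1 ≤ X u := by
    intro u
    simp only [hX]
    have : ∏ p ∈ DD N z (dot h u.1 - dot h u.2), (1 : ℝ) ≤
        ∏ p ∈ DD N z (dot h u.1 - dot h u.2), (1 + C0 * (1 / (p : ℝ))) := by
      apply Finset.prod_le_prod
      · intro _ _; norm_num
      · intro p _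
        have : 0 ≤ C0 * (1 / (p : ℝ)) := by positivity
        linarith
    simpa using this
  have hup : SS N z h A ≤ ∏ u ∈ U, X u := by
    rw [hSS]
    -- for every prime, `F p ≤ ∏_u (if p ∈ DD then 1 + C0/p else 1)`
    have h1 : ∀ p ∈ PP N z, F p ≤ ∏ u ∈ U, (if p ∈ DD N z (dot h u.1 - dot h u.2) then
        (1 + C0 * (1 / (p : ℝ))) else 1) := by
      intro p hp
      have hge : ∀ u ∈ U, (1 : ℝ) ≤ (if p ∈ DD N z (dot h u.1 - dot h u.2) then
        (1 + C0 * (1 / (p : ℝ))) else 1) := by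
        intro u _
        split_ifs
        · have : 0 ≤ C0 * (1 / (p : ℝ)) := by positivity
          linarith
        · exact le_refl 1
      by_cases hb : ∀ u ∈ U, p ∉ DD N z (dot h u.1 - dot h u.2)
      · refine (hFgood p hp hb).trans ?_
        have : ∏ u ∈ U, (1 : ℝ) ≤ ∏ u ∈ U, (if p ∈ DD N z (dot h u.1 - dot h u.2) then
          (1 + C0 * (1 / (p : ℝ))) else 1) :=
          Finset.prod_le_prod (fun _ _ => by norm_num) hge
        simpa using this
      · push Not at hb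
        obtain ⟨u, hu, hpu⟩ := hb
        refine (hFbad p hp).trans ?_
        rw [← Finset.mul_prod_erase U _ hu, if_pos hpu]
        have h2 : 0 ≤ C0 * (1 / (p : ℝ)) := by positivity
        have h3 : (1 : ℝ) ≤ ∏ v ∈ U.erase u, (if p ∈ DD N z (dot h v.1 - dot h v.2) then
          (1 + C0 * (1 / (p : ℝ))) else 1) := by
          have : ∏ v ∈ U.erase u, (1 : ℝ) ≤
              ∏ v ∈ U.erase u, (if p ∈ DD N z (dot h v.1 - dot h v.2) then
                (1 + C0 * (1 / (p : ℝ))) else 1) :=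
            Finset.prod_le_prod (fun _ _ => by norm_num)
              (fun v hv => hge v (Finset.mem_of_mem_erase hv))
          simpa using this
        nlinarith
    refine (Finset.prod_le_prod hF0 h1).trans ?_
    rw [Finset.prod_comm]
    apply le_of_eq
    apply Finset.prod_congr rfl
    intro u _
    simp only [hX]
    rw [← Finset.prod_filter]
    congr 1
    ext p
    simp only [Finset.mem_filter]
    constructor
    · intro hh; exact hh.2
    · intro hh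
      refine ⟨?_, hh⟩
      unfold DD at hh
      exact (Finset.mem_filter.mp hh).1
  have hup2 : ∏ u ∈ U, X u ≤ 1 + ∑ u ∈ U, (X u ^ U.card - 1) := by
    have hterm : ∀ u ∈ U, 0 ≤ X u ^ U.card - 1 := fun u _ => by
      have := one_le_pow₀ (hX1 u) (n := U.card)
      linarith
    rcases U.eq_empty_or_nonempty with hE | hne
    · rw [hE]; simp
    · obtain ⟨u0, hu0, hmax⟩ := Finset.exists_max_image U X hne
      have h1 : ∏ u ∈ U, X u ≤ X u0 ^ U.card := by
        rw [← Finset.prod_const]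
        exact Finset.prod_le_prod (fun u _ => by linarith [hX1 u]) hmax
      have h2 : X u0 ^ U.card - 1 ≤ ∑ u ∈ U, (X u ^ U.card - 1) :=
        Finset.single_le_sum hterm hu0
      linarith
  have hup3 : ∀ u ∈ U, X u ^ U.card ≤ ∏ p ∈ DD N z (dot h u.1 - dot h u.2),
        (1 + (2 * T ^ 2 + C1) / (p : ℝ)) := by
    intro u _
    simp only [hX]
    rw [← Finset.prod_pow]
    apply Finset.prod_le_prod
    · intro p _
      positivity
    · intro p hp
      have hpP : p ∈ PP N z := by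
        unfold DD at hp; exact (Finset.mem_filter.mp hp).1
      obtain ⟨hp0, -, h4, -⟩ := hx p hpP
      have h5 := pow_one_add_le U.card C0 (1 / (p : ℝ)) hC00 (by positivity) (by linarith)
      refine h5.trans ?_
      have h6 : (1 / (p : ℝ)) * ((1 + C0) ^ U.card - 1) = C1 / p := by
        rw [hC1]; ring
      rw [h6]
      have h7 : C1 / (p : ℝ) ≤ (2 * T ^ 2 + C1) / p := by
        gcongr
        have : 0 ≤ 2 * T ^ 2 := by positivity
        linarith
      linarith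
  have hsum : ∑ u ∈ U, (X u ^ U.card - 1) ≤ ∑ u ∈ U,
      (∏ p ∈ DD N z (dot h u.1 - dot h u.2), (1 + (2 * T ^ 2 + C1) / (p : ℝ)) - 1) := by
    apply Finset.sum_le_sum
    intro u hu
    have := hup3 u hu
    linarith
  have hsum0 : 0 ≤ ∑ u ∈ U, (X u ^ U.card - 1) := by
    apply Finset.sum_nonneg
    intro u _
    have := one_le_pow₀ (hX1 u) (n := U.card)
    linarith
  have hCN : 2 * T ^ 2 / N ≤ (2 * T ^ 2 + C1) / (N : ℝ) := by
    gcongr
    linarith
  have hCN0 : 0 ≤ (2 * T ^ 2 + C1) / (N : ℝ) := by positivity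
  rw [abs_le]
  constructor
  · linarith
  · linarith

end Pool.Agent.Helper40.DB
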