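import Pool.Agent.Helper40.DB.Corr
import Pool.Agent.Helper40.DB.Sing
import Pool.Agent.Helper40.DB.Avg
import Pool.Agent.Helper40.DB.Mert

set_option autoImplicit false

/-!
# DB-6: the `U^d` type average of `ν - 1` is small, with any power of the sieve parameter `s`

PROOF. For fixed `h` the set of the `m` with `m + w·h ∈ [a, a + H)` for all `w` is an interval `[a', a' + L)`, `L ≤ H` (`w = ∅`). Expand
`∏_w (ν(m + w·h) - 1) = ∑_A (-1)^(2^d - |A|) ∏_(w ∈ A) ν(m + w·h)` (`Finset.prod_sub`/`prod_add`), and `∑_A (-1)^|A| = 0`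
(`Finset.sum_powerset_neg_one_pow_card_of_nonempty`), so the inner sum is at most
`∑_A |∑_m ∏_(w ∈ A) ν - L| ≤ ∑_A (L |SS - 1| + C 4^(-b) L SS + err)` by `corr`, `SS ≤ 1 + |SS - 1|`. Sum over `h`: `SS_sub_one`, `avg_form`.
Result: `≤ 2^(2^d) ((1 + C) H ((2H)^d C'/N + 4^d ((2H)^d (exp(C'/N) - 1) + (2H)^(d-1) (log)^(4C'))) + C 4^(-b) H (2H)^d + (2H)^d err)`,
`err = V^(-2^d) (2E + 3) 2^(20 E (b + 2))`, `E = Nat.log 2 z`. Choose `b` with `(40 (b + 2))^(2^d) 2^(2^d) C 4^(-b) 2^d ≤ ε/4`,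
`s = 40 (b + 2)`: as `z ^ s ≤ H`, `2^(20 E (b + 2)) ≤ 2^(E s / 2) ≤ √H`, `E ≤ Nat.log 2 H`. Then `N₀`, then `H₀`.
(For `z = 0` and `z = 1`: `PP N z = ∅`, `ν = 1`, and the sum is `0`.)
-/

namespace Pool.Agent.Helper40.DB

open Finset

/-- The points of the cube are in the interval: an interval of `m`. -/
private theorem cube_interval {d : ℕ} (h : Fin d → ℤ) (a : ℤ) (H : ℕ) :
    ∃ (a' : ℤ) (L : ℕ), L ≤ H ∧ (Ico a (a + H)).filter
      (fun m => ∀ w : Finset (Fin d), m + dot h w ∈ Ico a (a + H)) = Ico a' (a' + L) := by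
  classical
  have key : ∀ S : Finset (Finset (Fin d)), ∃ (a' : ℤ) (L : ℕ), L ≤ H ∧
      (Ico a (a + H)).filter (fun m => ∀ w ∈ S, m + dot h w ∈ Ico a (a + H)) =
        Ico a' (a' + L) := by
    intro S
    induction S using Finset.induction_on with
    | empty => exact ⟨a, H, le_refl _, by simp⟩
    | insert w S _ ih =>
      obtain ⟨a', L, hL, hS⟩ := ih
      refine ⟨max a' (a - dot h w),
        (min (a' + L) (a + H - dot h w) - max a' (a - dot h w)).toNat, ?_, ?_⟩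
      · omega
      · ext m
        have h1 := congrArg (fun s => m ∈ s) hS
        simp only [Finset.mem_filter, Finset.mem_Ico, eq_iff_iff] at h1
        simp only [Finset.mem_filter, Finset.mem_Ico, Finset.mem_insert, forall_eq_or_imp]
        constructor
        · rintro ⟨h2, h3, h4⟩
          have h5 := h1.1 ⟨h2, h4⟩
          omega
        · intro h2
          have h5 : a' ≤ m ∧ m < a' + L := by omega
          have h6 := h1.2 h5
          refine ⟨h6.1, by omega, h6.2⟩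
  obtain ⟨a', L, hL, hS⟩ := key univ
  refine ⟨a', L, hL, ?_⟩
  rw [← hS]
  congr 1
  ext m
  simp

/-- Expansion of the product over the cube. -/
private theorem cube_expand {d : ℕ} (h : Fin d → ℤ) (q N z : ℕ) (a : ℤ) (L : ℕ) :
    |∑ m ∈ Ico a (a + L), ∏ w : Finset (Fin d), (nu q N z (m + dot h w) - 1)| ≤
      ∑ A : Finset (Finset (Fin d)), |∑ m ∈ Ico a (a + L), ∏ w ∈ A, nu q N z (m + dot h w) - L| := by
  classical
  have h1 : ∀ m : ℤ, ∏ w : Finset (Fin d), (nu q N z (m + dot h w) - 1) =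
      ∑ A : Finset (Finset (Fin d)), (∏ w ∈ A, nu q N z (m + dot h w)) *
        ∏ w ∈ univ \ A, (-1 : ℝ) := by
    intro m
    have := Finset.prod_add (fun w : Finset (Fin d) => nu q N z (m + dot h w)) (fun _ => (-1 : ℝ))
      univ
    simp only [Finset.powerset_univ] at this
    rw [← this]
    rfl
  have h2 : ∑ A : Finset (Finset (Fin d)), ∏ w ∈ univ \ A, (-1 : ℝ) = 0 := by
    have := Finset.prod_add (fun w : Finset (Fin d) => (1 : ℝ)) (fun _ => (-1 : ℝ))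
      univ
    simp only [Finset.powerset_univ, Finset.prod_const_one, one_mul] at this
    rw [← this]
    simp
  have h3 : ∑ m ∈ Ico a (a + L), ∏ w : Finset (Fin d), (nu q N z (m + dot h w) - 1) =
      ∑ A : Finset (Finset (Fin d)), (∑ m ∈ Ico a (a + L), ∏ w ∈ A, nu q N z (m + dot h w) - L) *
        ∏ w ∈ univ \ A, (-1 : ℝ) := by
    simp only [sub_mul]
    rw [Finset.sum_sub_distrib, ← Finset.mul_sum, h2, mul_zero, sub_zero]
    simp only [h1, Finset.sum_mul]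
    rw [Finset.sum_comm]
  rw [h3]
  refine (Finset.abs_sum_le_sum_abs _ _).trans ?_
  apply Finset.sum_le_sum
  intro A _
  rw [abs_mul]
  have h4 : |∏ w ∈ univ \ A, (-1 : ℝ)| = 1 := by
    rw [Finset.prod_const, abs_pow]; simp
  rw [h4, mul_one]

/-- `(y + 1)^M / (√2)^y → 0`. -/
private theorem exists_log_bound (M : ℕ) (B ε : ℝ) (hB : 0 ≤ B) (hε : 0 < ε) :
    ∃ H₀ : ℕ, 1 ≤ H₀ ∧ ∀ H : ℕ, H₀ ≤ H →
      B * ((Nat.log 2 H : ℝ) + 1) ^ M ≤ ε * Real.sqrt H := by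
  have h1 : Filter.Tendsto (fun n : ℕ => (n : ℝ) ^ M * (1 / Real.sqrt 2) ^ n) Filter.atTop
      (nhds 0) := by
    apply tendsto_pow_const_mul_const_pow_of_abs_lt_one
    rw [abs_of_nonneg (by positivity), div_lt_one (by positivity)]
    rw [Real.lt_sqrt (by norm_num)]
    norm_num
  have h2 : ∀ᶠ n : ℕ in Filter.atTop, (n : ℝ) ^ M * (1 / Real.sqrt 2) ^ n <
      ε / (Real.sqrt 2 * (B + 1)) := by
    apply h1.eventually_lt_const
    positivity
  obtain ⟨n0, hn0⟩ := Filter.eventually_atTop.1 h2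
  refine ⟨2 ^ n0, Nat.one_le_two_pow, ?_⟩
  intro H hH
  have hH0 : H ≠ 0 := by
    have : 0 < 2 ^ n0 := by positivity
    omega
  have h3 : n0 ≤ Nat.log 2 H := Nat.le_log_of_pow_le (by norm_num) hH
  have h4 := hn0 (Nat.log 2 H + 1) (by omega)
  set y := Nat.log 2 H with hy
  have h5 : Real.sqrt 2 ^ y ≤ Real.sqrt H := by
    have h6 : 2 ^ y ≤ H := Nat.pow_log_le_self 2 hH0
    have h7 : Real.sqrt 2 ^ y = Real.sqrt ((2 : ℝ) ^ y) := by
      have h8 : (2 : ℝ) ^ y = (Real.sqrt 2 ^ y) ^ 2 := by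
        rw [← pow_mul, mul_comm, pow_mul, Real.sq_sqrt (by norm_num)]
      rw [h8, Real.sqrt_sq (by positivity)]
    rw [h7]
    apply Real.sqrt_le_sqrt
    exact_mod_cast h6
  have hs : 0 < Real.sqrt 2 := by positivity
  rw [lt_div_iff₀ (by positivity)] at h4
  push_cast at h4
  have h8 : (1 / Real.sqrt 2) ^ (y + 1) * Real.sqrt 2 = 1 / Real.sqrt 2 ^ y := by
    rw [pow_succ, div_pow, one_pow]
    field_simp
  have h9 : ((y : ℝ) + 1) ^ M * (B + 1) * (1 / Real.sqrt 2 ^ y) < ε := by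
    rw [← h8]
    calc _ = ((y : ℝ) + 1) ^ M * (1 / Real.sqrt 2) ^ (y + 1) * (Real.sqrt 2 * (B + 1)) := by ring
      _ < ε := h4
  have h10 : 0 < Real.sqrt 2 ^ y := by positivity
  rw [mul_one_div, div_lt_iff₀ h10] at h9
  have h11 : ε * Real.sqrt 2 ^ y ≤ ε * Real.sqrt H := by gcongr
  have h12 : B * ((y : ℝ) + 1) ^ M ≤ ((y : ℝ) + 1) ^ M * (B + 1) := by
    have : 0 ≤ ((y : ℝ) + 1) ^ M := by positivity
    nlinarith
  linarith

/-- Choice of `b`. -/
private theorem exists_b (K : ℕ) (B ε : ℝ) (hB : 0 ≤ B) (hε : 0 < ε) :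
    ∃ b : ℕ, 1 ≤ b ∧ (((40 * (b + 2) : ℕ)) : ℝ) ^ K * B * (1 / 4) ^ b ≤ ε := by
  have h1 : Filter.Tendsto (fun n : ℕ => (n : ℝ) ^ K * (1 / 4 : ℝ) ^ n) Filter.atTop
      (nhds 0) := by
    apply tendsto_pow_const_mul_const_pow_of_abs_lt_one
    rw [abs_of_nonneg (by positivity)]
    norm_num
  have h2 : ∀ᶠ n : ℕ in Filter.atTop, (n : ℝ) ^ K * (1 / 4 : ℝ) ^ n <
      ε / (40 ^ K * 16 * (B + 1)) := by
    apply h1.eventually_lt_const
    positivity
  obtain ⟨n0, hn0⟩ := Filter.eventually_atTop.1 h2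
  refine ⟨n0 + 1, by omega, ?_⟩
  have h3 := hn0 (n0 + 1 + 2) (by omega)
  rw [lt_div_iff₀ (by positivity)] at h3
  rw [pow_add] at h3
  push_cast at h3 ⊢
  have h4 : (40 * ((n0 : ℝ) + 1 + 2)) ^ K = 40 ^ K * ((n0 : ℝ) + 1 + 2) ^ K := mul_pow _ _ _
  rw [h4]
  have h5 : ((n0 : ℝ) + 1 + 2) ^ K * ((1 / 4) ^ (n0 + 1) * (1 / 4) ^ 2) * (40 ^ K * 16 * (B + 1)) =
      40 ^ K * ((n0 : ℝ) + 1 + 2) ^ K * (B + 1) * (1 / 4) ^ (n0 + 1) := by ring
  rw [h5] at h3
  have h6 : 0 ≤ 40 ^ K * ((n0 : ℝ) + 1 + 2) ^ K * (1 / 4) ^ (n0 + 1) := by positivity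
  nlinarith

/-- Choice of `N`. -/
private theorem exists_N (B C K ε : ℝ) (hε : 0 < ε) :
    ∃ N₀ : ℕ, ∀ N : ℕ, N₀ ≤ N → B * (C / N + K * (Real.exp (C / N) - 1)) ≤ ε := by
  have h1 : Filter.Tendsto (fun n : ℕ => C / (n : ℝ)) Filter.atTop (nhds 0) :=
    tendsto_const_div_atTop_nhds_zero_nat C
  have h2 : Filter.Tendsto (fun n : ℕ => B * (C / (n : ℝ) + K * (Real.exp (C / n) - 1)))
      Filter.atTop (nhds (B * (0 + K * (Real.exp 0 - 1)))) := by
    apply Filter.Tendsto.const_mul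
    apply h1.add
    apply Filter.Tendsto.const_mul
    apply Filter.Tendsto.sub_const
    exact (Real.continuous_exp.tendsto 0).comp h1
  rw [Real.exp_zero, sub_self, mul_zero, add_zero, mul_zero] at h2
  have h3 := h2.eventually_lt_const hε
  obtain ⟨n0, hn0⟩ := Filter.eventually_atTop.1 h3
  exact ⟨n0, fun N hN => (hn0 N hN).le⟩

theorem cube_small (d : ℕ) (ε : ℝ) (hε : 0 < ε) : ∃ s : ℕ, 1 ≤ s ∧ ∃ N₀ : ℕ, ∀ N : ℕ, N₀ ≤ N →
    ∃ H₀ : ℕ, ∀ H : ℕ, H₀ ≤ H → ∀ z q : ℕ, z ^ s ≤ H → (∀ p ∈ PP N z, ¬ p ∣ q) → ∀ a : ℤ,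
    (s : ℝ) ^ (2 ^ d) * ∑ h ∈ box d H, |∑ m ∈ (Ico a (a + H)).filter
      (fun m => ∀ w : Finset (Fin d), m + dot h w ∈ Ico a (a + H)),
        ∏ w : Finset (Fin d), (nu q N z (m + dot h w) - 1)| ≤ ε * (H : ℝ) ^ (d + 1) := by
  classical
  obtain ⟨C1, hC1, hcorr⟩ := corr d
  obtain ⟨C2, hC2, hsing⟩ := SS_sub_one d
  set K : ℕ := 2 ^ d with hK
  set W : ℝ := 2 ^ K * 2 ^ d with hW
  have hW0 : 0 < W := by rw [hW]; positivity
  obtain ⟨b, hb1, hb⟩ := exists_b K (W * C1) (ε / 4) (by positivity) (by positivity)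
  set s : ℕ := 40 * (b + 2) with hs
  obtain ⟨N1, hN1⟩ := exists_N ((s : ℝ) ^ K * W * (1 + C1)) C2 ((K : ℝ) ^ 2) (ε / 4)
    (by positivity)
  refine ⟨s, by omega, max N1 (2 ^ (d + 1)), ?_⟩
  intro N hN
  have hN' := hN1 N (le_trans (le_max_left _ _) hN)
  have hNd : 2 ^ (d + 1) ≤ N := le_trans (le_max_right _ _) hN
  have hNd' : 2 ^ d ≤ N := le_trans (Nat.pow_le_pow_right (by norm_num) (by omega)) hNd
  have hN1' : 1 ≤ N := le_trans Nat.one_le_two_pow hNd
  obtain ⟨M0, hM0⟩ := exists_nat_ge (4 * C2)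
  obtain ⟨H1, hH1, hH1'⟩ := exists_log_bound M0
    ((s : ℝ) ^ K * W * (1 + C1) * (K : ℝ) ^ 2 * Real.exp (4 * C2)) (ε / 4)
    (by positivity) (by positivity)
  obtain ⟨H2, hH2, hH2'⟩ := exists_log_bound (8 * K + 1)
    ((s : ℝ) ^ K * W * (Real.exp 8 ^ K * 3)) (ε / 4)
    (by positivity) (by positivity)
  refine ⟨max H1 H2, ?_⟩
  intro H hH z q hz hq a
  have hHa := hH1' H (le_trans (le_max_left _ _) hH)
  have hHb := hH2' H (le_trans (le_max_right _ _) hH)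
  have hHone : 1 ≤ H := le_trans hH1 (le_trans (le_max_left _ _) hH)
  have hHr : (1 : ℝ) ≤ H := by exact_mod_cast hHone
  set E : ℕ := Nat.log 2 z with hE
  set y : ℕ := Nat.log 2 H with hy
  have hzH : z ≤ H := by
    rcases Nat.eq_zero_or_pos z with h0 | h0
    · omega
    · exact le_trans (Nat.le_self_pow (by omega) z) hz
  have hEy : E ≤ y := Nat.log_mono_right hzH
  have hEyr : (E : ℝ) + 1 ≤ (y : ℝ) + 1 := by
    have : (E : ℝ) ≤ y := by exact_mod_cast hEy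
    linarith
  -- the power of two
  have hpow : (2 : ℝ) ^ (20 * E * (b + 2)) ≤ Real.sqrt H := by
    apply Real.le_sqrt_of_sq_le
    rw [← pow_mul]
    have h1 : 20 * E * (b + 2) * 2 = E * s := by rw [hs]; ring
    rw [h1]
    have h2 : 2 ^ (E * s) ≤ H := by
      rcases Nat.eq_zero_or_pos z with h0 | h0
      · rw [hE, h0]; simpa using hHone
      · calc 2 ^ (E * s) = (2 ^ E) ^ s := by rw [pow_mul]
          _ ≤ z ^ s := Nat.pow_le_pow_left (Nat.pow_log_le_self 2 (by omega)) s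
          _ ≤ H := hz
    exact_mod_cast h2
  -- error term
  set err : ℝ := (VV N z)⁻¹ ^ K * ((2 * E + 3) * 2 ^ (20 * E * (b + 2))) with herr
  set Pi : ℝ := ∏ p ∈ PP N z, (1 + C2 / (p : ℝ)) with hPi
  set δ : ℝ := Real.exp (C2 / N) - 1 with hδ
  have hδ0 : 0 ≤ δ := by
    rw [hδ]
    have : 0 ≤ C2 / (N : ℝ) := by positivity
    have := Real.add_one_le_exp (C2 / (N : ℝ))
    linarith
  set U : Finset (Finset (Fin d) × Finset (Fin d)) := univ.filter (fun u => u.1 ≠ u.2) with hU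
  set R : (Fin d → ℤ) → ℝ := fun h => C2 / N + ∑ u ∈ U,
    (∏ p ∈ DD N z (dot h u.1 - dot h u.2), (1 + C2 / (p : ℝ)) - 1) with hR
  have hterm0 : ∀ (h : Fin d → ℤ) (u : Finset (Fin d) × Finset (Fin d)),
      0 ≤ ∏ p ∈ DD N z (dot h u.1 - dot h u.2), (1 + C2 / (p : ℝ)) - 1 := by
    intro h u
    have : ∏ p ∈ DD N z (dot h u.1 - dot h u.2), (1 : ℝ) ≤
        ∏ p ∈ DD N z (dot h u.1 - dot h u.2), (1 + C2 / (p : ℝ)) := by
      apply Finset.prod_le_prod
      · intro _ _; norm_num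
      · intro p _
        have : 0 ≤ C2 / (p : ℝ) := by positivity
        linarith
    rw [Finset.prod_const_one] at this
    linarith
  have hR0 : ∀ h, 0 ≤ R h := by
    intro h
    apply add_nonneg (by positivity)
    exact Finset.sum_nonneg fun u _ => hterm0 h u
  -- bound for one cube
  have hone : ∀ h : Fin d → ℤ, |∑ m ∈ (Ico a (a + H)).filter
      (fun m => ∀ w : Finset (Fin d), m + dot h w ∈ Ico a (a + H)),
        ∏ w : Finset (Fin d), (nu q N z (m + dot h w) - 1)| ≤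
      2 ^ K * (H * (C1 * (1 / 4) ^ b + (1 + C1) * R h) + err) := by
    intro h
    obtain ⟨a', L, hL, hfil⟩ := cube_interval h a H
    rw [hfil]
    refine (cube_expand h q N z a' L).trans ?_
    have hcard : (univ : Finset (Finset (Finset (Fin d)))).card = 2 ^ K := by
      simp [hK]
    have hLr : (L : ℝ) ≤ H := by exact_mod_cast hL
    have hL0 : (0 : ℝ) ≤ L := Nat.cast_nonneg L
    have hA : ∀ A ∈ (univ : Finset (Finset (Finset (Fin d)))),
        |∑ m ∈ Ico a' (a' + L), ∏ w ∈ A, nu q N z (m + dot h w) - L| ≤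
          H * (C1 * (1 / 4) ^ b + (1 + C1) * R h) + err := by
      intro A _
      have h1 := hcorr N z q hNd' hq E (le_refl _) h A b hb1 a' L
      obtain ⟨hS0, h2⟩ := hsing N z hNd h A
      have h2' : |SS N z h A - 1| ≤ R h := h2
      have h3 : SS N z h A ≤ 1 + R h := by
        have := le_abs_self (SS N z h A - 1)
        linarith
      have h4 : ∑ m ∈ Ico a' (a' + L), ∏ w ∈ A, nu q N z (m + dot h w) - L =
          (∑ m ∈ Ico a' (a' + L), ∏ w ∈ A, nu q N z (m + dot h w) - L * SS N z h A) +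
            L * (SS N z h A - 1) := by ring
      rw [h4]
      refine (abs_add_le _ _).trans ?_
      have h5 : |(L : ℝ) * (SS N z h A - 1)| ≤ H * R h := by
        rw [abs_mul, abs_of_nonneg hL0]
        exact mul_le_mul hLr h2' (abs_nonneg _) (by positivity)
      have h6 : C1 * (1 / 4) ^ b * (L * SS N z h A) ≤ C1 * (1 / 4) ^ b * (H * (1 + R h)) := by
        apply mul_le_mul_of_nonneg_left _ (by positivity)
        exact mul_le_mul hLr h3 hS0 (by positivity)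
      have h7 : C1 * (1 / 4) ^ b * (H * (1 + R h)) ≤
          H * (C1 * (1 / 4) ^ b) + H * (C1 * R h) := by
        have h8 : (1 / 4 : ℝ) ^ b ≤ 1 := pow_le_one₀ (by norm_num) (by norm_num)
        have h9 : 0 ≤ C1 * R h * H := mul_nonneg (mul_nonneg hC1 (hR0 h)) (by positivity)
        have h10 : C1 * (1 / 4) ^ b * (H * (1 + R h)) =
          H * (C1 * (1 / 4) ^ b) + (1 / 4) ^ b * (C1 * R h * H) := by ring
        rw [h10]
        nlinarith
      have h11 : |∑ m ∈ Ico a' (a' + L), ∏ w ∈ A, nu q N z (m + dot h w) - L * SS N z h A| ≤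
        C1 * (1 / 4) ^ b * (L * SS N z h A) + err := h1
      nlinarith
    calc _ ≤ ∑ A : Finset (Finset (Fin d)), (H * (C1 * (1 / 4) ^ b + (1 + C1) * R h) + err) :=
          Finset.sum_le_sum hA
      _ = _ := by
        rw [Finset.sum_const, hcard, nsmul_eq_mul]
        push_cast
        ring
  -- sum over the cubes
  have hboxcard : ((box d H).card : ℝ) ≤ (2 * H : ℝ) ^ d := by
    unfold box
    rw [Fintype.card_piFinset]
    simp only [Int.card_Ioo, Finset.prod_const, Finset.card_univ, Fintype.card_fin]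
    push_cast
    apply pow_le_pow_left₀ (by positivity)
    have : ((H - -(H : ℤ) - 1).toNat : ℝ) ≤ ((2 * H : ℕ) : ℝ) := by
      exact_mod_cast (by omega : (H - -(H : ℤ) - 1).toNat ≤ 2 * H)
    push_cast at this
    exact this
  have hUcard : (U.card : ℝ) ≤ (K : ℝ) ^ 2 := by
    have h1 : U.card ≤ (univ : Finset (Finset (Fin d) × Finset (Fin d))).card :=
      Finset.card_le_card (Finset.filter_subset _ _)
    have h2 : (univ : Finset (Finset (Fin d) × Finset (Fin d))).card = K ^ 2 := by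
      simp [hK, sq]
    rw [h2] at h1
    exact_mod_cast h1
  have hPi0 : 0 ≤ Pi := by
    rw [hPi]; exact Finset.prod_nonneg fun p _ => by positivity
  have hRsum : ∑ h ∈ box d H, R h ≤ (2 * H : ℝ) ^ d *
      (C2 / N + (K : ℝ) ^ 2 * δ + (K : ℝ) ^ 2 * (Pi / (2 * H))) := by
    simp only [hR]
    rw [Finset.sum_add_distrib, Finset.sum_const, nsmul_eq_mul, Finset.sum_comm]
    have h1 : ((box d H).card : ℝ) * (C2 / N) ≤ (2 * H : ℝ) ^ d * (C2 / N) :=
      mul_le_mul_of_nonneg_right hboxcard (by positivity)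
    have h2 : ∀ u ∈ U, ∑ h ∈ box d H, (∏ p ∈ DD N z (dot h u.1 - dot h u.2),
        (1 + C2 / (p : ℝ)) - 1) ≤ (2 * H : ℝ) ^ d * (δ + Pi / (2 * H)) := by
      intro u hu
      have hu' : u.1 ≠ u.2 := by
        rw [hU, Finset.mem_filter] at hu; exact hu.2
      have hd : 1 ≤ d := by
        by_contra hd
        have hd0 : d = 0 := by omega
        subst hd0
        exact hu' (Subsingleton.elim _ _)
      refine (avg_form d C2 hC2 N z H hN1' hHone u.1 u.2 hu').trans ?_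
      rw [mul_add]
      have h3 : (2 * H : ℝ) ^ d = (2 * H : ℝ) ^ (d - 1) * (2 * H) := by
        rw [← pow_succ]; congr 1; omega
      have h4 : (2 * H : ℝ) ^ d * (Pi / (2 * H)) = (2 * H : ℝ) ^ (d - 1) * Pi := by
        rw [h3]; field_simp
      rw [h4]
    have h5 : ∑ u ∈ U, ∑ h ∈ box d H, (∏ p ∈ DD N z (dot h u.1 - dot h u.2),
        (1 + C2 / (p : ℝ)) - 1) ≤ (K : ℝ) ^ 2 * ((2 * H : ℝ) ^ d * (δ + Pi / (2 * H))) := by
      refine (Finset.sum_le_sum h2).trans ?_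
      rw [Finset.sum_const, nsmul_eq_mul]
      apply mul_le_mul_of_nonneg_right hUcard
      positivity
    refine (add_le_add h1 h5).trans (le_of_eq ?_)
    ring
  -- numerical bounds
  have hPib : Pi ≤ Real.exp (4 * C2) * ((y : ℝ) + 1) ^ M0 := by
    have h1 := prod_le_pow C2 hC2 N z
    rw [← hPi, ← hE] at h1
    refine h1.trans ?_
    apply mul_le_mul_of_nonneg_left _ (Real.exp_pos _).le
    have h2 : (1 : ℝ) ≤ (y : ℝ) + 1 := by
      have : (0 : ℝ) ≤ y := Nat.cast_nonneg y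
      linarith
    calc ((E : ℝ) + 1) ^ (4 * C2) ≤ ((y : ℝ) + 1) ^ (4 * C2) :=
          Real.rpow_le_rpow (by positivity) hEyr (by positivity)
      _ ≤ ((y : ℝ) + 1) ^ (M0 : ℝ) := Real.rpow_le_rpow_of_exponent_le h2 hM0
      _ = ((y : ℝ) + 1) ^ M0 := Real.rpow_natCast _ _
  have herr0 : 0 ≤ err := by
    rw [herr]
    have := VV_pos N z
    positivity
  have herrb : err ≤ Real.exp 8 ^ K * 3 * ((y : ℝ) + 1) ^ (8 * K + 1) * Real.sqrt H := by
    have h1 := VV_inv_le N z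
    have h2 : ((Nat.log 2 z : ℝ) + 1) ^ (8 : ℝ) = ((E : ℝ) + 1) ^ 8 := by
      rw [← hE]; exact_mod_cast Real.rpow_natCast ((E : ℝ) + 1) 8
    rw [h2] at h1
    have h3 : (VV N z)⁻¹ ≤ Real.exp 8 * ((y : ℝ) + 1) ^ 8 := by
      refine h1.trans ?_
      gcongr
    have h4 : (VV N z)⁻¹ ^ K ≤ (Real.exp 8 * ((y : ℝ) + 1) ^ 8) ^ K :=
      pow_le_pow_left₀ (inv_nonneg.2 (VV_pos N z).le) h3 K
    have h5 : (2 * (E : ℝ) + 3) ≤ 3 * ((y : ℝ) + 1) := by
      have : (0 : ℝ) ≤ y := Nat.cast_nonneg y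
      linarith
    have h6 : (2 * (E : ℝ) + 3) * 2 ^ (20 * E * (b + 2)) ≤ 3 * ((y : ℝ) + 1) * Real.sqrt H :=
      mul_le_mul h5 hpow (by positivity) (by positivity)
    calc err ≤ (Real.exp 8 * ((y : ℝ) + 1) ^ 8) ^ K * (3 * ((y : ℝ) + 1) * Real.sqrt H) := by
          rw [herr]
          exact mul_le_mul h4 h6 (by positivity) (by positivity)
      _ = _ := by
        rw [mul_pow, ← pow_mul, pow_succ]
        ring
  have hsqrt : Real.sqrt H * Real.sqrt H = H := Real.mul_self_sqrt (by positivity)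
  have hsq1 : 1 ≤ Real.sqrt H := by
    rw [Real.one_le_sqrt]; exact hHr
  -- final assembly
  set X : ℝ := (s : ℝ) ^ K with hX
  have hX0 : 0 ≤ X := by rw [hX]; positivity
  have htot : ∑ h ∈ box d H, |∑ m ∈ (Ico a (a + H)).filter
      (fun m => ∀ w : Finset (Fin d), m + dot h w ∈ Ico a (a + H)),
        ∏ w : Finset (Fin d), (nu q N z (m + dot h w) - 1)| ≤
      2 ^ K * (2 * H : ℝ) ^ d * (H * (C1 * (1 / 4) ^ b) + H * (1 + C1) *
        (C2 / N + (K : ℝ) ^ 2 * δ + (K : ℝ) ^ 2 * (Pi / (2 * H))) + err) := by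
    refine (Finset.sum_le_sum fun h _ => hone h).trans ?_
    rw [← Finset.mul_sum, Finset.sum_add_distrib, ← Finset.mul_sum, Finset.sum_add_distrib,
      Finset.sum_const, Finset.sum_const, nsmul_eq_mul, nsmul_eq_mul, ← Finset.mul_sum]
    have h1 : ((box d H).card : ℝ) * (C1 * (1 / 4) ^ b) ≤ (2 * H : ℝ) ^ d * (C1 * (1 / 4) ^ b) :=
      mul_le_mul_of_nonneg_right hboxcard (by positivity)
    have h2 : ((box d H).card : ℝ) * err ≤ (2 * H : ℝ) ^ d * err :=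
      mul_le_mul_of_nonneg_right hboxcard herr0
    have h3 : (1 + C1) * ∑ h ∈ box d H, R h ≤ (1 + C1) * ((2 * H : ℝ) ^ d *
      (C2 / N + (K : ℝ) ^ 2 * δ + (K : ℝ) ^ 2 * (Pi / (2 * H)))) :=
      mul_le_mul_of_nonneg_left hRsum (by positivity)
    have h4 : (0 : ℝ) < 2 ^ K := by positivity
    have h5 := mul_le_mul_of_nonneg_left (add_le_add h1 h3) (by positivity : (0 : ℝ) ≤ H)
    have h6 := mul_le_mul_of_nonneg_left (add_le_add h5 h2) h4.le
    refine h6.trans (le_of_eq ?_)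
    ring
  refine (mul_le_mul_of_nonneg_left htot hX0).trans ?_
  have e1 : X * (2 ^ K * (2 * H : ℝ) ^ d * (H * (C1 * (1 / 4) ^ b) + H * (1 + C1) *
        (C2 / N + (K : ℝ) ^ 2 * δ + (K : ℝ) ^ 2 * (Pi / (2 * H))) + err)) =
      (H : ℝ) ^ (d + 1) * (X * (W * C1) * (1 / 4) ^ b) +
      (H : ℝ) ^ (d + 1) * (X * W * (1 + C1) * (C2 / N + (K : ℝ) ^ 2 * δ)) +
      (H : ℝ) ^ d * (X * W * (1 + C1) * (K : ℝ) ^ 2 * Pi / 2) +
      (H : ℝ) ^ d * (X * W * err) := by
    rw [hW, mul_pow]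
    field_simp
    ring
  rw [e1]
  have g1 : (H : ℝ) ^ (d + 1) * (X * (W * C1) * (1 / 4) ^ b) ≤ (H : ℝ) ^ (d + 1) * (ε / 4) :=
    mul_le_mul_of_nonneg_left hb (by positivity)
  have g2 : (H : ℝ) ^ (d + 1) * (X * W * (1 + C1) * (C2 / N + (K : ℝ) ^ 2 * δ)) ≤
      (H : ℝ) ^ (d + 1) * (ε / 4) :=
    mul_le_mul_of_nonneg_left hN' (by positivity)
  have g3 : (H : ℝ) ^ d * (X * W * (1 + C1) * (K : ℝ) ^ 2 * Pi / 2) ≤
      (H : ℝ) ^ (d + 1) * (ε / 4) := by
    have h0 : (H : ℝ) ^ (d + 1) * (ε / 4) = (H : ℝ) ^ d * (ε / 4 * H) := by ring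
    rw [h0]
    apply mul_le_mul_of_nonneg_left _ (by positivity)
    have h1 : X * W * (1 + C1) * (K : ℝ) ^ 2 * Pi ≤ X * W * (1 + C1) * (K : ℝ) ^ 2 *
        (Real.exp (4 * C2) * ((y : ℝ) + 1) ^ M0) :=
      mul_le_mul_of_nonneg_left hPib (by positivity)
    have h2 : X * W * (1 + C1) * (K : ℝ) ^ 2 * (Real.exp (4 * C2) * ((y : ℝ) + 1) ^ M0) ≤
        ε / 4 * Real.sqrt H := by
      refine le_trans (le_of_eq ?_) hHa
      ring
    have h3 : ε / 4 * Real.sqrt H ≤ ε / 4 * H := by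
      apply mul_le_mul_of_nonneg_left _ (by positivity)
      nlinarith
    have h4 : 0 ≤ ε / 4 * H := by positivity
    linarith
  have g4 : (H : ℝ) ^ d * (X * W * err) ≤ (H : ℝ) ^ (d + 1) * (ε / 4) := by
    have h0 : (H : ℝ) ^ (d + 1) * (ε / 4) = (H : ℝ) ^ d * (ε / 4 * H) := by ring
    rw [h0]
    apply mul_le_mul_of_nonneg_left _ (by positivity)
    have h1 : X * W * err ≤ X * W * (Real.exp 8 ^ K * 3 * ((y : ℝ) + 1) ^ (8 * K + 1) *
        Real.sqrt H) := mul_le_mul_of_nonneg_left herrb (by positivity)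
    have h2 : X * W * (Real.exp 8 ^ K * 3 * ((y : ℝ) + 1) ^ (8 * K + 1) * Real.sqrt H) ≤
        ε / 4 * Real.sqrt H * Real.sqrt H := by
      have := mul_le_mul_of_nonneg_right hHb (Real.sqrt_nonneg H)
      refine le_trans (le_of_eq ?_) this
      ring
    have h3 : ε / 4 * Real.sqrt H * Real.sqrt H = ε / 4 * H := by
      rw [mul_assoc, hsqrt]
    rw [h3] at h2
    linarith
  have g5 : (H : ℝ) ^ (d + 1) * (ε / 4) + (H : ℝ) ^ (d + 1) * (ε / 4) +
      (H : ℝ) ^ (d + 1) * (ε / 4) + (H : ℝ) ^ (d + 1) * (ε / 4) = ε * (H : ℝ) ^ (d + 1) := by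
    ring
  linarith

end Pool.Agent.Helper40.DB
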