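import Mathlib

set_option autoImplicit false

/-!
# DIAG, part B (sieve): definitions
-/

noncomputable section

namespace Pool.Agent.Helper40.DB

/-- The primes in `(N, z]`. -/
def PP (N z : ℕ) : Finset ℕ := (Finset.Ioc N z).filter Nat.Prime

/-- `V = ∏ (1 - 1/p)`. -/
def VV (N z : ℕ) : ℝ := ∏ p ∈ PP N z, (1 - 1 / (p : ℝ))

/-- The primes in `(N, z]` which divide `x`. -/
def DD (N z : ℕ) (x : ℤ) : Finset ℕ := (PP N z).filter fun p => ((p : ℕ) : ℤ) ∣ x

/-- The normalised indicator function of the `m` such that `1 + q m` has no prime factor in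
`(N, z]`. -/
def nu (q N z : ℕ) (m : ℤ) : ℝ :=
  open Classical in if ∀ p ∈ PP N z, ¬ (p : ℤ) ∣ 1 + q * m then (VV N z)⁻¹ else 0

/-- The vertex `w · h` of the cube with edges `h`. -/
def dot {d : ℕ} (h : Fin d → ℤ) (w : Finset (Fin d)) : ℤ := ∑ i ∈ w, h i

/-- The number of residue classes modulo `p` of the vertices in `A`. -/
def rho {d : ℕ} (h : Fin d → ℤ) (A : Finset (Finset (Fin d))) (p : ℕ) : ℕ :=
  open Classical in (A.image fun w => ((dot h w : ℤ) : ZMod p)).card

/-- The singular series. -/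
def SS {d : ℕ} (N z : ℕ) (h : Fin d → ℤ) (A : Finset (Finset (Fin d))) : ℝ :=
  ∏ p ∈ PP N z, ((1 - (rho h A p : ℝ) / p) / (1 - 1 / (p : ℝ)) ^ A.card)

/-- The box `(-H, H)^d`. -/
def box (d H : ℕ) : Finset (Fin d → ℤ) := Fintype.piFinset fun _ => Finset.Ioo (-(H : ℤ)) H

end Pool.Agent.Helper40.DB

end
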