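import Pool.Agent.Helper6.DG.Defs

set_option autoImplicit false

/-!
# DGB-1b: cubes of dimension `k + 1`

PROOF. Subsets of `Fin (k+1)` are `s.map succ` and `insert 0 (s.map succ)`, `s ⊆ Fin k` (an equivalence `Finset (Fin k) × Bool ≃ Finset (Fin (k+1))`,
or `Finset.powerset_univ` + `Fin.univ_succ` + `Finset.prod_powerset_insert`), `∑ i ∈ s.map succ, Fin.cons h h' i = ∑ i ∈ s, h' i`.
`sum_cons`: `Finset.sum_nbij'` with `h ↦ (h 0, Fin.tail h)` and `Fin.cons`, `Finset.sum_product`.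
-/

namespace DG

open Finset

/-- subsets of `Fin (k + 1)` -/
def gvnE (k : ℕ) (p : Finset (Fin k) × Bool) : Finset (Fin (k + 1)) :=
  if p.2 then insert 0 (p.1.map (Fin.succEmb k)) else p.1.map (Fin.succEmb k)

theorem gvnE_zero (k : ℕ) (p : Finset (Fin k) × Bool) : 0 ∈ gvnE k p ↔ p.2 = true := by
  unfold gvnE
  rcases p with ⟨s, b⟩
  cases b
  · simp [Fin.succ_ne_zero]
  · simp

theorem gvnE_succ (k : ℕ) (p : Finset (Fin k) × Bool) (i : Fin k) :
    i.succ ∈ gvnE k p ↔ i ∈ p.1 := by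
  unfold gvnE
  rcases p with ⟨s, b⟩
  cases b
  · simp
  · simp [Fin.succ_ne_zero]

theorem gvnE_bij (k : ℕ) : Function.Bijective (gvnE k) := by
  constructor
  · rintro ⟨s, b⟩ ⟨s', b'⟩ h
    have h1 : s = s' := by
      ext i
      have h2 := gvnE_succ k (s, b) i
      have h3 := gvnE_succ k (s', b') i
      rw [h] at h2
      exact h2.symm.trans h3
    have h4 : (b = true) ↔ (b' = true) := by
      have h2 := gvnE_zero k (s, b)
      have h3 := gvnE_zero k (s', b')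
      rw [h] at h2
      exact h2.symm.trans h3
    have h5 : b = b' := Bool.eq_iff_iff.2 h4
    rw [h1, h5]
  · intro t
    refine ⟨(Finset.univ.filter (fun i : Fin k => i.succ ∈ t), decide ((0 : Fin (k + 1)) ∈ t)), ?_⟩
    ext i
    refine Fin.cases ?_ (fun i => ?_) i
    · rw [gvnE_zero]
      simp
    · rw [gvnE_succ]
      simp

theorem cube_cons (k : ℕ) (b : ℤ → ℝ) (m h : ℤ) (h' : Fin k → ℤ) :
    ∏ s : Finset (Fin (k + 1)), b (m + ∑ i ∈ s, (Fin.cons h h' : Fin (k + 1) → ℤ) i) =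
      ∏ s : Finset (Fin k), (b (m + ∑ i ∈ s, h' i) * b (m + ∑ i ∈ s, h' i + h)) := by
  have h1 : ∏ p : Finset (Fin k) × Bool,
      b (m + ∑ i ∈ gvnE k p, (Fin.cons h h' : Fin (k + 1) → ℤ) i) =
      ∏ s : Finset (Fin (k + 1)), b (m + ∑ i ∈ s, (Fin.cons h h' : Fin (k + 1) → ℤ) i) :=
    Fintype.prod_bijective (gvnE k) (gvnE_bij k) _ _ (fun p => rfl)
  rw [← h1, Fintype.prod_prod_type]
  refine Finset.prod_congr rfl fun s _ => ?_
  have h2 : ∑ i ∈ s.map (Fin.succEmb k), (Fin.cons h h' : Fin (k + 1) → ℤ) i =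
      ∑ i ∈ s, h' i := by
    rw [Finset.sum_map]
    refine Finset.sum_congr rfl fun i _ => ?_
    simp
  have h3 : (0 : Fin (k + 1)) ∉ s.map (Fin.succEmb k) := by
    simp [Fin.succ_ne_zero]
  rw [Fintype.prod_bool]
  unfold gvnE
  simp only [if_true, Bool.false_eq_true, if_false]
  rw [Finset.sum_insert h3, h2, Fin.cons_zero]
  have h4 : m + (h + ∑ i ∈ s, h' i) = m + ∑ i ∈ s, h' i + h := by ring
  rw [h4, mul_comm]

theorem sum_cons (k : ℕ) (I : Finset ℤ) (F : (Fin (k + 1) → ℤ) → ℝ) :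
    ∑ h ∈ Fintype.piFinset (fun _ : Fin (k + 1) => I), F h =
      ∑ h ∈ I, ∑ h' ∈ Fintype.piFinset (fun _ : Fin k => I), F (Fin.cons h h') := by
  rw [← Finset.sum_product']
  refine Finset.sum_nbij' (fun h => (h 0, Fin.tail h)) (fun p => Fin.cons p.1 p.2) ?_ ?_ ?_ ?_ ?_
  · intro h hh
    rw [Fintype.mem_piFinset] at hh
    rw [Finset.mem_product, Fintype.mem_piFinset]
    exact ⟨hh 0, fun i => hh i.succ⟩
  · intro p hp
    rw [Finset.mem_product, Fintype.mem_piFinset] at hp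
    rw [Fintype.mem_piFinset]
    intro i
    refine Fin.cases ?_ (fun i => ?_) i
    · simpa using hp.1
    · simpa using hp.2 i
  · intro h _
    exact Fin.cons_self_tail h
  · intro p _
    simp
  · intro h _
    rw [Fin.cons_self_tail]

end DG
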