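import Pool.Agent.Helper40.DB.GvnA
import Pool.Agent.Helper40.DB.GvnB

set_option autoImplicit false

/-!
# DGB-1: the generalised von Neumann inequality in a system

PROOF. Induction on `k` (any constant `C`, e.g. `2^(2^k)`). `k = 0`: `cor X 0 G m x = G 0 x` (`T^0`), `|E G 0| ≤ 1` (`Mean.norm_E_le`), `piFinset` over `Fin 0` is a
singleton, the product over `Finset (Fin 0)` has one factor `b m`. Step: `S^2 ≤ ∑_h S_h` (`gvn_step`; the functions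
`G' i` are 1-bounded), so `S^(2^(k+1)) ≤ (∑_h S_h)^(2^k) ≤ (2M)^(2^k - 1) ∑_h S_h^(2^k)` (`inner_le..`: `inv_mul`, `Finset.inner..`; in Mathlib
`inner`: `pow_sum_div_card_le_sum_pow` / `Real.pow_arith_mean_le_arith_mean_pow`), the induction hypothesis for
`b_h m = b m * b (m + h)` (zero outside `[0, M)`), `cube_cons`, `sum_cons`.
-/

namespace DG

open Finset

/-- the cube sum -/
private noncomputable def cu (k M : ℕ) (b : ℤ → ℝ) : ℝ :=
  ∑ h ∈ Fintype.piFinset (fun _ : Fin k => Ioo (-(M : ℤ)) M),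
    |∑ m ∈ range M, ∏ s : Finset (Fin k), b ((m : ℤ) + ∑ i ∈ s, h i)|

/-- the cube sum of dimension `k + 1` -/
private lemma cu_succ (k M : ℕ) (b : ℤ → ℝ) :
    cu (k + 1) M b = ∑ h ∈ Ioo (-(M : ℤ)) M, cu k M (fun x => b x * b (x + h)) := by
  unfold cu
  rw [sum_cons k (Ioo (-(M : ℤ)) M)
    (fun h => |∑ m ∈ range M, ∏ s : Finset (Fin (k + 1)), b ((m : ℤ) + ∑ i ∈ s, h i)|)]
  refine Finset.sum_congr rfl fun h _ => Finset.sum_congr rfl fun h' _ => ?_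
  congr 1
  refine Finset.sum_congr rfl fun m _ => ?_
  exact cube_cons k b m h h'

private lemma gvn_aux (k : ℕ) : ∃ C : ℝ, 0 < C ∧ ∀ (X : Sys) (G : ℕ → X.S → ℂ),
    (∀ i x, ‖G i x‖ ≤ 1) → ∀ M : ℕ, 1 ≤ M → ∀ b : ℤ → ℝ, (∀ m, b m ≠ 0 → 0 ≤ m ∧ m < M) →
      ‖∑ m ∈ range M, (b m : ℂ) * X.μ.E (cor X k G m)‖ ^ (2 ^ k) * (M : ℝ) ^ (k + 1) ≤
        C * (M : ℝ) ^ (2 ^ k) * cu k M b := by
  induction k with
  | zero =>
    refine ⟨1, one_pos, fun X G hG M hM b _ => ?_⟩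
    have h1 : cu 0 M b = |∑ m ∈ range M, b m| := by
      unfold cu
      rw [Fintype.piFinset_of_isEmpty, Finset.univ_unique, Finset.sum_singleton]
      congr 1
      refine Finset.sum_congr rfl fun m _ => ?_
      rw [Finset.univ_unique, Finset.prod_singleton]
      have : (default : Finset (Fin 0)) = ∅ := Subsingleton.elim _ _
      rw [this, Finset.sum_empty, add_zero]
    have h2 : ∀ m : ℤ, X.μ.E (cor X 0 G m) = X.μ.E (G 0) := by
      intro m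
      congr 1
      funext x
      unfold cor
      rw [zero_add, Finset.prod_range_one]
      simp
    have h3 : ‖X.μ.E (G 0)‖ ≤ 1 := X.μ.norm_E_le _ (hG 0)
    have h4 : ‖∑ m ∈ range M, (b m : ℂ) * X.μ.E (cor X 0 G m)‖ ≤ |∑ m ∈ range M, b m| := by
      simp_rw [h2]
      rw [← Finset.sum_mul, norm_mul, ← Complex.ofReal_sum, Complex.norm_real, Real.norm_eq_abs]
      exact mul_le_of_le_one_right (abs_nonneg _) h3
    rw [h1, pow_zero, pow_one, zero_add, pow_one, one_mul, mul_comm]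
    exact mul_le_mul_of_nonneg_left h4 (Nat.cast_nonneg M)
  | succ k ih =>
    obtain ⟨C, hC, h⟩ := ih
    refine ⟨C * 2 ^ (2 ^ k - 1), by positivity, fun X G hG M hM b hb => ?_⟩
    have hM0 : (0 : ℝ) < M := by exact_mod_cast hM
    set S : ℤ → ℝ := fun h => ‖∑ m ∈ range M, ((b m * b (m + h) : ℝ) : ℂ) * X.μ.E (cor X k
        (fun i x => G (i + 1) x * (starRingEnd ℂ) (G (i + 1) ((X.T ^ (((i : ℤ) + 1) * h)) x))) m)‖
      with hS
    have hS0 : ∀ h, 0 ≤ S h := fun h => norm_nonneg _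
    have h1 := gvn_step X k G hG M b hb
    have h2 : ∀ h : ℤ, S h ^ (2 ^ k) * (M : ℝ) ^ (k + 1) ≤
        C * (M : ℝ) ^ (2 ^ k) * cu k M (fun x => b x * b (x + h)) := by
      intro h0
      refine h X _ (fun i x => ?_) M hM (fun x => b x * b (x + h0)) (fun m hm => ?_)
      · rw [norm_mul, RCLike.norm_conj]
        exact mul_le_one₀ (hG _ _) (norm_nonneg _) (hG _ _)
      · refine hb m fun h1 => hm ?_
        rw [h1, zero_mul]
    have hk : 2 ^ k - 1 + 1 = 2 ^ k := Nat.sub_add_cancel Nat.one_le_two_pow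
    have h3 : (∑ h ∈ Ioo (-(M : ℤ)) M, S h) ^ (2 ^ k) ≤
        (2 * (M : ℝ)) ^ (2 ^ k - 1) * ∑ h ∈ Ioo (-(M : ℤ)) M, S h ^ (2 ^ k) := by
      have h4 := pow_sum_le_card_mul_sum_pow (s := Ioo (-(M : ℤ)) M) (f := S)
        (fun h _ => hS0 h) (2 ^ k - 1)
      rw [hk] at h4
      refine h4.trans (mul_le_mul_of_nonneg_right ?_ (Finset.sum_nonneg fun h _ =>
        pow_nonneg (hS0 h) _))
      refine pow_le_pow_left₀ (Nat.cast_nonneg _) ?_ _
      rw [Int.card_Ioo]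
      have : ((M : ℤ) - -(M : ℤ) - 1).toNat ≤ 2 * M := by omega
      exact_mod_cast this
    have h5 : ‖∑ m ∈ range M, (b m : ℂ) * X.μ.E (cor X (k + 1) G m)‖ ^ (2 ^ (k + 1)) ≤
        (2 * (M : ℝ)) ^ (2 ^ k - 1) * ∑ h ∈ Ioo (-(M : ℤ)) M, S h ^ (2 ^ k) := by
      refine le_trans ?_ h3
      rw [pow_succ' 2 k, pow_mul]
      exact pow_le_pow_left₀ (sq_nonneg _) h1 _
    have h6 : (∑ h ∈ Ioo (-(M : ℤ)) M, S h ^ (2 ^ k)) * (M : ℝ) ^ (k + 1) ≤
        C * (M : ℝ) ^ (2 ^ k) * cu (k + 1) M b := by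
      rw [cu_succ, Finset.sum_mul, Finset.mul_sum]
      exact Finset.sum_le_sum fun h _ => h2 h
    calc ‖∑ m ∈ range M, (b m : ℂ) * X.μ.E (cor X (k + 1) G m)‖ ^ (2 ^ (k + 1)) *
          (M : ℝ) ^ (k + 1 + 1)
        ≤ ((2 * (M : ℝ)) ^ (2 ^ k - 1) * ∑ h ∈ Ioo (-(M : ℤ)) M, S h ^ (2 ^ k)) *
          (M : ℝ) ^ (k + 1 + 1) := mul_le_mul_of_nonneg_right h5 (by positivity)
      _ = (2 * (M : ℝ)) ^ (2 ^ k - 1) * M *
          ((∑ h ∈ Ioo (-(M : ℤ)) M, S h ^ (2 ^ k)) * (M : ℝ) ^ (k + 1)) := by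
          rw [pow_succ (M : ℝ) (k + 1)]
          ring
      _ ≤ (2 * (M : ℝ)) ^ (2 ^ k - 1) * M * (C * (M : ℝ) ^ (2 ^ k) * cu (k + 1) M b) :=
          mul_le_mul_of_nonneg_left h6 (by positivity)
      _ = C * 2 ^ (2 ^ k - 1) * ((M : ℝ) ^ (2 ^ k - 1 + 1) * (M : ℝ) ^ (2 ^ k)) *
          cu (k + 1) M b := by
          rw [mul_pow, pow_succ (M : ℝ) (2 ^ k - 1)]
          ring
      _ = C * 2 ^ (2 ^ k - 1) * (M : ℝ) ^ (2 ^ (k + 1)) * cu (k + 1) M b := by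
          rw [hk, ← pow_add, ← two_mul, ← pow_succ']

theorem gvn (k : ℕ) : GVN k := by
  obtain ⟨C, hC, h⟩ := gvn_aux k
  refine ⟨C, hC, fun X G hG M hM b hb => ?_⟩
  have hM0 : (0 : ℝ) < M := by exact_mod_cast hM
  have h1 := h X G hG M hM b hb
  have h2 : ‖(1 / (M : ℂ)) * ∑ m ∈ range M, (b m : ℂ) * X.μ.E (cor X k G m)‖ ^ (2 ^ k) =
      ‖∑ m ∈ range M, (b m : ℂ) * X.μ.E (cor X k G m)‖ ^ (2 ^ k) / (M : ℝ) ^ (2 ^ k) := by
    rw [norm_mul, mul_pow, norm_div, norm_one, Complex.norm_natCast, div_pow, one_pow]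
    ring
  rw [h2]
  change _ ≤ C / (M : ℝ) ^ (k + 1) * cu k M b
  rw [div_le_iff₀ (by positivity), div_mul_eq_mul_div, div_mul_eq_mul_div, le_div_iff₀ (by positivity)]
  calc _ ≤ C * (M : ℝ) ^ (2 ^ k) * cu k M b := h1
    _ = C * cu k M b * (M : ℝ) ^ (2 ^ k) := by ring

end DG
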