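import Pool.Agent.Helper6.DG.Defs

set_option autoImplicit false

/-!
# DGB-1a: one Cauchy-Schwarz step

PROOF. `cor X (k+1) G m x = G 0 x * ∏_(i < k+1) G (i+1) (T^((i+1) m) x)` (`prod_range_succ'`); so with `F = ∑ b_m ∏ ...`
`‖∑ b_m E cor‖ = ‖E (G 0 * F)‖`, whose square is `≤ N2 F` (`Mean.cs_one`), `N2 F = E (F conj F)` (`N2_eq`) `= ∑_(m, m') b_m b_m' E(...)`;
put `m' = m + h`, `h ∈ Ioo (-M) M` (the terms with `m + h` outside `[0, M)` have `b (m + h) = 0`), and apply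
`T^(-m)` (`inv_zpow`): `E ∏_i (G (i+1) · conj G (i+1) ∘ T^((i+1) h)) (T^((i+1) m) x) = E cor X k G' m`, with
`G' i x = G (i+1) x * conj (G (i+1) (T^((i+1) h) x))`.
-/

namespace DG

open Finset

theorem gvn_step (X : Sys) (k : ℕ) (G : ℕ → X.S → ℂ) (hG : ∀ i x, ‖G i x‖ ≤ 1) (M : ℕ)
    (b : ℤ → ℝ) (hb : ∀ m, b m ≠ 0 → 0 ≤ m ∧ m < M) :
    ‖∑ m ∈ range M, (b m : ℂ) * X.μ.E (cor X (k + 1) G m)‖ ^ 2 ≤
      ∑ h ∈ Ioo (-(M : ℤ)) M, ‖∑ m ∈ range M, ((b m * b (m + h) : ℝ) : ℂ) * X.μ.E (cor X k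
        (fun i x => G (i + 1) x * (starRingEnd ℂ) (G (i + 1) ((X.T ^ (((i : ℤ) + 1) * h)) x))) m)‖ := by
  classical
  set U : ℤ → X.S → ℂ := fun m x =>
    ∏ i ∈ range (k + 1), G (i + 1) ((X.T ^ (((i : ℤ) + 1) * m)) x) with hU
  have hUb : ∀ m x, ‖U m x‖ ≤ 1 := fun m x => prod_norm_le_one _ _ fun i _ => hG _ _
  have hcor : ∀ (m : ℤ) (x : X.S), cor X (k + 1) G m x = G 0 x * U m x := by
    intro m x
    unfold cor
    rw [Finset.prod_range_succ', mul_comm]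
    have h0 : G 0 ((X.T ^ (((0 : ℕ) : ℤ) * m)) x) = G 0 x := by simp
    exact congrArg₂ (· * ·) h0 rfl
  set V : ℤ → ℤ → ℂ := fun m h => X.μ.E (cor X k
    (fun i x => G (i + 1) x * (starRingEnd ℂ) (G (i + 1) ((X.T ^ (((i : ℤ) + 1) * h)) x))) m) with hV
  have hUU : ∀ (m h : ℤ), X.μ.E (fun x => U m x * (starRingEnd ℂ) (U (m + h) x)) = V m h := by
    intro m h
    have hbd : Bd (fun x => U m x * (starRingEnd ℂ) (U (m + h) x)) := by
      refine ⟨1, fun x => ?_⟩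
      rw [norm_mul, RCLike.norm_conj]
      exact mul_le_one₀ (hUb _ _) (norm_nonneg _) (hUb _ _)
    simp only [hV]
    rw [← X.inv_zpow (-m) _ hbd]
    congr 1
    funext x
    unfold cor
    simp only [hU]
    rw [map_prod, ← Finset.prod_mul_distrib]
    refine Finset.prod_congr rfl fun i _ => ?_
    have h1 : (X.T ^ (((i : ℤ) + 1) * m)) ((X.T ^ (-m)) x) = (X.T ^ ((i : ℤ) * m)) x := by
      rw [← Equiv.Perm.mul_apply, ← zpow_add]
      congr 2
      ring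
    have h2 : (X.T ^ (((i : ℤ) + 1) * (m + h))) ((X.T ^ (-m)) x) =
        (X.T ^ (((i : ℤ) + 1) * h)) ((X.T ^ ((i : ℤ) * m)) x) := by
      rw [← Equiv.Perm.mul_apply, ← Equiv.Perm.mul_apply, ← zpow_add, ← zpow_add]
      congr 2
      ring
    rw [h1, h2]
  set F : X.S → ℂ := fun x => ∑ m ∈ range M, (b m : ℂ) * U m x with hF
  have hFb : Bd F := by
    refine ⟨∑ m ∈ range M, |b m|, fun x => ?_⟩
    simp only [hF]
    refine norm_sum_le_of_le _ fun m _ => ?_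
    rw [norm_mul, Complex.norm_real, Real.norm_eq_abs]
    exact mul_le_of_le_one_right (abs_nonneg _) (hUb _ _)
  have h1 : ∑ m ∈ range M, (b m : ℂ) * X.μ.E (cor X (k + 1) G m) =
      X.μ.E (fun x => G 0 x * F x) := by
    have e1 : (fun x => G 0 x * F x) = fun x => ∑ m ∈ range M, (b m : ℂ) * (G 0 x * U m x) := by
      funext x
      simp only [hF]
      rw [Finset.mul_sum]
      exact Finset.sum_congr rfl fun m _ => by ring
    rw [e1, X.μ.E_sum]
    refine Finset.sum_congr rfl fun m _ => ?_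
    rw [X.μ.E_const_mul]
    congr 2
    funext x
    exact hcor m x
  rw [h1]
  refine (X.μ.cs_one _ _ (hG 0) hFb).trans ?_
  have h2 : ((X.μ.N2 F : ℝ) : ℂ) = ∑ h ∈ Ioo (-(M : ℤ)) M, ∑ m ∈ range M,
      ((b m * b (m + h) : ℝ) : ℂ) * V m h := by
    rw [← X.μ.N2_eq _ hFb]
    have e1 : (fun x => F x * (starRingEnd ℂ) (F x)) = fun x => ∑ m ∈ range M, ∑ m' ∈ range M,
        ((b m * b m' : ℝ) : ℂ) * (U m x * (starRingEnd ℂ) (U m' x)) := by
      funext x
      simp only [hF]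
      rw [map_sum, Finset.sum_mul_sum]
      refine Finset.sum_congr rfl fun m _ => Finset.sum_congr rfl fun m' _ => ?_
      rw [map_mul, Complex.conj_ofReal]
      push_cast
      ring
    rw [e1, X.μ.E_sum, Finset.sum_comm]
    refine Finset.sum_congr rfl fun m hm => ?_
    rw [X.μ.E_sum]
    have e2 : ∀ m' : ℕ, X.μ.E (fun x => ((b m * b m' : ℝ) : ℂ) *
        (U m x * (starRingEnd ℂ) (U m' x))) =
        ((b m * b (m + ((m' : ℤ) - m)) : ℝ) : ℂ) * V m ((m' : ℤ) - m) := by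
      intro m'
      have e3 : (m : ℤ) + ((m' : ℤ) - m) = m' := by ring
      rw [X.μ.E_const_mul, ← hUU, e3]
    rw [Finset.sum_congr rfl fun m' _ => e2 m']
    rw [mem_range] at hm
    -- reindex
    have e4 : ∑ m' ∈ range M, ((b m * b (m + ((m' : ℤ) - m)) : ℝ) : ℂ) * V m ((m' : ℤ) - m) =
        ∑ h ∈ (range M).image (fun m' : ℕ => (m' : ℤ) - m), ((b m * b (m + h) : ℝ) : ℂ) * V m h := by
      rw [Finset.sum_image]
      intro x _ y _ hxy
      have : (x : ℤ) - m = (y : ℤ) - m := hxy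
      omega
    rw [e4]
    refine Finset.sum_subset ?_ ?_
    · intro h hh
      obtain ⟨m', hm', rfl⟩ := Finset.mem_image.1 hh
      rw [mem_range] at hm'
      rw [mem_Ioo]
      omega
    · intro h _ hh2
      have h0 : b ((m : ℤ) + h) = 0 := by
        by_contra hne
        obtain ⟨h3, h4⟩ := hb _ hne
        apply hh2
        refine Finset.mem_image.2 ⟨((m : ℤ) + h).toNat, ?_, ?_⟩
        · rw [mem_range]
          omega
        · show (((((m : ℤ) + h).toNat : ℕ)) : ℤ) - m = h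
          omega
      rw [h0]
      simp
  have h3 : X.μ.N2 F = ‖∑ h ∈ Ioo (-(M : ℤ)) M, ∑ m ∈ range M,
      ((b m * b (m + h) : ℝ) : ℂ) * V m h‖ := by
    rw [← h2, Complex.norm_real, Real.norm_of_nonneg (X.μ.N2_nonneg _ hFb)]
  rw [h3]
  exact norm_sum_le _ _

end DG
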