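import Pool.Agent.Helper6.DG.Defs

set_option autoImplicit false

/-!
# DGB-2: squares of averages of correlations are averages of correlations in product systems

`prodSys X a b`: the system `X × X` with `T^a × T^b`. PROOF of the invariance: `Mean.prod_E`, `inv_zpow` in the second variable
for every fixed first variable, then in the first variable for `x ↦ E_y f(x, y)`.
`cor_pair`: `cor (prodSys X (epq) (ep''q)) k G' j (x, y) = cor X k G (ep(1+q(t+j))) x * conj (cor X k G (ep''(1+q(t+j))) y)`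
with `G' i (x, y) = G i (T^(i ep(1+qt)) x) * conj (G i (T^(i ep''(1+qt)) y))`: `(T^a × T^b)^n = T^(an) × T^(bn)`.
Then `E' = E · conj E` (`E_mul_const`, `E_const_mul`, `E_conj`).
`sum_sq`: `‖(1/|P|) ∑_p z_p‖² = |P|^(-2) ∑_(p, p'') z_p conj z_p''`.
`pairs_bound`: the sum over `j` of `b_j F_j` is the average over the pairs `(p, p'')` of `∑_j b_j E' cor' j`.
-/

namespace DG

open Finset

theorem prod_inv (X : Sys) (a b : ℤ) (f : X.S × X.S → ℂ) (hf : Bd f) :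
    (X.μ.prod X.μ).E (fun z => f ((X.T ^ a).prodCongr (X.T ^ b) z)) = (X.μ.prod X.μ).E f := by
  rw [Mean.prod_E, Mean.prod_E]
  obtain ⟨C, hC⟩ := hf
  have h1 : ∀ x, X.μ.E (fun y => f ((X.T ^ a).prodCongr (X.T ^ b) (x, y))) =
      X.μ.E (fun y => f ((X.T ^ a) x, y)) := by
    intro x
    exact X.inv_zpow b (fun y => f ((X.T ^ a) x, y)) ⟨C, fun y => hC _⟩
  simp only [h1]
  exact X.inv_zpow a (fun x => X.μ.E (fun y => f (x, y)))
    ⟨C, fun x => X.μ.norm_E_le _ (fun y => hC _)⟩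

/-- The system `X × X` with `T^a × T^b`. -/
noncomputable def prodSys (X : Sys) (a b : ℤ) : Sys where
  S := X.S × X.S
  T := (X.T ^ a).prodCongr (X.T ^ b)
  μ := X.μ.prod X.μ
  inv := fun f hf => prod_inv X a b f hf

/-- The functions of the product system. -/
noncomputable def Gp (X : Sys) (G : ℕ → X.S → ℂ) (a b : ℤ) (i : ℕ) (z : X.S × X.S) : ℂ :=
  G i ((X.T ^ ((i : ℤ) * a)) z.1) * (starRingEnd ℂ) (G i ((X.T ^ ((i : ℤ) * b)) z.2))

theorem Gp_le (X : Sys) (G : ℕ → X.S → ℂ) (hG : ∀ i x, ‖G i x‖ ≤ 1) (a b : ℤ) (i : ℕ)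
    (z : X.S × X.S) : ‖Gp X G a b i z‖ ≤ 1 := by
  unfold Gp
  rw [norm_mul, RCLike.norm_conj]
  exact mul_le_one₀ (hG _ _) (norm_nonneg _) (hG _ _)

/-- The product of permutations as a homomorphism. -/
def pcHom (S : Type) : Equiv.Perm S × Equiv.Perm S →* Equiv.Perm (S × S) where
  toFun := fun p => p.1.prodCongr p.2
  map_one' := by
    ext z <;> rfl
  map_mul' := by
    intro p q
    ext z <;> rfl

theorem prodSys_zpow (X : Sys) (a b n : ℤ) (x y : X.S) :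
    (((X.T ^ a).prodCongr (X.T ^ b)) ^ n) (x, y) =
      ((X.T ^ (a * n)) x, (X.T ^ (b * n)) y) := by
  have h1 : ((X.T ^ a).prodCongr (X.T ^ b)) ^ n = pcHom X.S ((X.T ^ a, X.T ^ b) ^ n) := by
    rw [map_zpow]
    rfl
  rw [h1, zpow_mul, zpow_mul]
  rfl

theorem cor_pair_prodSys (X : Sys) (k : ℕ) (G : ℕ → X.S → ℂ) (a b c d j : ℤ) (x y : X.S) :
    cor (prodSys X a b) k (Gp X G c d) j (x, y) =
      cor X k G (c + a * j) x * (starRingEnd ℂ) (cor X k G (d + b * j) y) := by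
  unfold cor
  rw [map_prod, ← Finset.prod_mul_distrib]
  refine Finset.prod_congr rfl fun i _ => ?_
  have h1 : ((prodSys X a b).T ^ ((i : ℤ) * j)) (x, y) =
      ((X.T ^ (a * ((i : ℤ) * j))) x, (X.T ^ (b * ((i : ℤ) * j))) y) :=
    prodSys_zpow X a b _ x y
  rw [h1]
  unfold Gp
  have h2 : (X.T ^ ((i : ℤ) * c)) ((X.T ^ (a * ((i : ℤ) * j))) x) =
      (X.T ^ ((i : ℤ) * (c + a * j))) x := by
    rw [← Equiv.Perm.mul_apply, ← zpow_add]
    congr 2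
    ring
  have h3 : (X.T ^ ((i : ℤ) * d)) ((X.T ^ (b * ((i : ℤ) * j))) y) =
      (X.T ^ ((i : ℤ) * (d + b * j))) y := by
    rw [← Equiv.Perm.mul_apply, ← zpow_add]
    congr 2
    ring
  simp only [h2, h3]

theorem cor_bd_pairs (X : Sys) (k : ℕ) (G : ℕ → X.S → ℂ) (hG : ∀ i x, ‖G i x‖ ≤ 1) (m : ℤ) :
    Bd (cor X k G m) :=
  ⟨1, fun x => prod_norm_le_one _ _ (fun i _ => hG i _)⟩

theorem E_pair (X : Sys) (k : ℕ) (G : ℕ → X.S → ℂ) (hG : ∀ i x, ‖G i x‖ ≤ 1) (a b c d j : ℤ) :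
    (prodSys X a b).μ.E (cor (prodSys X a b) k (Gp X G c d) j) =
      X.μ.E (cor X k G (c + a * j)) * (starRingEnd ℂ) (X.μ.E (cor X k G (d + b * j))) := by
  have h0 : (prodSys X a b).μ.E (cor (prodSys X a b) k (Gp X G c d) j) =
      X.μ.E (fun x => X.μ.E (fun y => cor (prodSys X a b) k (Gp X G c d) j (x, y))) := rfl
  rw [h0]
  simp only [cor_pair_prodSys]
  have h1 : ∀ x, X.μ.E (fun y => cor X k G (c + a * j) x *
      (starRingEnd ℂ) (cor X k G (d + b * j) y)) =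
      cor X k G (c + a * j) x * (starRingEnd ℂ) (X.μ.E (cor X k G (d + b * j))) := by
    intro x
    rw [X.μ.E_const_mul, X.μ.E_conj _ (cor_bd_pairs X k G hG _)]
  simp only [h1]
  exact X.μ.E_mul_const _ _

theorem sum_sq_pairs (P : Finset ℕ) (z : ℕ → ℂ) :
    ((‖(1 / (P.card : ℂ)) * ∑ p ∈ P, z p‖ ^ 2 : ℝ) : ℂ) =
      (1 / (P.card : ℂ) ^ 2) * ∑ p ∈ P, ∑ p' ∈ P, z p * (starRingEnd ℂ) (z p') := by
  rw [← Finset.sum_mul_sum, ← map_sum]
  rw [← Complex.normSq_eq_norm_sq, ← Complex.mul_conj, map_mul, map_div₀, map_one,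
    Complex.conj_natCast]
  ring

/-- If all pair correlations are small then so is the weighted sum of the squares. -/
theorem pairs_bound (X : Sys) (k : ℕ) (G : ℕ → X.S → ℂ) (hG : ∀ i x, ‖G i x‖ ≤ 1) (M : ℕ)
    (b : ℤ → ℝ) (e q : ℕ) (t : ℤ) (P : Finset ℕ) (hP : P.Nonempty) (β : ℝ)
    (h : ∀ p ∈ P, ∀ p' ∈ P, ‖∑ j ∈ range M, (b j : ℂ) *
      (prodSys X ((e * p : ℤ) * q) ((e * p' : ℤ) * q)).μ.E
        (cor (prodSys X ((e * p : ℤ) * q) ((e * p' : ℤ) * q)) k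
          (Gp X G ((e * p : ℤ) * (1 + q * t)) ((e * p' : ℤ) * (1 + q * t))) j)‖ ≤ β) :
    |∑ j ∈ range M, b j * ‖(1 / (P.card : ℂ)) * ∑ p ∈ P,
        X.μ.E (cor X k G ((e * p : ℤ) * (1 + q * (t + j))))‖ ^ 2| ≤ β := by
  have hc : (0 : ℝ) < P.card := by exact_mod_cast hP.card_pos
  set z : ℕ → ℕ → ℂ := fun j p => X.μ.E (cor X k G ((e * p : ℤ) * (1 + q * (t + j)))) with hz
  have h1 : ∀ p p' : ℕ, ∀ j : ℕ,
      (prodSys X ((e * p : ℤ) * q) ((e * p' : ℤ) * q)).μ.E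
        (cor (prodSys X ((e * p : ℤ) * q) ((e * p' : ℤ) * q)) k
          (Gp X G ((e * p : ℤ) * (1 + q * t)) ((e * p' : ℤ) * (1 + q * t))) j) =
      z j p * (starRingEnd ℂ) (z j p') := by
    intro p p' j
    rw [E_pair X k G hG]
    have e1 : ((e * p : ℤ) * (1 + q * t)) + (e * p : ℤ) * q * j =
        (e * p : ℤ) * (1 + q * (t + j)) := by ring
    have e2 : ((e * p' : ℤ) * (1 + q * t)) + (e * p' : ℤ) * q * j =
        (e * p' : ℤ) * (1 + q * (t + j)) := by ring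
    rw [e1, e2]
  have h2 : ((∑ j ∈ range M, b j * ‖(1 / (P.card : ℂ)) * ∑ p ∈ P, z j p‖ ^ 2 : ℝ) : ℂ) =
      (1 / (P.card : ℂ) ^ 2) * ∑ p ∈ P, ∑ p' ∈ P, ∑ j ∈ range M,
        (b j : ℂ) * (z j p * (starRingEnd ℂ) (z j p')) := by
    have e3 : ∀ j : ℕ, ((b j * ‖(1 / (P.card : ℂ)) * ∑ p ∈ P, z j p‖ ^ 2 : ℝ) : ℂ) =
        (1 / (P.card : ℂ) ^ 2) * ∑ p ∈ P, ∑ p' ∈ P,
          (b j : ℂ) * (z j p * (starRingEnd ℂ) (z j p')) := by
      intro j
      rw [Complex.ofReal_mul, sum_sq_pairs]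
      simp only [← Finset.mul_sum]
      ring
    rw [Complex.ofReal_sum]
    simp only [e3]
    rw [← Finset.mul_sum, Finset.sum_comm]
    congr 1
    refine Finset.sum_congr rfl fun p _ => ?_
    rw [Finset.sum_comm]
  have h3 : |∑ j ∈ range M, b j * ‖(1 / (P.card : ℂ)) * ∑ p ∈ P, z j p‖ ^ 2| =
      ‖((∑ j ∈ range M, b j * ‖(1 / (P.card : ℂ)) * ∑ p ∈ P, z j p‖ ^ 2 : ℝ) : ℂ)‖ := by
    rw [Complex.norm_real, Real.norm_eq_abs]
  show |∑ j ∈ range M, b j * ‖(1 / (P.card : ℂ)) * ∑ p ∈ P, z j p‖ ^ 2| ≤ β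
  rw [h3, h2, norm_mul]
  have h4 : ‖∑ p ∈ P, ∑ p' ∈ P, ∑ j ∈ range M,
        (b j : ℂ) * (z j p * (starRingEnd ℂ) (z j p'))‖ ≤ (P.card : ℝ) * ((P.card : ℝ) * β) := by
    refine (norm_sum_le _ _).trans ?_
    have h5 : ∀ p ∈ P, ‖∑ p' ∈ P, ∑ j ∈ range M,
        (b j : ℂ) * (z j p * (starRingEnd ℂ) (z j p'))‖ ≤ (P.card : ℝ) * β := by
      intro p hp
      refine (norm_sum_le _ _).trans ?_
      refine (Finset.sum_le_card_nsmul P _ β ?_).trans ?_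
      · intro p' hp'
        have := h p hp p' hp'
        simp only [h1] at this
        exact this
      · rw [nsmul_eq_mul]
    refine (Finset.sum_le_card_nsmul P _ _ h5).trans ?_
    rw [nsmul_eq_mul]
  have h6 : ‖(1 / (P.card : ℂ) ^ 2)‖ = 1 / (P.card : ℝ) ^ 2 := by
    rw [norm_div, norm_one, norm_pow, Complex.norm_natCast]
  rw [h6]
  calc 1 / (P.card : ℝ) ^ 2 * ‖∑ p ∈ P, ∑ p' ∈ P, ∑ j ∈ range M,
        (b j : ℂ) * (z j p * (starRingEnd ℂ) (z j p'))‖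
      ≤ 1 / (P.card : ℝ) ^ 2 * ((P.card : ℝ) * ((P.card : ℝ) * β)) :=
        mul_le_mul_of_nonneg_left h4 (by positivity)
    _ = β := by
        field_simp

end DG
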