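import Pool.Agent.Helper40.DB.Gvn
import Pool.Agent.Helper40.DB.Pairs
import Pool.Agent.Helper40.DB.Major
import Pool.Agent.Helper40.DB.Cube

set_option autoImplicit false

/-!
# DGB-4: the sieve transfer

PROOF. `c` from `major`, `C` from `gvn k`. Let `ε' = (c ε / 16)^(2^k) / C`; `s, N₀` from `cube_small k ε'`; `K = 16 s / c`.
For `N ≥ max(N₀, 2)`: `H₀` from `cube_small`; for large `Y`: `M = MM D N! Y ≥ H₀`, `z` from `exists_z`; every prime `p ∈ (N, z]` does not
divide `N!`. For `F m = ‖(1/|P|) ∑_p E cor (e p m)‖²`: `major` gives `lhs ≤ K (1/M) ∑_j ν_j F_j = K (1/M) ∑ F_j + K (1/M) ∑ (ν_j - 1) F_j`.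
The last sum: `pairs_bound` with `b j = ν(t + j) - 1` for `0 ≤ j < M` and `0` otherwise, `β = M (C ε' / s^(2^k))^(1/2^k) = M c ε / (16 s)`: by `gvn` for the
product systems and `cube_small` (`a = tt`): the sum over `m ∈ range M` of `∏_w b(m + ∑_w h)` is the sum over the
`m ∈ [a, a + M)` with all `m + dot h w ∈ [a, a + M)` of `∏ (ν - 1)` (translate by `a`). `x ^ (2^k) ≤ y ^ (2^k)` gives `x ≤ y`.
-/

namespace DG

open Finset Filter

/-- Translation of the cube sums. -/
private lemma inner_eq (ν : ℤ → ℝ) (M : ℕ) (t : ℤ) {k : ℕ} (h : Fin k → ℤ) :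
    ∑ m ∈ range M, ∏ s : Finset (Fin k), (if 0 ≤ (m : ℤ) + ∑ i ∈ s, h i ∧
      (m : ℤ) + ∑ i ∈ s, h i < M then ν (t + ((m : ℤ) + ∑ i ∈ s, h i)) - 1 else 0) =
    ∑ m ∈ (Ico t (t + M)).filter (fun m => ∀ w : Finset (Fin k),
      m + Pool.Agent.Helper40.DB.dot h w ∈ Ico t (t + M)),
        ∏ w : Finset (Fin k), (ν (m + Pool.Agent.Helper40.DB.dot h w) - 1) := by
  classical
  rw [sum_filter]
  refine sum_nbij' (fun m => t + (m : ℤ)) (fun x => (x - t).toNat) ?_ ?_ ?_ ?_ ?_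
  · intro m hm
    rw [mem_range] at hm
    rw [mem_Ico]
    omega
  · intro x hx
    rw [mem_Ico] at hx
    rw [mem_range]
    omega
  · intro m _
    simp
  · intro x hx
    rw [mem_Ico] at hx
    omega
  · intro m _
    by_cases H : ∀ w : Finset (Fin k), t + (m : ℤ) + Pool.Agent.Helper40.DB.dot h w ∈ Ico t (t + M)
    · rw [if_pos H]
      refine prod_congr rfl fun s _ => ?_
      have h1 := H s
      rw [mem_Ico] at h1
      unfold Pool.Agent.Helper40.DB.dot at h1 ⊢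
      rw [if_pos (by constructor <;> omega), add_assoc]
    · rw [if_neg H]
      push Not at H
      obtain ⟨w, hw⟩ := H
      refine prod_eq_zero (mem_univ w) (if_neg fun h1 => hw ?_)
      rw [mem_Ico]
      unfold Pool.Agent.Helper40.DB.dot
      obtain ⟨h2, h3⟩ := h1
      constructor <;> omega

theorem svt (hPR : PR) (k : ℕ) : SVT k := by
  classical
  intro D hD ε hε
  obtain ⟨c, hc, hmaj⟩ := major hPR D hD
  obtain ⟨C, hC, hgvn⟩ := gvn k
  set ε' : ℝ := (c * ε / 16) ^ (2 ^ k) / C with hε'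
  have hε'0 : 0 < ε' := by positivity
  obtain ⟨s, hs, N₀, hcube⟩ := Pool.Agent.Helper40.DB.cube_small k ε' hε'0
  have hs0 : (0 : ℝ) < s := by exact_mod_cast hs
  refine ⟨16 * s / c, by positivity, ?_⟩
  filter_upwards [eventually_ge_atTop (max N₀ 2)] with N hN
  have hN2 : 2 ≤ N := (le_max_right _ _).trans hN
  obtain ⟨H₀, hH₀⟩ := hcube N ((le_max_left _ _).trans hN)
  filter_upwards [hmaj s hs N hN2, eventually_ge_atTop (H₀ * (D * N.factorial))] with Y hY hYH
  intro X e P he hP hP1 G hG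
  set M : ℕ := MM D N.factorial Y with hM
  set t : ℤ := (tt N.factorial Y : ℤ) with ht
  have hM3 : 3 ≤ M := Nat.le_add_left _ _
  have hM0 : (0 : ℝ) < M := by
    have : 0 < M := by omega
    exact_mod_cast this
  have hMH : H₀ ≤ M := by
    have h1 : H₀ ≤ Y / (D * N.factorial) := by
      rw [Nat.le_div_iff_mul_le (Nat.mul_pos hD N.factorial_pos)]
      exact hYH
    exact h1.trans (Nat.le_add_right _ _)
  obtain ⟨z, hz1, hzs, hzlt⟩ := exists_z s M hs (by omega)
  set F : ℤ → ℝ := fun m => ‖(1 / (P.card : ℂ)) * ∑ p ∈ P, X.μ.E (cor X k G ((e * p : ℤ) * m))‖ ^ 2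
    with hF
  have hF0 : ∀ m, 0 ≤ F m := fun m => by rw [hF]; positivity
  have hmajor := hY.2 z hzs hzlt F hF0
  have hcop : ∀ p ∈ Pool.Agent.Helper40.DB.PP N z, ¬ p ∣ N.factorial := by
    intro p hp hdvd
    unfold Pool.Agent.Helper40.DB.PP at hp
    rw [mem_filter, mem_Ioc] at hp
    have := (Nat.Prime.dvd_factorial hp.2).1 hdvd
    omega
  have hcs := hH₀ M hMH z N.factorial hzs hcop t
  -- the weights
  set b : ℤ → ℝ := fun m => if 0 ≤ m ∧ m < M then
    Pool.Agent.Helper40.DB.nu N.factorial N z (t + m) - 1 else 0 with hb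
  have hbsupp : ∀ m, b m ≠ 0 → 0 ≤ m ∧ m < M := by
    intro m hm
    by_contra hcon
    apply hm
    rw [hb]
    simp only
    rw [if_neg hcon]
  have hbox : ∑ h ∈ Fintype.piFinset (fun _ : Fin k => Ioo (-(M : ℤ)) M),
      |∑ m ∈ range M, ∏ s : Finset (Fin k), b ((m : ℤ) + ∑ i ∈ s, h i)| =
      ∑ h ∈ Pool.Agent.Helper40.DB.box k M, |∑ m ∈ (Ico t (t + M)).filter
        (fun m => ∀ w : Finset (Fin k), m + Pool.Agent.Helper40.DB.dot h w ∈ Ico t (t + M)),
          ∏ w : Finset (Fin k), (Pool.Agent.Helper40.DB.nu N.factorial N z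
            (m + Pool.Agent.Helper40.DB.dot h w) - 1)| := by
    unfold Pool.Agent.Helper40.DB.box
    refine sum_congr rfl fun h _ => ?_
    rw [← inner_eq]
  set β : ℝ := M * (c * ε / 16) / s with hβ
  have hpair : ∀ p ∈ P, ∀ p' ∈ P, ‖∑ j ∈ range M, (b j : ℂ) *
      (prodSys X ((e * p : ℤ) * N.factorial) ((e * p' : ℤ) * N.factorial)).μ.E
        (cor (prodSys X ((e * p : ℤ) * N.factorial) ((e * p' : ℤ) * N.factorial)) k
          (Gp X G ((e * p : ℤ) * (1 + N.factorial * t))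
            ((e * p' : ℤ) * (1 + N.factorial * t))) j)‖ ≤ β := by
    intro p _ p' _
    have h1 := hgvn (prodSys X ((e * p : ℤ) * N.factorial) ((e * p' : ℤ) * N.factorial))
      (Gp X G ((e * p : ℤ) * (1 + N.factorial * t)) ((e * p' : ℤ) * (1 + N.factorial * t)))
      (fun i x => Gp_le X G hG _ _ i x) M (by omega) b hbsupp
    rw [hbox] at h1
    set Z := ∑ j ∈ range M, (b j : ℂ) *
      (prodSys X ((e * p : ℤ) * N.factorial) ((e * p' : ℤ) * N.factorial)).μ.E
        (cor (prodSys X ((e * p : ℤ) * N.factorial) ((e * p' : ℤ) * N.factorial)) k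
          (Gp X G ((e * p : ℤ) * (1 + N.factorial * t))
            ((e * p' : ℤ) * (1 + N.factorial * t))) j) with hZ
    set Q := ∑ h ∈ Pool.Agent.Helper40.DB.box k M, |∑ m ∈ (Ico t (t + M)).filter
        (fun m => ∀ w : Finset (Fin k), m + Pool.Agent.Helper40.DB.dot h w ∈ Ico t (t + M)),
          ∏ w : Finset (Fin k), (Pool.Agent.Helper40.DB.nu N.factorial N z
            (m + Pool.Agent.Helper40.DB.dot h w) - 1)| with hQ
    have h2 : ‖(1 / (M : ℂ)) * Z‖ = ‖Z‖ / M := by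
      rw [norm_mul, norm_div, norm_one, Complex.norm_natCast]
      ring
    rw [h2] at h1
    have h3 : ((s : ℝ) * (‖Z‖ / M)) ^ (2 ^ k) ≤ (c * ε / 16) ^ (2 ^ k) := by
      rw [mul_pow]
      have hMk : (0 : ℝ) < (M : ℝ) ^ (k + 1) := by positivity
      calc (s : ℝ) ^ (2 ^ k) * (‖Z‖ / M) ^ (2 ^ k) ≤
          (s : ℝ) ^ (2 ^ k) * (C / (M : ℝ) ^ (k + 1) * Q) :=
            mul_le_mul_of_nonneg_left h1 (by positivity)
        _ = C / (M : ℝ) ^ (k + 1) * ((s : ℝ) ^ (2 ^ k) * Q) := by ring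
        _ ≤ C / (M : ℝ) ^ (k + 1) * (ε' * (M : ℝ) ^ (k + 1)) :=
            mul_le_mul_of_nonneg_left hcs (by positivity)
        _ = C * ε' := by field_simp
        _ = (c * ε / 16) ^ (2 ^ k) := by
            rw [hε', mul_div_cancel₀ _ hC.ne']
    have h4 : (s : ℝ) * (‖Z‖ / M) ≤ c * ε / 16 :=
      le_of_pow_le_pow_left₀ (by positivity) (by positivity) h3
    rw [hβ, le_div_iff₀ hs0]
    have h5 : (s : ℝ) * (‖Z‖ / M) * M = ‖Z‖ * s := by
      field_simp
    nlinarith [mul_le_mul_of_nonneg_right h4 hM0.le]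
  have hpb := pairs_bound X k G hG M b e N.factorial t P hP β hpair
  have hsplit : ∑ j ∈ range M, Pool.Agent.Helper40.DB.nu N.factorial N z (t + j) *
      F (1 + (N.factorial : ℤ) * (t + j)) =
      ∑ j ∈ range M, F (1 + (N.factorial : ℤ) * (t + j)) +
        ∑ j ∈ range M, b j * F (1 + (N.factorial : ℤ) * (t + j)) := by
    rw [← sum_add_distrib]
    refine sum_congr rfl fun j hj => ?_
    rw [mem_range] at hj
    rw [hb]
    simp only
    rw [if_pos ⟨by positivity, by exact_mod_cast hj⟩]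
    ring
  have hlast : ∑ j ∈ range M, b j * F (1 + (N.factorial : ℤ) * (t + j)) ≤ β :=
    (le_abs_self _).trans hpb
  refine hmajor.trans ?_
  rw [hsplit]
  have hKβ : (16 * s / c) * ((1 / (M : ℝ)) * β) = ε := by
    rw [hβ]
    field_simp
  have h6 : (16 * s / c) * ((1 / (M : ℝ)) *
      ∑ j ∈ range M, b j * F (1 + (N.factorial : ℤ) * (t + j))) ≤ ε := by
    rw [← hKβ]
    exact mul_le_mul_of_nonneg_left (mul_le_mul_of_nonneg_left hlast (by positivity))
      (by positivity)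
  calc (16 * s / c) * ((1 / (M : ℝ)) * (∑ j ∈ range M, F (1 + (N.factorial : ℤ) * (t + j)) +
        ∑ j ∈ range M, b j * F (1 + (N.factorial : ℤ) * (t + j)))) =
      (16 * s / c) * ((1 / (M : ℝ)) * ∑ j ∈ range M, F (1 + (N.factorial : ℤ) * (t + j))) +
        (16 * s / c) * ((1 / (M : ℝ)) *
          ∑ j ∈ range M, b j * F (1 + (N.factorial : ℤ) * (t + j))) := by ring
    _ ≤ _ := add_le_add le_rfl h6

end DG
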